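import Mathlib

open scoped Pointwise
open Equiv

namespace Pool.Agent.Work.MP_bc729a_al

section alt

variable {n : ℕ}

/-- setwise stabiliser in `A_n` -/
def stab (s : Finset (Fin n)) : Subgroup (alternatingGroup (Fin n)) :=
  MulAction.stabilizer (alternatingGroup (Fin n)) (s : Set (Fin n))

lemma exists_alt_smul (hn : 3 ≤ n) (s t : Finset (Fin n)) (h : s.card = t.card) :
    ∃ a : alternatingGroup (Fin n), a • (s : Set (Fin n)) = t := by
  have hT := Set.powersetCard.isPretransitive_alternatingGroup (α := Fin n) (n := t.card)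
    (by simpa using hn)
  obtain ⟨a, ha⟩ := hT.exists_smul_eq (⟨s, h⟩ : Set.powersetCard (Fin n) t.card) ⟨t, rfl⟩
  refine ⟨a, ?_⟩
  have h1 := congrArg (fun u : Set.powersetCard (Fin n) t.card => (u : Finset (Fin n))) ha
  have h2 : a • s = t := h1
  rw [← h2, Finset.coe_smul_finset]

lemma stab_index (hn : 3 ≤ n) (s : Finset (Fin n)) : (stab s).index = n.choose s.card := by
  have hT := Set.powersetCard.isPretransitive_alternatingGroup (α := Fin n) (n := s.card)
    (by simpa using hn)
  have h1 := MulAction.index_stabilizer_of_transitive (alternatingGroup (Fin n))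
    (⟨s, rfl⟩ : Set.powersetCard (Fin n) s.card)
  have h2 := Set.powersetCard.stabilizer_coe (G := alternatingGroup (Fin n))
    (⟨s, rfl⟩ : Set.powersetCard (Fin n) s.card)
  have h3 : stab s = MulAction.stabilizer (alternatingGroup (Fin n))
    (⟨s, rfl⟩ : Set.powersetCard (Fin n) s.card) := h2.symm
  rw [h3, h1]
  have h4 := Set.powersetCard.card (α := Fin n) (n := s.card)
  rw [Nat.card_eq_fintype_card (α := Fin n), Fintype.card_fin] at h4
  exact h4

lemma stab_coatom (s : Finset (Fin n)) (h0 : 0 < s.card) (h1 : s.card < n)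
    (h2 : 2 * s.card ≠ n) : IsCoatom (stab s) := by
  apply alternatingGroup.isCoatom_stabilizer
  · simpa [Finset.card_pos] using h0
  · rw [Set.nonempty_compl]
    intro h
    have : s = Finset.univ := by
      ext x; simpa using (Set.ext_iff.1 h x)
    rw [this] at h1
    simp at h1
  · simp only [Nat.card_eq_fintype_card, Fintype.card_fin, Set.ncard_coe_finset]
    exact fun h => h2 h.symm

lemma conj_smul_stab (a : alternatingGroup (Fin n)) (s t : Finset (Fin n))
    (h : a • (s : Set (Fin n)) = t) : MulAut.conj a • stab s = stab t := by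
  rw [stab, stab, ← h, MulAction.stabilizer_smul_eq_stabilizer_map_conj]
  rfl

lemma mem_stab {s : Finset (Fin n)} {x : alternatingGroup (Fin n)} :
    x ∈ stab s ↔ ∀ i ∈ s, (x : Perm (Fin n)) i ∈ s := by
  rw [stab, MulAction.mem_stabilizer_set_iff_smul_set_subset s.finite_toSet]
  constructor
  · intro h i hi
    exact h (Set.smul_mem_smul_set (a := x) hi)
  · rintro h _ ⟨i, hi, rfl⟩
    exact h i hi

lemma map_stab (α : alternatingGroup (Fin n) ≃* alternatingGroup (Fin n)) (σ : Perm (Fin n))
    (hσ : ∀ x : alternatingGroup (Fin n),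
      ((α x : alternatingGroup (Fin n)) : Perm (Fin n)) = σ * (x : Perm (Fin n)) * σ⁻¹)
    (s : Finset (Fin n)) : (stab s).map α.toMonoidHom = stab (s.map σ.toEmbedding) := by
  ext x
  obtain ⟨y, rfl⟩ := α.surjective x
  constructor
  · rintro ⟨z, hz, hz2⟩
    have : z = y := α.injective hz2
    subst this
    rw [mem_stab] at *
    intro i hi
    have hz' := (mem_stab (s := s)).1 hz
    rw [Finset.mem_map] at hi
    obtain ⟨j, hj, rfl⟩ := hi
    rw [hσ, Finset.mem_map]
    exact ⟨_, hz' j hj, by simp⟩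
  · intro h
    refine ⟨y, ?_, rfl⟩
    have h' := (mem_stab (s := s.map σ.toEmbedding)).1 h
    refine (mem_stab (s := s)).2 fun i hi => ?_
    have := h' (σ i) (by rw [Finset.mem_map]; exact ⟨i, hi, rfl⟩)
    rw [hσ, Finset.mem_map] at this
    obtain ⟨j, hj, hj2⟩ := this
    have hj3 : σ j = σ ((y : Perm (Fin n)) i) := by
      have h7 : (σ * (y : Perm (Fin n)) * σ⁻¹) (σ i) = σ ((y : Perm (Fin n)) i) := by simp
      exact hj2.trans h7
    rwa [← σ.injective hj3]

lemma stab_ne_bot (hn : 5 ≤ n) (s : Finset (Fin n)) : stab s ≠ ⊥ := by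
  obtain ⟨g, hg, hg3⟩ := Equiv.Perm.exists_mem_stabilizer_isThreeCycle (α := Fin n) (s : Set (Fin n))
    (by simp; omega)
  intro h
  have h1 : (⟨g, hg3.mem_alternatingGroup⟩ : alternatingGroup (Fin n)) ∈ stab s := by
    rw [stab, MulAction.mem_stabilizer_iff]
    exact hg
  rw [h, Subgroup.mem_bot] at h1
  have h2 : g = 1 := congrArg Subtype.val h1
  rw [h2] at hg3
  have := hg3.card_support
  simp at this

/-- centraliser of `A_n` in `S_n` is trivial -/
lemma eq_one_of_commute (hn : 4 ≤ n) (σ : Perm (Fin n))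
    (h : ∀ x : alternatingGroup (Fin n), σ * (x : Perm (Fin n)) * σ⁻¹ = x) : σ = 1 := by
  by_contra hne
  obtain ⟨i, hi⟩ : ∃ i, σ i ≠ i := by
    by_contra hcon
    push Not at hcon
    exact hne (Equiv.ext hcon)
  -- choose a 3-cycle moving `σ i` but fixing `i`
  obtain ⟨k, hk⟩ : ∃ k : Fin n, k ≠ i ∧ k ≠ σ i := by
    have : ∃ k, k ∉ ({i, σ i} : Finset (Fin n)) := by
      by_contra hcon
      push Not at hcon
      have h1 : (Finset.univ : Finset (Fin n)).card ≤ ({i, σ i} : Finset (Fin n)).card :=
        Finset.card_le_card fun x _ => hcon x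
      have h2 : ({i, σ i} : Finset (Fin n)).card ≤ 2 := Finset.card_le_two
      simp at h1
      omega
    obtain ⟨k, hk⟩ := this
    simp only [Finset.mem_insert, Finset.mem_singleton, not_or] at hk
    exact ⟨k, hk⟩
  obtain ⟨l, hl⟩ : ∃ l : Fin n, l ≠ i ∧ l ≠ σ i ∧ l ≠ k := by
    have : ∃ l, l ∉ ({i, σ i, k} : Finset (Fin n)) := by
      by_contra hcon
      push Not at hcon
      have h1 : (Finset.univ : Finset (Fin n)).card ≤ ({i, σ i, k} : Finset (Fin n)).card :=
        Finset.card_le_card fun x _ => hcon x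
      have h2 : ({i, σ i, k} : Finset (Fin n)).card ≤ 3 := Finset.card_le_three
      simp at h1
      omega
    obtain ⟨l, hl⟩ := this
    simp only [Finset.mem_insert, Finset.mem_singleton, not_or] at hl
    exact ⟨l, hl⟩
  let c : Perm (Fin n) := swap (σ i) k * swap (σ i) l
  have hc : c.IsThreeCycle :=
    Equiv.Perm.isThreeCycle_swap_mul_swap_same hk.2.symm hl.2.1.symm hl.2.2.symm
  have h1 := h ⟨c, hc.mem_alternatingGroup⟩
  have h2 : σ * c = c * σ := by
    have := congrArg (· * σ) h1
    simpa [mul_assoc] using this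
  have h3 := congrArg (fun f : Perm (Fin n) => f i) h2
  simp only [Perm.coe_mul, Function.comp_apply] at h3
  have h4 : c i = i := by
    change swap (σ i) k (swap (σ i) l i) = i
    rw [swap_apply_of_ne_of_ne hi.symm hl.1.symm, swap_apply_of_ne_of_ne hi.symm hk.1.symm]
  rw [h4] at h3
  have h5 : c (σ i) = l := by
    change swap (σ i) k (swap (σ i) l (σ i)) = l
    rw [swap_apply_left, swap_apply_of_ne_of_ne hl.2.1 hl.2.2]
  rw [h5] at h3
  exact hl.2.1 h3.symm

end alt

end Pool.Agent.Work.MP_bc729a_al
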