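import Mathlib

open scoped Pointwise
open Equiv

namespace Pool.Agent.Work.MP_bc729a_al

universe u v

/-- every maximal subgroup has a complement -/
def MaxCompl (G : Type u) [Group G] : Prop :=
  ∀ M : Subgroup G, IsCoatom M → ∃ K : Subgroup G, M.IsComplement' K

/-- distinct conjugates of `A` commute elementwise -/
def ConjComm {G : Type u} [Group G] (A : Subgroup G) : Prop :=
  ∀ g : G, MulAut.conj g • A = A ∨ ∀ x ∈ A, ∀ y ∈ MulAut.conj g • A, x * y = y * x

/-- `s` is a composition series of `G` -/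
def IsCompSeries {G : Type u} [Group G] {m : ℕ} (s : Fin (m + 1) → Subgroup G) : Prop :=
  s 0 = ⊥ ∧ s (Fin.last m) = ⊤ ∧ ∀ i : Fin m, s i.castSucc ≤ s i.succ ∧
    ∃ _ : ((s i.castSucc).subgroupOf (s i.succ)).Normal,
      IsSimpleGroup (↥(s i.succ) ⧸ (s i.castSucc).subgroupOf (s i.succ))

/-- `S` is (isomorphic to) a composition factor of `G` -/
def IsCompFactor (S : Type v) [Group S] (G : Type u) [Group G] : Prop :=
  ∃ (m : ℕ) (s : Fin (m + 1) → Subgroup G), IsCompSeries s ∧
    ∃ (i : Fin m) (_ : ((s i.castSucc).subgroupOf (s i.succ)).Normal),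
      Nonempty ((↥(s i.succ) ⧸ (s i.castSucc).subgroupOf (s i.succ)) ≃* S)

end Pool.Agent.Work.MP_bc729a_al
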