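import Mathlib
import Pool.Agent.Work.MP_bc729a_al.Defs

/-!
# Conjugates of a subgroup whose distinct conjugates commute: common tools
-/

open scoped Pointwise

namespace Pool.Agent.Work.MP_bc729a_al

namespace EY

universe u

variable {G : Type u} [Group G]

/-- conjugate of a subgroup -/
abbrev cj (g : G) (B : Subgroup G) : Subgroup G := MulAut.conj g • B

theorem cj_one (B : Subgroup G) : cj 1 B = B := by simp [cj]

theorem cj_mul (g h : G) (B : Subgroup G) : cj (g * h) B = cj g (cj h B) := by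
  simp [cj, mul_smul]

theorem mem_cj {g x : G} {B : Subgroup G} : x ∈ cj g B ↔ g⁻¹ * x * g ∈ B := by
  rw [cj, Subgroup.mem_pointwise_smul_iff_inv_smul_mem]
  simp [← map_inv, MulAut.smul_def, MulAut.conj_apply]

theorem conj_mem_cj {g x : G} {B : Subgroup G} (h : x ∈ B) : g * x * g⁻¹ ∈ cj g B := by
  rw [mem_cj]
  simpa [mul_assoc] using h

theorem cj_inf (g : G) (B C : Subgroup G) : cj g (B ⊓ C) = cj g B ⊓ cj g C := by
  ext x
  simp only [Subgroup.mem_inf, mem_cj]

theorem cj_mono {g : G} {B C : Subgroup G} (h : B ≤ C) : cj g B ≤ cj g C := by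
  intro x hx
  rw [mem_cj] at hx ⊢
  exact h hx

theorem cj_of_mem {g : G} {B : Subgroup G} (h : g ∈ B) : cj g B = B := by
  ext x
  rw [mem_cj]
  constructor
  · intro hx
    have := B.mul_mem (B.mul_mem h hx) (B.inv_mem h)
    simpa [mul_assoc] using this
  · intro hx
    exact B.mul_mem (B.mul_mem (B.inv_mem h) hx) h

theorem cj_inv_cj (g : G) (B : Subgroup G) : cj g⁻¹ (cj g B) = B := by
  rw [← cj_mul, inv_mul_cancel, cj_one]

theorem cj_cj_inv (g : G) (B : Subgroup G) : cj g (cj g⁻¹ B) = B := by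
  rw [← cj_mul, mul_inv_cancel, cj_one]

theorem cj_eq_of_agree {g h : G} {C : Subgroup G}
    (H : ∀ x ∈ C, g * x * g⁻¹ = h * x * h⁻¹) : cj g C = cj h C := by
  apply le_antisymm
  · intro x hx
    rw [mem_cj] at hx
    have h1 := H _ hx
    have h2 := conj_mem_cj (g := h) hx
    rw [← h1] at h2
    simpa [mul_assoc] using h2
  · intro x hx
    rw [mem_cj] at hx
    have h1 := H _ hx
    have h2 := conj_mem_cj (g := g) hx
    rw [h1] at h2
    simpa [mul_assoc] using h2

theorem cj_eq_of_comm {g : G} {C : Subgroup G} (H : ∀ x ∈ C, g * x = x * g) : cj g C = C := by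
  have : cj g C = cj 1 C := cj_eq_of_agree (by
    intro x hx
    rw [H x hx]
    simp)
  rw [this, cj_one]

/-- `B` is a conjugate of `A` -/
def IsC (A B : Subgroup G) : Prop := ∃ g : G, cj g A = B

theorem isC_self (A : Subgroup G) : IsC A A := ⟨1, cj_one A⟩

theorem IsC.cj {A B : Subgroup G} (h : IsC A B) (g : G) : IsC A (EY.cj g B) := by
  obtain ⟨k, rfl⟩ := h
  exact ⟨g * k, cj_mul g k A⟩

theorem comm_of_ne {A B C : Subgroup G} (hA : ConjComm A) (hB : IsC A B) (hC : IsC A C)
    (hne : B ≠ C) : ∀ x ∈ B, ∀ y ∈ C, x * y = y * x := by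
  obtain ⟨g, rfl⟩ := hB
  obtain ⟨h, rfl⟩ := hC
  rcases hA (g⁻¹ * h) with h1 | h1
  · exfalso
    apply hne
    have : cj (g⁻¹ * h) A = A := h1
    rw [cj_mul] at this
    calc cj g A = cj g (cj g⁻¹ (cj h A)) := by rw [this]
      _ = cj h A := cj_cj_inv _ _
  · intro x hx y hy
    have hx' : g⁻¹ * x * g ∈ A := mem_cj.1 hx
    have hy' : g⁻¹ * y * g ∈ cj (g⁻¹ * h) A := by
      rw [mem_cj]
      have := mem_cj.1 hy
      simpa [mul_assoc] using this
    have := h1 _ hx' _ hy'
    have h2 : g⁻¹ * (x * y) * g = g⁻¹ * (y * x) * g := by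
      calc g⁻¹ * (x * y) * g = (g⁻¹ * x * g) * (g⁻¹ * y * g) := by group
        _ = (g⁻¹ * y * g) * (g⁻¹ * x * g) := this
        _ = g⁻¹ * (y * x) * g := by group
    exact mul_left_cancel (mul_right_cancel h2)

/-- the elements acting on every conjugate of `A` as an inner automorphism -/
def inn (A : Subgroup G) : Subgroup G where
  carrier := {l | ∀ B, IsC A B → ∃ b ∈ B, ∀ x ∈ B, l * x * l⁻¹ = b * x * b⁻¹}
  mul_mem' := by
    intro l1 l2 h1 h2 B hB
    obtain ⟨b1, hb1, e1⟩ := h1 B hB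
    obtain ⟨b2, hb2, e2⟩ := h2 B hB
    refine ⟨b1 * b2, B.mul_mem hb1 hb2, fun x hx => ?_⟩
    calc l1 * l2 * x * (l1 * l2)⁻¹ = l1 * (l2 * x * l2⁻¹) * l1⁻¹ := by group
      _ = l1 * (b2 * x * b2⁻¹) * l1⁻¹ := by rw [e2 x hx]
      _ = b1 * (b2 * x * b2⁻¹) * b1⁻¹ :=
          e1 _ (B.mul_mem (B.mul_mem hb2 hx) (B.inv_mem hb2))
      _ = b1 * b2 * x * (b1 * b2)⁻¹ := by group
  one_mem' := by
    intro B _
    exact ⟨1, B.one_mem, fun x _ => rfl⟩
  inv_mem' := by
    intro l h B hB
    obtain ⟨b, hb, e⟩ := h B hB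
    refine ⟨b⁻¹, B.inv_mem hb, fun x hx => ?_⟩
    have h1 := e (b⁻¹ * x * b) (B.mul_mem (B.mul_mem (B.inv_mem hb) hx) hb)
    have h2 : b * (b⁻¹ * x * b) * b⁻¹ = x := by group
    rw [h2] at h1
    have h3 : l⁻¹ * x * l⁻¹⁻¹ = l⁻¹ * (l * (b⁻¹ * x * b) * l⁻¹) * l := by
      rw [h1, inv_inv]
    rw [h3]
    group

instance inn_normal (A : Subgroup G) : (inn A).Normal where
  conj_mem := by
    intro l hl g B hB
    obtain ⟨b, hb, e⟩ := hl (cj g⁻¹ B) (hB.cj g⁻¹)
    refine ⟨g * b * g⁻¹, ?_, fun x hx => ?_⟩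
    · have := mem_cj.1 hb
      simpa using this
    · have hx' : g⁻¹ * x * g ∈ cj g⁻¹ B := by
        have := conj_mem_cj (g := g⁻¹) hx
        simpa using this
      calc g * l * g⁻¹ * x * (g * l * g⁻¹)⁻¹ = g * (l * (g⁻¹ * x * g) * l⁻¹) * g⁻¹ := by group
        _ = g * (b * (g⁻¹ * x * g) * b⁻¹) * g⁻¹ := by rw [e _ hx']
        _ = g * b * g⁻¹ * x * (g * b * g⁻¹)⁻¹ := by group

theorem le_inn {A : Subgroup G} (hA : ConjComm A) : A ≤ inn A := by
  intro a ha B hB
  by_cases h : A = B
  · subst h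
    exact ⟨a, ha, fun x _ => rfl⟩
  · refine ⟨1, B.one_mem, fun x hx => ?_⟩
    rw [comm_of_ne hA (isC_self A) hB h a ha x hx]
    simp

theorem closure_le_inn {A : Subgroup G} (hA : ConjComm A) :
    Subgroup.normalClosure (A : Set G) ≤ inn A :=
  Subgroup.normalClosure_le_normal (le_inn hA)

theorem isC_le_closure {A B : Subgroup G} (hB : IsC A B) :
    B ≤ Subgroup.normalClosure (A : Set G) := by
  obtain ⟨g, rfl⟩ := hB
  intro x hx
  have h1 : g⁻¹ * x * g ∈ A := mem_cj.1 hx
  have h2 : g⁻¹ * x * g ∈ Subgroup.normalClosure (A : Set G) := Subgroup.subset_normalClosure h1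
  have h3 := (Subgroup.normalClosure_normal (s := (A : Set G))).conj_mem _ h2 g
  simpa [mul_assoc] using h3

/-- an element of `inn A` acts on subgroups of a conjugate `B` as an element of `B` -/
theorem inn_cj {A B : Subgroup G} {l : G} (hl : l ∈ inn A) (hB : IsC A B) :
    ∃ b ∈ B, ∀ C ≤ B, cj l C = cj b C := by
  obtain ⟨b, hb, e⟩ := hl B hB
  exact ⟨b, hb, fun C hC => cj_eq_of_agree fun x hx => e x (hC hx)⟩

theorem inn_fix {A B : Subgroup G} {l : G} (hl : l ∈ inn A) (hB : IsC A B) : cj l B = B := by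
  obtain ⟨b, hb, e⟩ := inn_cj hl hB
  rw [e B le_rfl, cj_of_mem hb]

/-- the key transport lemma -/
theorem transport [Finite G] {A : Subgroup G} (hA : ConjComm A) (φ ψ : Subgroup G → Subgroup G)
    (h : ∀ B, IsC A B → φ B ≤ B ∧ ∃ b ∈ B, cj b (φ B) = ψ B) :
    ∃ l ∈ Subgroup.normalClosure (A : Set G), ∀ B, IsC A B → cj l (φ B) = ψ B := by
  classical
  have : Finite (Subgroup G) := inferInstance
  have : Fintype (Subgroup G) := Fintype.ofFinite _
  have key : ∀ s : Finset (Subgroup G), ∃ l ∈ Subgroup.normalClosure (A : Set G),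
      (∀ B ∈ s, IsC A B → cj l (φ B) = ψ B) ∧
      (∀ B, B ∉ s → IsC A B → ∀ x ∈ B, l * x = x * l) := by
    intro s
    induction s using Finset.induction_on with
    | empty =>
      exact ⟨1, Subgroup.one_mem _, by simp, fun B _ _ x _ => by simp⟩
    | insert B₀ s hB₀ ih =>
      obtain ⟨l, hl, h1, h2⟩ := ih
      by_cases hC : IsC A B₀
      · obtain ⟨hφ, b, hb, hbe⟩ := h B₀ hC
        refine ⟨b * l, Subgroup.mul_mem _ (isC_le_closure hC hb) hl, ?_, ?_⟩
        · intro B hB hBC
          by_cases hBB : B = B₀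
          · subst hBB
            rw [cj_mul, cj_eq_of_comm (fun x hx => h2 B hB₀ hC x (hφ hx)), hbe]
          · have hBs : B ∈ s := by
              rcases Finset.mem_insert.1 hB with h' | h'
              · exact absurd h' hBB
              · exact h'
            rw [cj_mul, h1 B hBs hBC]
            apply cj_eq_of_comm
            intro x hx
            obtain ⟨hφB, c, hc, hce⟩ := h B hBC
            have hxB : x ∈ B := by
              rw [← hce] at hx
              have := cj_mono (g := c) hφB hx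
              rwa [cj_of_mem hc] at this
            exact comm_of_ne hA hC hBC (fun h => hBB h.symm) b hb x hxB
        · intro B hB hBC x hx
          have hBB : B₀ ≠ B := fun h' => hB (h' ▸ Finset.mem_insert_self _ _)
          have hBs : B ∉ s := fun h' => hB (Finset.mem_insert_of_mem h')
          have e1 := h2 B hBs hBC x hx
          have e2 := comm_of_ne hA hC hBC hBB b hb x hx
          calc b * l * x = b * (l * x) := by group
            _ = b * x * l := by rw [e1]; group
            _ = x * (b * l) := by rw [e2]; group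
      · refine ⟨l, hl, ?_, ?_⟩
        · intro B hB hBC
          have hBB : B ≠ B₀ := fun h' => hC (h' ▸ hBC)
          rcases Finset.mem_insert.1 hB with h' | h'
          · exact absurd h' hBB
          · exact h1 B h' hBC
        · intro B hB hBC
          exact h2 B (fun h' => hB (Finset.mem_insert_of_mem h')) hBC
  obtain ⟨l, hl, h1, -⟩ := key Finset.univ
  exact ⟨l, hl, fun B hB => h1 B (Finset.mem_univ _) hB⟩

end EY

end Pool.Agent.Work.MP_bc729a_al
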