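import Pool.Agent.Work.MP_bc729a_al.Defs

set_option autoImplicit false

open scoped Pointwise
open Equiv

namespace Pool.Agent.Work.MP_bc729a_al

universe u v

/-! Composition factors and subnormal subgroups. -/

theorem compFactor_subnormal {S : Type v} [Group S] {G : Type u} [Group G]
    (h : IsCompFactor S G) :
    ∃ K : Subgroup G, K.IsSubnormal ∧ ∃ f : K →* S, Function.Surjective f := by
  obtain ⟨m, s, ⟨-, htop, hs⟩, i, hn, ⟨e⟩⟩ := h
  have hsub : ∀ j : Fin (m + 1), (s j).IsSubnormal := by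
    intro j
    induction j using Fin.reverseInduction with
    | last => rw [htop]; exact Subgroup.IsSubnormal.top
    | cast j ih =>
      obtain ⟨hle, hN, -⟩ := hs j
      exact Subgroup.IsSubnormal.step _ _ hle ih hN
  refine ⟨s i.succ, hsub _, e.toMonoidHom.comp (QuotientGroup.mk' _), ?_⟩
  exact e.surjective.comp (QuotientGroup.mk'_surjective _)

lemma MaxCompl.quotient {G : Type u} [Group G] (hG : MaxCompl G) (L : Subgroup G) [L.Normal] :
    MaxCompl (G ⧸ L) := by
  intro M hM
  have hs : Function.Surjective (QuotientGroup.mk' L) := QuotientGroup.mk'_surjective L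
  obtain ⟨K, hK⟩ := hG (M.comap (QuotientGroup.mk' L)) (Subgroup.isCoatom_comap_of_surjective hs hM)
  refine ⟨K.map (QuotientGroup.mk' L), ?_⟩
  apply Subgroup.isComplement'_of_disjoint_and_mul_eq_univ
  · rw [Subgroup.disjoint_def]
    rintro x hx ⟨k, hk, rfl⟩
    have h1 : k ∈ M.comap (QuotientGroup.mk' L) := hx
    have h2 := (Subgroup.disjoint_def.1 hK.disjoint) h1 hk
    rw [h2, map_one]
  · rw [Set.eq_univ_iff_forall]
    intro x
    obtain ⟨g, rfl⟩ := hs x
    obtain ⟨⟨a, b⟩, hab⟩ := hK.2 g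
    have h3 : (a : G) * (b : G) = g := hab
    rw [← h3, map_mul]
    exact Set.mul_mem_mul a.2 ⟨b, b.2, rfl⟩

/-- two subgroups normalising each other with trivial intersection commute -/
lemma comm_of_disj {G : Type u} [Group G] {x y : G} {A B : Subgroup G} (h1 : x * y * x⁻¹ ∈ B)
    (h2 : y * x⁻¹ * y⁻¹ ∈ A) (hx : x ∈ A) (hy : y ∈ B) (h : A ⊓ B = ⊥) : x * y = y * x := by
  have h3 : x * y * x⁻¹ * y⁻¹ ∈ A ⊓ B := by
    refine ⟨?_, B.mul_mem h1 (B.inv_mem hy)⟩
    have : x * y * x⁻¹ * y⁻¹ = x * (y * x⁻¹ * y⁻¹) := by group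
    rw [this]
    exact A.mul_mem hx h2
  rw [h, Subgroup.mem_bot] at h3
  have h4 : x * y * x⁻¹ = y := by
    rw [mul_inv_eq_one] at h3
    exact h3
  rw [mul_inv_eq_iff_eq_mul] at h4
  exact h4

/-- The data of a minimal normal subgroup and a minimal subgroup normalised by it. -/
structure MinPair {G : Type u} [Group G] (L A : Subgroup G) : Prop where
  nL : L.Normal
  minL : ∀ N : Subgroup G, N.Normal → N ≠ ⊥ → N ≤ L → N = L
  neA : A ≠ ⊥
  leA : A ≤ L
  nA : L ≤ Subgroup.normalizer (A : Set G)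
  minA : ∀ B : Subgroup G, B ≠ ⊥ → B ≤ A → L ≤ Subgroup.normalizer (B : Set G) → B = A

lemma exists_minPair (G : Type u) [Group G] [Finite G] [Nontrivial G] :
    ∃ L A : Subgroup G, MinPair L A := by
  have hfin : Finite (Subgroup G) := inferInstance
  obtain ⟨L, hL⟩ := exists_minimal_of_wellFoundedLT (fun N : Subgroup G => N.Normal ∧ N ≠ ⊥)
    ⟨⊤, inferInstance, top_ne_bot⟩
  obtain ⟨A, hA⟩ := exists_minimal_of_wellFoundedLT
    (fun B : Subgroup G => B ≠ ⊥ ∧ B ≤ L ∧ L ≤ Subgroup.normalizer (B : Set G))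
    ⟨L, hL.prop.2, le_refl L, Subgroup.le_normalizer⟩
  refine ⟨L, A, hL.prop.1, ?_, hA.prop.1, hA.prop.2.1, hA.prop.2.2, ?_⟩
  · intro N hN hN0 hNL
    exact le_antisymm hNL (hL.le_of_le ⟨hN, hN0⟩ hNL)
  · intro B hB hBA hLB
    exact le_antisymm hBA (hA.le_of_le ⟨hB, hBA.trans hA.prop.2.1, hLB⟩ hBA)

namespace MinPair

variable {G : Type u} [Group G] {L A : Subgroup G}

lemma mem_conj_iff {g x : G} {B : Subgroup G} :
    x ∈ MulAut.conj g • B ↔ g⁻¹ * x * g ∈ B := by
  rw [Subgroup.mem_pointwise_smul_iff_inv_smul_mem]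
  simp [MulAut.smul_def, ← map_inv]

lemma norm_iff {x : G} {B : Subgroup G} (hx : x ∈ Subgroup.normalizer (B : Set G)) (n : G) :
    n ∈ B ↔ x * n * x⁻¹ ∈ B := hx n

lemma conj_le (h : MinPair L A) (g : G) : MulAut.conj g • A ≤ L := by
  intro x hx
  rw [mem_conj_iff] at hx
  have h1 := h.nL.conj_mem _ (h.leA hx) g
  have h2 : g * (g⁻¹ * x * g) * g⁻¹ = x := by group
  rwa [h2] at h1

lemma norm_conj (h : MinPair L A) (g : G) :
    L ≤ Subgroup.normalizer ((MulAut.conj g • A : Subgroup G) : Set G) := by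
  intro x hx n
  show n ∈ MulAut.conj g • A ↔ x * n * x⁻¹ ∈ MulAut.conj g • A
  rw [mem_conj_iff, mem_conj_iff]
  have h1 : g⁻¹ * x * g ∈ L := by
    have := h.nL.conj_mem x hx g⁻¹
    rwa [inv_inv] at this
  have h2 := norm_iff (h.nA h1) (g⁻¹ * n * g)
  have h3 : g⁻¹ * x * g * (g⁻¹ * n * g) * (g⁻¹ * x * g)⁻¹ = g⁻¹ * (x * n * x⁻¹) * g := by group
  rw [h3] at h2
  exact h2

lemma conjComm [Finite G] (h : MinPair L A) : ConjComm A := by
  intro g
  by_cases hB : A ⊓ MulAut.conj g • A = ⊥
  · right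
    intro x hx y hy
    have hxL := h.leA hx
    have hyL := h.conj_le g hy
    refine comm_of_disj (A := A) (B := MulAut.conj g • A)
      ((norm_iff (h.norm_conj g hxL) y).1 hy) ?_ hx hy hB
    exact (norm_iff (h.nA hyL) x⁻¹).1 (A.inv_mem hx)
  · left
    have h1 : A ⊓ MulAut.conj g • A = A := by
      apply h.minA _ hB inf_le_left
      intro x hx n
      show n ∈ A ⊓ MulAut.conj g • A ↔ x * n * x⁻¹ ∈ A ⊓ MulAut.conj g • A
      rw [Subgroup.mem_inf, Subgroup.mem_inf, ← norm_iff (h.nA hx) n,
        ← norm_iff (h.norm_conj g hx) n]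
    have h2 : A ≤ MulAut.conj g • A := by
      have h4 : A ⊓ MulAut.conj g • A ≤ MulAut.conj g • A := inf_le_right
      rwa [h1] at h4
    have h3 : Nat.card (MulAut.conj g • A : Subgroup G) = Nat.card A :=
      Nat.card_congr (Subgroup.equivSMul (MulAut.conj g) A).toEquiv.symm
    exact (Subgroup.eq_of_le_of_card_ge h2 h3.le).symm

lemma closure_eq (h : MinPair L A) :
    Subgroup.closure {x : G | ∃ g : G, x ∈ MulAut.conj g • A} = L := by
  have h1 : Subgroup.normalClosure (A : Set G) =
      Subgroup.closure {x : G | ∃ g : G, x ∈ MulAut.conj g • A} := by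
    rw [Subgroup.normalClosure]
    congr 1
    ext x
    simp only [Group.mem_conjugatesOfSet_iff, isConj_iff, Set.mem_ofPred_eq, mem_conj_iff]
    constructor
    · rintro ⟨a, ha, c, rfl⟩
      refine ⟨c, ?_⟩
      have : c⁻¹ * (c * a * c⁻¹) * c = a := by group
      rw [this]
      exact ha
    · rintro ⟨g, hg⟩
      exact ⟨_, hg, g, by group⟩
  rw [← h1]
  apply h.minL _ inferInstance
  · intro h2
    apply h.neA
    rw [eq_bot_iff, ← h2]
    exact Subgroup.le_normalClosure
  · have := h.nL
    exact Subgroup.normalClosure_le_normal h.leA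

lemma simple [Finite G] (h : MinPair L A) : IsSimpleGroup A := by
  have hnt : Nontrivial A := (Subgroup.nontrivial_iff_ne_bot A).2 h.neA
  refine ⟨fun B hB => ?_⟩
  by_cases hB0 : B = ⊥
  · exact Or.inl hB0
  · right
    have h1 : B.map A.subtype = A := by
      apply h.minA
      · intro h2
        exact hB0 ((Subgroup.map_eq_bot_iff_of_injective B A.subtype_injective).1 h2)
      · exact Subgroup.map_subtype_le B
      · rw [← h.closure_eq, Subgroup.closure_le]
        rintro x ⟨g, hg⟩
        rcases h.conjComm g with h3 | h3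
        · rw [h3] at hg
          intro n
          show n ∈ B.map A.subtype ↔ x * n * x⁻¹ ∈ B.map A.subtype
          constructor
          · rintro ⟨b, hb, rfl⟩
            exact ⟨⟨x, hg⟩ * b * ⟨x, hg⟩⁻¹, hB.conj_mem b hb ⟨x, hg⟩, rfl⟩
          · rintro ⟨b, hb, hb'⟩
            refine ⟨⟨x, hg⟩⁻¹ * b * ⟨x, hg⟩, ?_, ?_⟩
            · have := hB.conj_mem b hb ⟨x, hg⟩⁻¹
              rwa [inv_inv] at this
            · show x⁻¹ * (b : G) * x = n
              have h4 : (b : G) = x * n * x⁻¹ := hb'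
              rw [h4]
              group
        · have h4 : ∀ y ∈ A, x * y * x⁻¹ = y := by
            intro y hy
            rw [mul_inv_eq_iff_eq_mul]
            exact (h3 y hy x hg).symm
          intro n
          show n ∈ B.map A.subtype ↔ x * n * x⁻¹ ∈ B.map A.subtype
          constructor
          · rintro ⟨b, hb, rfl⟩
            refine ⟨b, hb, ?_⟩
            exact (h4 b b.2).symm
          · rintro ⟨b, hb, hb'⟩
            refine ⟨b, hb, ?_⟩
            have h5 : (b : G) = x * n * x⁻¹ := hb'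
            have h6 := h4 b b.2
            show (b : G) = n
            have h7 : x * (b : G) * x⁻¹ = x * n * x⁻¹ := by rw [h6, h5]
            exact mul_left_cancel (mul_right_cancel h7)
    rw [eq_top_iff]
    intro a _
    have h2 : (a : G) ∈ B.map A.subtype := by
      rw [h1]
      exact a.2
    obtain ⟨b, hb, hb'⟩ := h2
    have h3 : b = a := Subtype.ext hb'
    rw [← h3]
    exact hb

lemma inf_dich [Finite G] (h : MinPair L A) (g : G) {N : Subgroup G} (hN : N.IsSubnormal) :
    (MulAut.conj g • A) ⊓ N = ⊥ ∨ MulAut.conj g • A ≤ N := by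
  have hs : IsSimpleGroup (MulAut.conj g • A : Subgroup G) := by
    have := h.simple
    exact (Subgroup.equivSMul (MulAut.conj g) A).symm.isSimpleGroup
  have h1 : (N.subgroupOf (MulAut.conj g • A)).IsSubnormal := hN.subgroupOf
  rcases h1.eq_bot_or_top_of_isSimpleGroup hs with h2 | h2
  · left
    rw [Subgroup.subgroupOf_eq_bot] at h2
    rw [inf_comm]
    exact disjoint_iff.1 h2
  · right
    exact Subgroup.subgroupOf_eq_top.1 h2

/-- conjugates of `A` meeting a subnormal subgroup trivially centralise its part in `L` -/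
lemma comm_of_subnormal [Finite G] (h : MinPair L A) (g : G) {N : Subgroup G}
    (hN : N.IsSubnormal) (hd : (MulAut.conj g • A) ⊓ N = ⊥) :
    ∀ x ∈ MulAut.conj g • A, ∀ y ∈ N, y ∈ L → x * y = y * x := by
  induction hN with
  | top =>
    intro x hx y _ _
    have : x ∈ MulAut.conj g • A ⊓ ⊤ := ⟨hx, trivial⟩
    rw [hd, Subgroup.mem_bot] at this
    rw [this, one_mul, mul_one]
  | step N N1 hle hsub hnorm ih =>
    rcases h.inf_dich g hsub with h1 | h1
    · intro x hx y hy hyL
      exact ih h1 x hx y (hle hy) hyL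
    · intro x hx y hy hyL
      refine comm_of_disj (A := MulAut.conj g • A) (B := N) ?_ ?_ hx hy hd
      · have h2 := hnorm.conj_mem ⟨y, hle hy⟩ hy ⟨x, h1 hx⟩
        exact h2
      · exact (norm_iff (h.norm_conj g hyL) x⁻¹).1 ((MulAut.conj g • A).inv_mem hx)

end MinPair

open MinPair in
/-- the main case: the surjection does not vanish on the minimal normal subgroup -/
lemma iso_of_minPair {S : Type v} [Group S] [IsSimpleGroup S] (hS : ∃ x y : S, x * y ≠ y * x)
    {G : Type u} [Group G] [Finite G] {L A : Subgroup G} (h : MinPair L A) {K : Subgroup G}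
    (hK : K.IsSubnormal) (hKL : K ≤ L) (f : K →* S) (hf : Function.Surjective f) :
    Nonempty (A ≃* S) := by
  by_cases hex : ∃ g : G, ∃ hle : MulAut.conj g • A ≤ K, ∃ x : (MulAut.conj g • A : Subgroup G),
      f ⟨x, hle x.2⟩ ≠ 1
  · obtain ⟨g, hle, x, hx⟩ := hex
    set f1 : (MulAut.conj g • A : Subgroup G) →* S := f.comp (Subgroup.inclusion hle) with hf1
    have hs : IsSimpleGroup (MulAut.conj g • A : Subgroup G) := by
      have := h.simple
      exact (Subgroup.equivSMul (MulAut.conj g) A).symm.isSimpleGroup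
    have hx1 : f1 x ≠ 1 := hx
    have hker : f1.ker = ⊥ := by
      rcases (inferInstance : f1.ker.Normal).eq_bot_or_eq_top with h1 | h1
      · exact h1
      · exfalso
        apply hx1
        rw [← MonoidHom.mem_ker, h1]
        trivial
    have hrn : f1.range.Normal := by
      refine ⟨?_⟩
      rintro _ ⟨a, rfl⟩ s
      obtain ⟨k, rfl⟩ := hf s
      have h1 : (k : G) * (a : G) * (k : G)⁻¹ ∈ MulAut.conj g • A :=
        (norm_iff (h.norm_conj g (hKL k.2)) a).1 a.2
      refine ⟨⟨_, h1⟩, ?_⟩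
      show f ⟨(k : G) * (a : G) * (k : G)⁻¹, _⟩ = f k * f ⟨a, _⟩ * (f k)⁻¹
      rw [← map_mul, ← map_inv, ← map_mul]
      rfl
    have hr : f1.range = ⊤ := by
      rcases hrn.eq_bot_or_eq_top with h1 | h1
      · exfalso
        apply hx1
        have : f1 x ∈ f1.range := ⟨x, rfl⟩
        rw [h1, Subgroup.mem_bot] at this
        exact this
      · exact h1
    have hbij : Function.Bijective f1 :=
      ⟨(MonoidHom.ker_eq_bot_iff f1).1 hker, MonoidHom.range_eq_top.1 hr⟩
    exact ⟨(Subgroup.equivSMul (MulAut.conj g) A).trans (MulEquiv.ofBijective f1 hbij)⟩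
  · exfalso
    push Not at hex
    have key : ∀ l ∈ L, (∀ y (hy : y ∈ K), ∃ hc : l * y * l⁻¹ ∈ K, f ⟨_, hc⟩ = f ⟨y, hy⟩) ∧
        (∀ y (hy : y ∈ K), ∃ hc : l⁻¹ * y * l ∈ K, f ⟨_, hc⟩ = f ⟨y, hy⟩) := by
      intro l hl
      rw [← h.closure_eq] at hl
      induction hl using Subgroup.closure_induction with
      | mem x hx =>
        obtain ⟨g, hg⟩ := hx
        have hgen : ∀ x ∈ MulAut.conj g • A, ∀ y (hy : y ∈ K),
            ∃ hc : x * y * x⁻¹ ∈ K, f ⟨_, hc⟩ = f ⟨y, hy⟩ := by
          intro x hx y hy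
          rcases h.inf_dich g hK with h1 | h1
          · have h2 := h.comm_of_subnormal g hK h1 x hx y hy (hKL hy)
            have h3 : x * y * x⁻¹ = y := by
              rw [mul_inv_eq_iff_eq_mul]
              exact h2
            refine ⟨by rw [h3]; exact hy, ?_⟩
            congr 1
            exact Subtype.ext h3
          · have hxK := h1 hx
            refine ⟨K.mul_mem (K.mul_mem hxK hy) (K.inv_mem hxK), ?_⟩
            have h2 := hex g h1 ⟨x, hx⟩
            have h3 : f ⟨x * y * x⁻¹, K.mul_mem (K.mul_mem hxK hy) (K.inv_mem hxK)⟩ =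
                f ⟨x, hxK⟩ * f ⟨y, hy⟩ * (f ⟨x, hxK⟩)⁻¹ := by
              rw [← map_mul, ← map_inv, ← map_mul]
              rfl
            rw [h3]
            have h4 : f ⟨x, hxK⟩ = 1 := h2
            rw [h4, one_mul, inv_one, mul_one]
        refine ⟨hgen x hg, ?_⟩
        intro y hy
        have h5 := hgen x⁻¹ ((MulAut.conj g • A).inv_mem hg) y hy
        simpa using h5
      | one =>
        constructor
        · intro y hy
          simp
          exact hy
        · intro y hy
          simp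
          exact hy
      | mul a b _ _ ha hb =>
        constructor
        · intro y hy
          obtain ⟨h1, h2⟩ := hb.1 y hy
          obtain ⟨h3, h4⟩ := ha.1 _ h1
          have h5 : a * b * y * (a * b)⁻¹ = a * (b * y * b⁻¹) * a⁻¹ := by group
          refine ⟨by rw [h5]; exact h3, ?_⟩
          rw [← h2, ← h4]
          congr 1
          exact Subtype.ext h5
        · intro y hy
          obtain ⟨h1, h2⟩ := ha.2 y hy
          obtain ⟨h3, h4⟩ := hb.2 _ h1
          have h5 : (a * b)⁻¹ * y * (a * b) = b⁻¹ * (a⁻¹ * y * a) * b := by group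
          refine ⟨by rw [h5]; exact h3, ?_⟩
          rw [← h2, ← h4]
          congr 1
          exact Subtype.ext h5
      | inv a _ ha =>
        refine ⟨?_, ?_⟩
        · intro y hy
          have := ha.2 y hy
          simpa using this
        · intro y hy
          have := ha.1 y hy
          simpa using this
    obtain ⟨x, y, hxy⟩ := hS
    obtain ⟨a, rfl⟩ := hf x
    obtain ⟨b, rfl⟩ := hf y
    obtain ⟨h1, h2⟩ := (key a (hKL a.2)).1 b b.2
    apply hxy
    have h3 : f a * f b * (f a)⁻¹ = f b := by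
      rw [← map_mul, ← map_inv, ← map_mul]
      exact h2
    rw [mul_inv_eq_iff_eq_mul] at h3
    exact h3

theorem reduction (S : Type v) [Group S] [IsSimpleGroup S] (hS : ∃ x y : S, x * y ≠ y * x)
    (G : Type u) [Group G] [Finite G] (hG : MaxCompl G) (K : Subgroup G) (hK : K.IsSubnormal)
    (f : K →* S) (hf : Function.Surjective f) :
    ∃ (Q : Type u) (_ : Group Q) (_ : Finite Q), MaxCompl Q ∧
      ∃ A : Subgroup Q, Nonempty (A ≃* S) ∧ ConjComm A := by
  suffices H : ∀ n : ℕ, ∀ (G : Type u) [Group G] [Finite G], Nat.card G = n → MaxCompl G →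
      ∀ (K : Subgroup G), K.IsSubnormal → ∀ f : K →* S, Function.Surjective f →
      ∃ (Q : Type u) (_ : Group Q) (_ : Finite Q), MaxCompl Q ∧
      ∃ A : Subgroup Q, Nonempty (A ≃* S) ∧ ConjComm A from H _ G rfl hG K hK f hf
  intro n
  induction n using Nat.strong_induction_on with
  | _ n ih =>
    intro G _ _ hn hG K hK f hf
    have hnt : Nontrivial G := by
      obtain ⟨x, y, hxy⟩ := hS
      obtain ⟨a, rfl⟩ := hf x
      obtain ⟨b, rfl⟩ := hf y
      refine ⟨(a : G), (b : G), fun hab => hxy ?_⟩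
      rw [Subtype.ext hab]
    obtain ⟨L, A, h⟩ := exists_minPair G
    have hLn : L.Normal := h.nL
    by_cases hc : ∀ x : K, (x : G) ∈ L → f x = 1
    · -- pass to the quotient
      set φ : K →* K.map (QuotientGroup.mk' L) := (QuotientGroup.mk' L).subgroupMap K with hφ
      have hφs : Function.Surjective φ := (QuotientGroup.mk' L).subgroupMap_surjective K
      have hker : φ.ker ≤ f.ker := by
        intro x hx
        rw [MonoidHom.mem_ker] at hx ⊢
        apply hc
        have h1 : QuotientGroup.mk' L (x : G) = 1 := congrArg Subtype.val hx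
        exact (QuotientGroup.eq_one_iff _).1 h1
      set f' := φ.liftOfSurjective hφs ⟨f, hker⟩ with hf'
      have hf's : Function.Surjective f' := by
        intro s
        obtain ⟨k, rfl⟩ := hf s
        exact ⟨φ k, MonoidHom.liftOfRightInverse_comp_apply φ _ _ ⟨f, hker⟩ k⟩
      have hLc : 1 < Nat.card L := by
        have : Nontrivial L := (Subgroup.nontrivial_iff_ne_bot L).2 (fun h0 => h.neA
          (le_bot_iff.1 (h0 ▸ h.leA)))
        exact Finite.one_lt_card
      have hlt : Nat.card (G ⧸ L) < n := by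
        have h1 : Nat.card G = Nat.card (G ⧸ L) * Nat.card L :=
          Subgroup.card_eq_card_quotient_mul_card_subgroup L
        have h2 : 0 < Nat.card (G ⧸ L) := Nat.card_pos
        nlinarith
      exact ih _ hlt (G ⧸ L) rfl (hG.quotient L) _ hK.quotient f' hf's
    · push Not at hc
      obtain ⟨x, hxL, hx1⟩ := hc
      have hLs : L.IsSubnormal := hLn.isSubnormal
      have hKL : (K ⊓ L).IsSubnormal := hK.inf hLs
      set f1 : (K ⊓ L : Subgroup G) →* S := f.comp (Subgroup.inclusion inf_le_left) with hf1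
      have hrn : f1.range.Normal := by
        refine ⟨?_⟩
        rintro _ ⟨a, rfl⟩ s
        obtain ⟨k, rfl⟩ := hf s
        have h1 : (k : G) * (a : G) * (k : G)⁻¹ ∈ K ⊓ L :=
          ⟨K.mul_mem (K.mul_mem k.2 a.2.1) (K.inv_mem k.2), hLn.conj_mem _ a.2.2 _⟩
        refine ⟨⟨_, h1⟩, ?_⟩
        show f ⟨(k : G) * (a : G) * (k : G)⁻¹, _⟩ = f k * f ⟨a, _⟩ * (f k)⁻¹
        rw [← map_mul, ← map_inv, ← map_mul]
        rfl
      have hr : f1.range = ⊤ := by
        rcases hrn.eq_bot_or_eq_top with h1 | h1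
        · exfalso
          apply hx1
          have : f1 ⟨x, x.2, hxL⟩ ∈ f1.range := ⟨_, rfl⟩
          rw [h1, Subgroup.mem_bot] at this
          exact this
        · exact h1
      have h2 := iso_of_minPair hS h hKL inf_le_right f1 (MonoidHom.range_eq_top.1 hr)
      exact ⟨G, inferInstance, inferInstance, hG, A, h2, h.conjComm⟩

end Pool.Agent.Work.MP_bc729a_al
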