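import Pool.Agent.Work.MP_bc729a_al.SixGroup

open scoped Pointwise
open Equiv

namespace Pool.Agent.Work.MP_bc729a_al

universe u v

section six

variable {Q : Type u} [Group Q] [Finite Q] {A : Subgroup Q}
  (e : A ≃* alternatingGroup (Fin 6))

omit [Finite Q] in
lemma rel_of_odd {y : Q} (hodd : Odd (orderOf y)) (h : MulAut.conj y • A = A) :
    ∃ σ, Rel e y σ := by
  obtain ⟨m, hm⟩ := hodd
  have hz : y ^ (m + 1) * y ^ (m + 1) = y := by
    rw [← pow_add, show m + 1 + (m + 1) = (2 * m + 1) + 1 by ring, pow_succ, ← hm,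
      pow_orderOf_eq_one, one_mul]
  have hzA : MulAut.conj (y ^ (m + 1)) • A = A := by
    have : ∀ k : ℕ, MulAut.conj (y ^ k) • A = A := by
      intro k
      induction k with
      | zero => simp
      | succ k ih => rw [pow_succ, map_mul, mul_smul, h, ih]
    exact this _
  obtain ⟨σ, hσ⟩ := conj_of_threeCycle (by norm_num) (autOf e y h) (fun x hx => by
    have h1 := threeCycle_six (autOf e _ hzA) x hx
    have h2 : autOf e y h x = autOf e _ hzA (autOf e _ hzA x) := by
      obtain ⟨w, rfl⟩ := e.surjective x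
      rw [autOf_apply, autOf_apply, autOf_apply]
      congr 1
      apply Subtype.ext
      change y * w * y⁻¹ =
        y ^ (m + 1) * (y ^ (m + 1) * w * (y ^ (m + 1))⁻¹) * (y ^ (m + 1))⁻¹
      generalize y ^ (m + 1) = z at hz
      subst hz
      simp [mul_assoc]
    rwa [h2])
  exact ⟨σ, (rel_iff e h σ).2 hσ⟩

include e in
theorem six_case (hQ : MaxCompl Q) (hA : ConjComm A) : False := by
  haveI := alt_six_simple
  haveI : Fact (Nat.Prime 2) := ⟨Nat.prime_two⟩
  let P : Sylow 2 (alternatingGroup (Fin 6)) := default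
  have hfac : Nat.factorization 360 2 = 3 := by
    rw [show (360 : ℕ) = 2 ^ 3 * 45 by norm_num, Nat.factorization_mul (by norm_num) (by norm_num),
      Nat.Prime.factorization_pow Nat.prime_two]
    simp [Nat.factorization_eq_zero_of_not_dvd]
  have hPcard : Nat.card (P : Subgroup (alternatingGroup (Fin 6))) = 8 := by
    have := Sylow.card_eq_multiplicity P
    rw [card_alt_six, hfac] at this
    exact this
  have hNN : ∀ B : Subgroup (alternatingGroup (Fin 6)),
      (P : Subgroup (alternatingGroup (Fin 6))) ≤ B → B ≠ ⊤ →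
      ∃ a ∈ A, MulAut.conj a • lift e B ≠ lift e B := by
    intro B hPB hB
    by_contra hcon
    push Not at hcon
    have hN : B.Normal := by
      constructor
      intro x hx g
      have h1 := hcon (e.symm g) (e.symm g).2
      rw [conj_smul_lift_mem e (e.symm g).2] at h1
      have h2 := lift_injective e h1
      have h3 : (e ⟨((e.symm g : A) : Q), (e.symm g).2⟩) = g := by simp
      rw [h3] at h2
      rw [← h2, mem_conj_smul]
      simpa [mul_assoc] using hx
    rcases hN.eq_bot_or_eq_top with h | h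
    · rw [h, le_bot_iff] at hPB
      rw [hPB, Subgroup.card_bot] at hPcard
      omega
    · exact hB h
  have hPtop : (P : Subgroup (alternatingGroup (Fin 6))) ≠ ⊤ := by
    intro h
    rw [h, Subgroup.card_top, card_alt_six] at hPcard
    omega
  have hinv : ∀ g : Q, MulAut.conj g • A = A → ∃ a ∈ A,
      MulAut.conj g • lift e (P : Subgroup (alternatingGroup (Fin 6))) =
        MulAut.conj a • lift e (P : Subgroup (alternatingGroup (Fin 6))) := by
    intro g hg
    rw [conj_smul_lift e g hg]
    let α : MulAut (alternatingGroup (Fin 6)) := autOf e g hg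
    obtain ⟨b, hb⟩ := MulAction.exists_smul_eq (alternatingGroup (Fin 6)) P (α • P)
    refine ⟨e.symm b, (e.symm b).2, ?_⟩
    rw [conj_smul_lift_mem e (e.symm b).2]
    have h3 : (e ⟨((e.symm b : A) : Q), (e.symm b).2⟩) = b := by simp
    rw [h3]
    congr 1
    have h4 := congrArg (fun R : Sylow 2 (alternatingGroup (Fin 6)) =>
      (R : Subgroup (alternatingGroup (Fin 6)))) hb
    exact h4.symm
  obtain ⟨M, hM, hAM, hHM⟩ := exists_max A (lift e P) hA (lift_le e _) (hNN _ le_rfl hPtop) hinv
  obtain ⟨K, hK⟩ := hQ M hM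
  obtain ⟨B, hB⟩ := exists_lift e (M ⊓ A) inf_le_right
  have hPB : (P : Subgroup (alternatingGroup (Fin 6))) ≤ B := by
    rw [← lift_mono e, ← hB]
    exact le_inf hHM (lift_le e _)
  have hBtop : B ≠ ⊤ := by
    rintro rfl
    apply hAM
    rw [lift_top] at hB
    rw [← hB]
    exact inf_le_left
  have hnn : ∃ a ∈ A, MulAut.conj a • (M ⊓ A) ≠ M ⊓ A := by
    rw [hB]; exact hNN B hPB hBtop
  have h8 : 8 ∣ Nat.card B := by
    rw [← hPcard]; exact Subgroup.card_dvd_of_le hPB
  obtain ⟨h15, h2⟩ := index_six B h8 hBtop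
  have hrel : M.relIndex A = B.index := by
    rw [← Subgroup.inf_relIndex_right, hB, relIndex_lift]
  have hKodd : ¬ 2 ∣ Nat.card K := by
    intro h
    have h4 := prime_dvd A hA M K hM hAM hnn hK 2 Nat.prime_two h
    rw [hrel] at h4
    exact h2 h4
  have hTodd : ¬ 2 ∣ Nat.card (indT e K) := fun h =>
    hKodd (prime_dvd_indT e (by norm_num) K 2 Nat.prime_two h)
  have hKodd' : Odd (Nat.card K) := by
    rwa [← Nat.not_even_iff_odd, even_iff_two_dvd]
  have hTodd' : Odd (Nat.card (indT e K)) := by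
    rwa [← Nat.not_even_iff_odd, even_iff_two_dvd]
  have hTalt : indT e K ≤ alternatingGroup (Fin 6) := by
    intro σ hσ
    rw [Equiv.Perm.mem_alternatingGroup]
    have h1 : Odd (orderOf σ) := by
      refine Odd.of_dvd_nat hTodd' ?_
      have : orderOf (⟨σ, hσ⟩ : indT e K) = orderOf σ := by rw [← Subgroup.orderOf_coe]
      rw [← this]
      exact orderOf_dvd_natCard _
    have h3 : Perm.sign σ ^ orderOf σ = 1 := by rw [← map_pow, pow_orderOf_eq_one, map_one]
    rcases Int.units_eq_one_or (Perm.sign σ) with h | h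
    · exact h
    · rw [h, h1.neg_one_pow] at h3
      exact absurd h3 (by decide)
  let T' : Subgroup (alternatingGroup (Fin 6)) :=
    (indT e K).subgroupOf (alternatingGroup (Fin 6))
  have hT'card : Nat.card T' = Nat.card (indT e K) :=
    Nat.card_congr (Subgroup.subgroupOfEquivOfLe hTalt).toEquiv
  have htrans : ∀ b : alternatingGroup (Fin 6), ∃ t ∈ T', t⁻¹ * b ∈ B := by
    intro b
    obtain ⟨y, hy, hyA, hyM⟩ := compl_transitive A hA M K hM hAM hnn hK
      (e.symm b) (e.symm b).2
    have hyodd : Odd (orderOf y) := by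
      refine Odd.of_dvd_nat hKodd' ?_
      have : orderOf (⟨y, hy⟩ : K) = orderOf y := by rw [← Subgroup.orderOf_coe]
      rw [← this]
      exact orderOf_dvd_natCard _
    obtain ⟨σ, hR⟩ := rel_of_odd e hyodd hyA
    have hσT : σ ∈ indT e K := ⟨y, hy, hR⟩
    let t : alternatingGroup (Fin 6) := ⟨σ, hTalt hσT⟩
    refine ⟨t, hσT, ?_⟩
    have h5 : (e ⟨((e.symm b : A) : Q), (e.symm b).2⟩) = b := by simp
    have h6a : ∀ x : alternatingGroup (Fin 6), autOf e y hyA x = t * x * t⁻¹ := by
      intro x
      apply Subtype.ext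
      rw [(rel_iff e hyA σ).1 hR x]
      rfl
    have h6 : B.map (autOf e y hyA).toMonoidHom = MulAut.conj t • B := by
      ext x
      rw [mem_conj_smul, Subgroup.mem_map]
      constructor
      · rintro ⟨w, hw, rfl⟩
        change t⁻¹ * (autOf e y hyA w) * t ∈ B
        rw [h6a]
        simpa [mul_assoc] using hw
      · intro hx
        refine ⟨_, hx, ?_⟩
        change autOf e y hyA _ = x
        rw [h6a]
        simp [mul_assoc]
    rw [hB, conj_smul_lift e y hyA, h6, conj_smul_lift_mem e (e.symm b).2, h5] at hyM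
    have h7 := lift_injective e hyM
    have h8 : MulAut.conj (t⁻¹ * b) • B = B := by
      rw [map_mul, mul_smul, ← h7, ← mul_smul, ← map_mul, inv_mul_cancel, map_one, one_smul]
    have key : ∀ c : alternatingGroup (Fin 6), (e ⟨((e.symm c : A) : Q), (e.symm c).2⟩) = c := by
      intro c; simp
    have h9 := normalizer_inf A hA M hM hAM hnn (e.symm (t⁻¹ * b)) (e.symm (t⁻¹ * b)).2 (by
      rw [hB, conj_smul_lift_mem e (e.symm (t⁻¹ * b)).2, key, h8])
    have h10 : ((e.symm (t⁻¹ * b) : A) : Q) ∈ M ⊓ A := ⟨h9, (e.symm (t⁻¹ * b)).2⟩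
    rw [hB, mem_lift] at h10
    obtain ⟨_, h11⟩ := h10
    rwa [key] at h11
  have hdvd : B.index ∣ Nat.card T' := by
    have hbase : ∀ q : alternatingGroup (Fin 6) ⧸ B, ∃ t : T',
        t • ((1 : alternatingGroup (Fin 6)) : alternatingGroup (Fin 6) ⧸ B) = q := by
      intro q
      obtain ⟨b, rfl⟩ := QuotientGroup.mk_surjective q
      obtain ⟨t, ht, h1⟩ := htrans b
      refine ⟨⟨t, ht⟩, ?_⟩
      change ((t * 1 : alternatingGroup (Fin 6)) : alternatingGroup (Fin 6) ⧸ B) = _
      rw [mul_one]
      exact (QuotientGroup.eq).2 h1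
    haveI hpt : MulAction.IsPretransitive T' (alternatingGroup (Fin 6) ⧸ B) := by
      constructor
      intro x y
      obtain ⟨t1, h1⟩ := hbase x
      obtain ⟨t2, h2⟩ := hbase y
      refine ⟨t2 * t1⁻¹, ?_⟩
      rw [← h1, ← h2, mul_smul, inv_smul_smul]
    have h1 := MulAction.index_stabilizer_of_transitive T'
      ((1 : alternatingGroup (Fin 6)) : alternatingGroup (Fin 6) ⧸ B)
    rw [Subgroup.index, ← h1]
    exact Subgroup.index_dvd_card _
  rw [hT'card] at hdvd
  exact no_odd_six (indT e K) hTodd' ((by norm_num : 3 ∣ 15).trans (h15.trans hdvd))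
    ((by norm_num : 5 ∣ 15).trans (h15.trans hdvd))

end six

end Pool.Agent.Work.MP_bc729a_al
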