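import Pool.Agent.Work.MP_bc729a_al.Special
import Pool.Agent.Work.MP_bc729a_al.SixCase
import Pool.Agent.Work.MP_bc729a_al.ModS

open scoped Pointwise
open Equiv

namespace Pool.Agent.Work.MP_bc729a_al

universe u v

theorem no_alt {Q : Type u} [Group Q] [Finite Q] {A : Subgroup Q} {n : ℕ} (hn : 5 ≤ n)
    (e : A ≃* alternatingGroup (Fin n)) (hQ : MaxCompl Q) (hA : ConjComm A) : False := by
  by_cases h6 : n = 6
  · subst h6
    exact six_case e hQ hA
  by_cases h7 : n = 7
  · subst h7
    haveI : Fact (Nat.Prime 5) := ⟨by norm_num⟩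
    exact special_case e hQ hA (by norm_num) (by norm_num) 3 (by norm_num) (by norm_num)
      (by norm_num) (by decide) 5 (by norm_num) (by norm_num) (by decide)
  by_cases h15 : n = 15
  · subst h15
    haveI : Fact (Nat.Prime 13) := ⟨by norm_num⟩
    exact special_case e hQ hA (by norm_num) (by norm_num) 7 (by norm_num) (by norm_num)
      (by norm_num) (by norm_num [Nat.choose]) 13 (by norm_num) (by norm_num)
      (by norm_num [Nat.choose])
  exact generic_case e hQ hA hn h6 h7 h15

lemma alt_nonabelian {n : ℕ} (hn : 5 ≤ n) : ∃ x y : alternatingGroup (Fin n), x * y ≠ y * x := by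
  by_contra hcon
  push Not at hcon
  have h3 : ∀ σ : Perm (Fin n), σ ∈ alternatingGroup (Fin n) → σ = 1 := by
    intro σ hσ
    apply eq_one_of_commute (by omega) σ
    intro x
    have := congrArg (Subtype.val) (hcon ⟨σ, hσ⟩ x)
    have h4 : σ * (x : Perm (Fin n)) = x * σ := this
    rw [h4]; simp
  let i0 : Fin n := ⟨0, by omega⟩
  let i1 : Fin n := ⟨1, by omega⟩
  let i2 : Fin n := ⟨2, by omega⟩
  have h01 : i0 ≠ i1 := by simp [i0, i1]
  have h02 : i0 ≠ i2 := by simp [i0, i2]
  have h12 : i1 ≠ i2 := by simp [i1, i2]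
  have hc : (swap i0 i1 * swap i0 i2).IsThreeCycle :=
    Equiv.Perm.isThreeCycle_swap_mul_swap_same h01 h02 h12
  have h5 := h3 _ hc.mem_alternatingGroup
  rw [h5] at hc
  have := hc.card_support
  simp at this

theorem final (G : Type u) [Group G] [Finite G] (hG : MaxCompl G) (n : ℕ) (hn : 5 ≤ n) :
    ¬ IsCompFactor (alternatingGroup (Fin n)) G := by
  intro h
  obtain ⟨K, hK, f, hf⟩ := compFactor_subnormal h
  haveI : IsSimpleGroup (alternatingGroup (Fin n)) := alternatingGroup.isSimpleGroup (by simpa using hn)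
  obtain ⟨Q, _, _, hQ, A, ⟨e⟩, hA⟩ := reduction (alternatingGroup (Fin n)) (alt_nonabelian hn)
    G hG K hK f hf
  exact no_alt hn e hQ hA

end Pool.Agent.Work.MP_bc729a_al
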