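import Pool.Agent.Work.MP_bc729a_al.Defs

/-!
An automorphism of the alternating group that maps 3-cycles to 3-cycles is the conjugation by a
permutation.
-/

set_option autoImplicit false

open scoped Pointwise
open Equiv

namespace Pool.Agent.Work.MP_bc729a_al

namespace A1

variable {n : ℕ}

theorem cube {x : Perm (Fin n)} (hx : x.IsThreeCycle) (z : Fin n) : x (x (x z)) = z := by
  have h : x ^ 3 = 1 := by
    rw [← hx.orderOf]
    exact pow_orderOf_eq_one x
  have h2 : (x ^ 3) z = z := by rw [h]; rfl
  simpa [pow_succ] using h2

theorem supp_eq {x : Perm (Fin n)} (hx : x.IsThreeCycle) {q : Fin n} (hq : x q ≠ q) :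
    x.support = {q, x q, x (x q)} := by
  have h1 : x (x q) ≠ x q := fun h => hq (x.injective h)
  have h2 : x (x q) ≠ q := by
    intro h
    have := cube hx q
    rw [h] at this
    exact hq this
  have hsub : ({q, x q, x (x q)} : Finset (Fin n)) ⊆ x.support := by
    intro z hz
    simp only [Finset.mem_insert, Finset.mem_singleton] at hz
    rw [Perm.mem_support]
    rcases hz with rfl | rfl | rfl
    · exact hq
    · exact h1
    · rw [cube hx q]
      exact h2.symm
  symm
  apply Finset.eq_of_subset_of_card_le hsub
  rw [hx.card_support, Finset.card_eq_three.2 ⟨q, x q, x (x q), hq.symm, h2.symm, h1.symm, rfl⟩]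

theorem form {x : Perm (Fin n)} (hx : x.IsThreeCycle) {q p : Fin n} (hq : x q = p) (hpq : p ≠ q) :
    x = swap p q * swap p (x p) ∧ x p ≠ p ∧ x p ≠ q ∧ x (x p) = q := by
  subst hq
  have h1 : x (x q) ≠ x q := fun h => hpq (x.injective h)
  have h2 : x (x q) ≠ q := by
    intro h
    have := cube hx q
    rw [h] at this
    exact hpq this
  refine ⟨?_, h1, h2, cube hx q⟩
  ext z
  congr 1
  rw [Perm.mul_apply]
  by_cases hz1 : z = q
  · subst hz1
    rw [swap_apply_of_ne_of_ne hpq.symm h2.symm, swap_apply_right]
  · by_cases hz2 : z = x q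
    · subst hz2
      rw [swap_apply_left, swap_apply_of_ne_of_ne h1 h2]
    · by_cases hz3 : z = x (x q)
      · subst hz3
        rw [swap_apply_right, swap_apply_left, cube hx q]
      · rw [swap_apply_of_ne_of_ne hz2 hz3, swap_apply_of_ne_of_ne hz2 hz1]
        by_contra hz
        have := Perm.mem_support.2 hz
        rw [supp_eq hx hpq] at this
        simp only [Finset.mem_insert, Finset.mem_singleton] at this
        tauto

theorem common {x y : Perm (Fin n)} (hx : x.IsThreeCycle) (hy : y.IsThreeCycle)
    (h : ∀ z, x (y (x (y z))) = z) (hne : ∃ z, x (y z) ≠ z) : ∃ u, x u = y u ∧ y u ≠ u := by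
  by_cases hs : ∃ z, y z ≠ z ∧ x z = z
  · obtain ⟨z, hz1, hz2⟩ := hs
    refine ⟨y z, ?_, fun hh => hz1 (y.injective hh)⟩
    have h1 := h z
    have h2 : y (x (y z)) = z := by
      apply x.injective
      rw [h1, hz2]
    have h3 := cube hy z
    exact y.injective (h2.trans h3.symm)
  · push Not at hs
    by_contra hcon
    push Not at hcon
    obtain ⟨w, hw⟩ := hne
    apply hw
    have hsub : y.support ⊆ x.support := by
      intro z hz
      exact Perm.mem_support.2 (hs z (Perm.mem_support.1 hz))
    have heq : y.support = x.support :=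
      Finset.eq_of_subset_of_card_le hsub (by rw [hx.card_support, hy.card_support])
    by_cases hyw : y w = w
    · rw [hyw]
      by_contra hxw
      have := Perm.mem_support.2 hxw
      rw [← heq] at this
      exact Perm.mem_support.1 this hyw
    · have hxw := hs w hyw
      have h1 : y w ∈ x.support := by
        rw [← heq]
        exact Perm.mem_support.2 (fun hh => hyw (y.injective hh))
      rw [supp_eq hx hxw] at h1
      simp only [Finset.mem_insert, Finset.mem_singleton] at h1
      rcases h1 with h1 | h1 | h1
      · exact absurd h1 hyw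
      · exact absurd (hcon w h1.symm) hyw
      · rw [h1, cube hx w]

theorem gen (K : Subgroup (Perm (Fin n))) {p q : Fin n} (hpq : p ≠ q)
    (hK : ∀ j, j ≠ p → j ≠ q → swap p q * swap p j ∈ K) (f : Perm (Fin n)) :
    f ∈ K ∨ swap p q * f ∈ K := by
  have hK1 : ∀ j, j ≠ p → swap p q * swap p j ∈ K := by
    intro j hj
    by_cases hjq : j = q
    · subst hjq
      rw [swap_mul_self]
      exact K.one_mem
    · exact hK j hj hjq
  have hK2 : ∀ j, j ≠ p → swap p j * swap p q ∈ K := by
    intro j hj
    have := K.inv_mem (hK1 j hj)
    rwa [mul_inv_rev, swap_inv, swap_inv] at this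
  have hK3 : ∀ x y, x ≠ y → swap p q * swap x y ∈ K := by
    intro x y hxy
    by_cases hx : x = p
    · subst hx
      exact hK1 y hxy.symm
    · by_cases hy : y = p
      · subst hy
        rw [swap_comm x y]
        exact hK1 x hxy
      · have h1 : swap x y = swap p x * swap p y * swap p x := by
          have h2 := mul_swap_eq_swap_mul (swap p x) p y
          rw [swap_apply_left, swap_apply_of_ne_of_ne hy hxy.symm] at h2
          rw [h2, mul_assoc, swap_mul_self, mul_one]
        have h3 : swap p q * swap x y = (swap p q * swap p x) * ((swap p y * swap p q) *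
            (swap p q * swap p x)) := by
          rw [h1]
          have h4 : swap p q * swap p q = 1 := swap_mul_self p q
          calc swap p q * (swap p x * swap p y * swap p x)
              = (swap p q * swap p x) * (swap p y * (1 * swap p x)) := by group
            _ = (swap p q * swap p x) * (swap p y * (swap p q * swap p q * swap p x)) := by
                rw [h4]
            _ = _ := by simp only [mul_assoc]
        rw [h3]
        exact K.mul_mem (hK1 x hx) (K.mul_mem (hK2 y hy) (hK1 x hx))
  have hK4 : ∀ x y, x ≠ y → swap x y * swap p q ∈ K := by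
    intro x y hxy
    have := K.inv_mem (hK3 x y hxy)
    rwa [mul_inv_rev, swap_inv, swap_inv] at this
  induction f using Perm.swap_induction_on with
  | one => exact Or.inl K.one_mem
  | swap_mul g x y hxy ih =>
    rcases ih with ih | ih
    · right
      rw [← mul_assoc]
      exact K.mul_mem (hK3 x y hxy) ih
    · left
      have h := K.mul_mem (hK4 x y hxy) ih
      have h4 : swap p q * swap p q = 1 := swap_mul_self p q
      have h5 : swap x y * swap p q * (swap p q * g) = swap x y * g := by
        rw [mul_assoc, ← mul_assoc (swap p q) (swap p q) g, h4, one_mul]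
      rwa [h5] at h

end A1

open A1

theorem conj_of_threeCycle {n : ℕ} (hn : 5 ≤ n)
    (α : alternatingGroup (Fin n) ≃* alternatingGroup (Fin n))
    (h : ∀ x : alternatingGroup (Fin n), (x : Perm (Fin n)).IsThreeCycle →
      ((α x : alternatingGroup (Fin n)) : Perm (Fin n)).IsThreeCycle) :
    ∃ σ : Perm (Fin n), ∀ x : alternatingGroup (Fin n),
      ((α x : alternatingGroup (Fin n)) : Perm (Fin n)) = σ * (x : Perm (Fin n)) * σ⁻¹ := by
  classical
  -- two base points
  set p : Fin n := ⟨0, by omega⟩ with hp
  set q : Fin n := ⟨1, by omega⟩ with hq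
  have hpq : p ≠ q := by simp [hp, hq, Fin.ext_iff]
  have htc : ∀ j, j ≠ p → j ≠ q → (swap p q * swap p j).IsThreeCycle := fun j hj1 hj2 =>
    Perm.isThreeCycle_swap_mul_swap_same hpq hj1.symm hj2.symm
  have htm : ∀ j, j ≠ p → j ≠ q → swap p q * swap p j ∈ alternatingGroup (Fin n) := by
    intro j hj1 hj2
    rw [Equiv.Perm.mem_alternatingGroup]
    exact (htc j hj1 hj2).sign
  let t : Fin n → alternatingGroup (Fin n) := fun j =>
    if hj : j ≠ p ∧ j ≠ q then ⟨swap p q * swap p j, htm j hj.1 hj.2⟩ else 1
  have ht : ∀ j, j ≠ p → j ≠ q → ((t j : alternatingGroup (Fin n)) : Perm (Fin n)) =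
      swap p q * swap p j := by
    intro j hj1 hj2
    simp only [t]
    rw [dif_pos ⟨hj1, hj2⟩]
  have ht3 : ∀ j, j ≠ p → j ≠ q → ((t j : alternatingGroup (Fin n)) : Perm (Fin n)).IsThreeCycle := by
    intro j hj1 hj2
    rw [ht j hj1 hj2]
    exact htc j hj1 hj2
  let x : Fin n → Perm (Fin n) := fun j => ((α (t j) : alternatingGroup (Fin n)) : Perm (Fin n))
  have hx3 : ∀ j, j ≠ p → j ≠ q → (x j).IsThreeCycle := fun j hj1 hj2 => h _ (ht3 j hj1 hj2)
  have hxinj : ∀ i j, i ≠ p → i ≠ q → j ≠ p → j ≠ q → x i = x j → i = j := by
    intro i j hi1 hi2 hj1 hj2 hij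
    have h1 : α (t i) = α (t j) := Subtype.ext hij
    have h2 : t i = t j := α.injective h1
    have h3 : swap p q * swap p i = swap p q * swap p j := by
      rw [← ht i hi1 hi2, ← ht j hj1 hj2, h2]
    have h4 := mul_left_cancel h3
    have h5 : swap p i p = swap p j p := by rw [h4]
    rwa [swap_apply_left, swap_apply_left] at h5
  have hprod : ∀ i j, i ≠ p → i ≠ q → j ≠ p → j ≠ q → i ≠ j →
      (∀ z, x i (x j (x i (x j z))) = z) ∧ ∃ z, x i (x j z) ≠ z := by
    intro i j hi1 hi2 hj1 hj2 hij
    have h1 : ((t i * t j : alternatingGroup (Fin n)) : Perm (Fin n)) =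
        swap q i * swap p j := by
      rw [Subgroup.coe_mul, ht i hi1 hi2, ht j hj1 hj2]
      have h2 := mul_swap_eq_swap_mul (swap p q) p i
      rw [swap_apply_left, swap_apply_of_ne_of_ne hi1 hi2] at h2
      rw [h2]
      have h4 : swap p q * swap p q = 1 := swap_mul_self p q
      calc swap q i * swap p q * (swap p q * swap p j)
          = swap q i * (swap p q * swap p q) * swap p j := by group
        _ = _ := by rw [h4, mul_one]
    have hcomm : swap q i * swap p j = swap p j * swap q i := by
      have h2 := mul_swap_eq_swap_mul (swap q i) p j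
      rwa [swap_apply_of_ne_of_ne hpq hi1.symm, swap_apply_of_ne_of_ne hj2 hij.symm] at h2
    have h3 : (t i * t j) * (t i * t j) = 1 := by
      apply Subtype.ext
      rw [Subgroup.coe_mul, h1, Subgroup.coe_one]
      calc swap q i * swap p j * (swap q i * swap p j)
          = swap q i * swap p j * (swap p j * swap q i) := by rw [← hcomm]
        _ = swap q i * (swap p j * swap p j) * swap q i := by group
        _ = 1 := by rw [swap_mul_self, mul_one, swap_mul_self]
    have h5 : t i * t j ≠ 1 := by
      intro h6
      have h7 : swap q i * swap p j = 1 := by rw [← h1, h6, Subgroup.coe_one]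
      have h8 : (swap q i * swap p j) p = p := by rw [h7]; rfl
      rw [Perm.mul_apply, swap_apply_left, swap_apply_of_ne_of_ne hj2 hij.symm] at h8
      exact hj1 h8
    have h9 : (α (t i) * α (t j)) * (α (t i) * α (t j)) = 1 := by
      rw [← map_mul, ← map_mul, h3, map_one]
    have h10 : x i * x j * (x i * x j) = 1 := by
      have := congrArg (fun y : alternatingGroup (Fin n) => (y : Perm (Fin n))) h9
      simpa [x] using this
    refine ⟨?_, ?_⟩
    · intro z
      have : (x i * x j * (x i * x j)) z = z := by rw [h10]; rfl
      simpa using this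
    · by_contra hcon
      push Not at hcon
      apply h5
      apply α.injective
      rw [map_mul, map_one]
      apply Subtype.ext
      ext z
      have := hcon z
      simp only [x] at this
      rw [Subgroup.coe_mul, Perm.mul_apply, this]
      rfl
  -- the first two
  set i0 : Fin n := ⟨2, by omega⟩ with hi0
  set i1 : Fin n := ⟨3, by omega⟩ with hi1
  have e01 : i0 ≠ p := by simp [hp, hi0, Fin.ext_iff]
  have e02 : i0 ≠ q := by simp [hq, hi0, Fin.ext_iff]
  have e11 : i1 ≠ p := by simp [hp, hi1, Fin.ext_iff]
  have e12 : i1 ≠ q := by simp [hq, hi1, Fin.ext_iff]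
  have e : i0 ≠ i1 := by simp [hi0, hi1, Fin.ext_iff]
  obtain ⟨hA, hB⟩ := hprod i0 i1 e01 e02 e11 e12 e
  obtain ⟨b, hb1, hb2⟩ := common (hx3 i0 e01 e02) (hx3 i1 e11 e12) hA hB
  -- x i0 : b ↦ a ↦ c ↦ b, x i1 : b ↦ a ↦ d ↦ b
  set a : Fin n := x i1 b with ha
  obtain ⟨F0, c1, c2, c3⟩ := form (hx3 i0 e01 e02) hb1 hb2
  obtain ⟨F1, d1, d2, d3⟩ := form (hx3 i1 e11 e12) (rfl : x i1 b = a) hb2
  set c : Fin n := x i0 a with hc
  set d : Fin n := x i1 a with hd
  have hcd : c ≠ d := by
    intro hcd
    apply e
    apply hxinj i0 i1 e01 e02 e11 e12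
    rw [F0, F1, hcd]
  have hall : ∀ j, j ≠ p → j ≠ q → x j b = a := by
    intro j hj1 hj2
    by_cases hj0 : j = i0
    · rw [hj0]; exact hb1
    · by_cases hj3 : j = i1
      · rw [hj3]
      · by_contra hcon
        have hj := hx3 j hj1 hj2
        obtain ⟨hC, hD⟩ := hprod i0 j e01 e02 hj1 hj2 (Ne.symm hj0)
        obtain ⟨u, hu1, hu2⟩ := common (hx3 i0 e01 e02) hj hC hD
        obtain ⟨hC', hD'⟩ := hprod i1 j e11 e12 hj1 hj2 (Ne.symm hj3)
        obtain ⟨w, hw1, hw2⟩ := common (hx3 i1 e11 e12) hj hC' hD'
        have hub : u ≠ b := by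
          intro hh
          subst hh
          exact hcon (hu1.symm.trans hb1)
        have hwb : w ≠ b := by
          intro hh
          subst hh
          exact hcon hw1.symm
        have hus : u ∈ (x i0).support := Perm.mem_support.2 (by rw [hu1]; exact hu2)
        have hws : w ∈ (x i1).support := Perm.mem_support.2 (by rw [hw1]; exact hw2)
        rw [supp_eq (hx3 i0 e01 e02) (by rw [hb1]; exact hb2 : x i0 b ≠ b), hb1] at hus
        rw [supp_eq (hx3 i1 e11 e12) (hb2 : x i1 b ≠ b)] at hws
        simp only [Finset.mem_insert, Finset.mem_singleton] at hus hws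
        rcases hus with hus | hus | hus
        · exact hub hus
        · -- x j a = c
          subst hus
          rcases hws with hws | hws | hws
          · exact hwb hws
          · subst hws
            apply hcd
            rw [hc, hd, hu1, hw1]
          · -- x j d = b
            subst hws
            change x i1 d = x j d at hw1
            rw [d3] at hw1
            obtain ⟨_, f1, f2, f3⟩ := form hj hu1.symm c1
            have hds : d ∈ (x j).support := Perm.mem_support.2 (by rw [← hw1]; exact d2.symm)
            rw [supp_eq hj (by rw [← hu1]; exact c1 : x j a ≠ a), ← hu1] at hds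
            simp only [Finset.mem_insert, Finset.mem_singleton] at hds
            rcases hds with hds | hds | hds
            · exact d1 hds
            · exact hcd hds.symm
            · change d = x j c at hds
              rw [← hds] at f3
              rw [← hw1] at f3
              exact hb2 f3.symm
        · -- x j c = b
          subst hus
          change x i0 c = x j c at hu1
          rw [c3] at hu1
          rcases hws with hws | hws | hws
          · exact hwb hws
          · subst hws
            -- x j a = d
            change d = x j a at hw1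
            have has : a ∈ (x j).support := Perm.mem_support.2 (by rw [← hw1]; exact d1)
            rw [supp_eq hj (by rw [← hu1]; exact c2.symm : x j c ≠ c), ← hu1] at has
            simp only [Finset.mem_insert, Finset.mem_singleton] at has
            rcases has with has | has | has
            · exact c1 has.symm
            · exact hb2 has
            · exact hcon has.symm
          · subst hws
            change x i1 d = x j d at hw1
            rw [d3, hu1] at hw1
            exact hcd ((x j).injective hw1)
  have hform : ∀ j, j ≠ p → j ≠ q → x j = swap a b * swap a (x j a) ∧ x j a ≠ a ∧ x j a ≠ b :=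
    fun j hj1 hj2 => by
      obtain ⟨g1, g2, g3, _⟩ := form (hx3 j hj1 hj2) (hall j hj1 hj2) hb2
      exact ⟨g1, g2, g3⟩
  let f : Fin n → Fin n := fun j => if j = p then a else if j = q then b else x j a
  have fp : f p = a := by simp [f]
  have fq : f q = b := by simp [f, hpq.symm]
  have fj : ∀ j, j ≠ p → j ≠ q → f j = x j a := by
    intro j hj1 hj2
    simp [f, hj1, hj2]
  have finj : Function.Injective f := by
    intro i j hij
    by_cases hi1 : i = p
    · by_cases hj1 : j = p
      · rw [hi1, hj1]
      · exfalso
        rw [hi1, fp] at hij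
        by_cases hj2 : j = q
        · rw [hj2, fq] at hij
          exact hb2 hij
        · rw [fj j hj1 hj2] at hij
          exact (hform j hj1 hj2).2.1 hij.symm
    · by_cases hi2 : i = q
      · by_cases hj2 : j = q
        · rw [hi2, hj2]
        · exfalso
          rw [hi2, fq] at hij
          by_cases hj1 : j = p
          · rw [hj1, fp] at hij
            exact hb2 hij.symm
          · rw [fj j hj1 hj2] at hij
            exact (hform j hj1 hj2).2.2 hij.symm
      · rw [fj i hi1 hi2] at hij
        by_cases hj1 : j = p
        · exfalso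
          rw [hj1, fp] at hij
          exact (hform i hi1 hi2).2.1 hij
        · by_cases hj2 : j = q
          · exfalso
            rw [hj2, fq] at hij
            exact (hform i hi1 hi2).2.2 hij
          · rw [fj j hj1 hj2] at hij
            apply hxinj i j hi1 hi2 hj1 hj2
            rw [(hform i hi1 hi2).1, (hform j hj1 hj2).1, hij]
  let σ : Perm (Fin n) := Equiv.ofBijective f (Finite.injective_iff_bijective.1 finj)
  have hσ : ∀ j, σ j = f j := fun j => rfl
  refine ⟨σ, ?_⟩
  -- the subgroup on which the two agree
  let φ : alternatingGroup (Fin n) →* Perm (Fin n) :=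
    (alternatingGroup (Fin n)).subtype.comp α.toMonoidHom
  let ψ : alternatingGroup (Fin n) →* Perm (Fin n) :=
    (MulAut.conj σ).toMonoidHom.comp (alternatingGroup (Fin n)).subtype
  let K : Subgroup (Perm (Fin n)) := (φ.eqLocus ψ).map (alternatingGroup (Fin n)).subtype
  have hKle : K ≤ alternatingGroup (Fin n) := by
    rintro _ ⟨y, _, rfl⟩
    exact y.2
  have hKt : ∀ j, j ≠ p → j ≠ q → swap p q * swap p j ∈ K := by
    intro j hj1 hj2
    refine ⟨t j, ?_, ht j hj1 hj2⟩
    change φ (t j) = ψ (t j)
    change x j = σ * ((t j : alternatingGroup (Fin n)) : Perm (Fin n)) * σ⁻¹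
    rw [ht j hj1 hj2]
    have e1 := mul_swap_eq_swap_mul σ p q
    have e2 := mul_swap_eq_swap_mul σ p j
    rw [hσ, hσ, fp, fq] at e1
    rw [hσ, hσ, fp, fj j hj1 hj2] at e2
    rw [← mul_assoc, e1, mul_assoc (swap a b) σ, e2]
    rw [← mul_assoc, mul_inv_cancel_right]
    exact (hform j hj1 hj2).1
  intro y
  have hy : (y : Perm (Fin n)) ∈ K := by
    rcases gen K hpq hKt (y : Perm (Fin n)) with h1 | h1
    · exact h1
    · exfalso
      have h2 := hKle h1
      rw [Equiv.Perm.mem_alternatingGroup, Perm.sign_mul, Perm.sign_swap hpq,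
        Equiv.Perm.mem_alternatingGroup.1 y.2] at h2
      simp at h2
  obtain ⟨y', hy1, hy2⟩ := hy
  have hy3 : y' = y := Subtype.ext hy2
  subst hy3
  exact hy1

end Pool.Agent.Work.MP_bc729a_al
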