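import Pool.Agent.Work.MP_bc729a_al.Defs

set_option autoImplicit false

open scoped Pointwise Nat
open Equiv Equiv.Perm

namespace Pool.Agent.Work.MP_bc729a_al

/-! Automorphisms of alternating groups and 3-cycles. -/

lemma exists_odd_centr {n : ℕ} {g : Perm (Fin n)}
    (h : ¬ Subgroup.centralizer {g} ≤ alternatingGroup (Fin n)) :
    ∃ c : Perm (Fin n), Perm.sign c = -1 ∧ c * g = g * c := by
  obtain ⟨c, hc, hc'⟩ := SetLike.not_le_iff_exists.1 h
  refine ⟨c, ?_, ?_⟩
  · rw [mem_alternatingGroup] at hc'
    rcases Int.units_eq_one_or (Perm.sign c) with h1 | h1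
    · exact absurd h1 hc'
    · exact h1
  · exact (Subgroup.mem_centralizer_iff.1 hc g rfl).symm

/-- permutations with the same cycle type and an odd centralising element are conjugate by an
even permutation -/
lemma conj_even {n : ℕ} {g g' : Perm (Fin n)}
    (h : ¬ Subgroup.centralizer {g} ≤ alternatingGroup (Fin n))
    (hc : g.cycleType = g'.cycleType) :
    ∃ c : alternatingGroup (Fin n), (c : Perm (Fin n)) * g * (c : Perm (Fin n))⁻¹ = g' := by
  obtain ⟨c, hc1⟩ := isConj_iff.1 (isConj_iff_cycleType_eq.2 hc)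
  rcases Int.units_eq_one_or (Perm.sign c) with h1 | h1
  · exact ⟨⟨c, mem_alternatingGroup.2 h1⟩, hc1⟩
  · obtain ⟨d, hd, hd'⟩ := exists_odd_centr h
    refine ⟨⟨c * d, mem_alternatingGroup.2 (by rw [map_mul, h1, hd]; rfl)⟩, ?_⟩
    show c * d * g * (c * d)⁻¹ = g'
    have h2 : c * d * g * (c * d)⁻¹ = c * (d * g * d⁻¹) * c⁻¹ := by group
    have h3 : d * g * d⁻¹ = g := by
      rw [mul_inv_eq_iff_eq_mul]
      exact hd'
    rw [h2, h3, hc1]

lemma not_le_of_three {n : ℕ} (hn : 5 ≤ n) {g : Perm (Fin n)} (hg : g.IsThreeCycle) :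
    ¬ Subgroup.centralizer {g} ≤ alternatingGroup (Fin n) := by
  intro h
  have h1 := card_le_of_centralizer_le_alternating h
  rw [hg.cycleType] at h1
  simp at h1
  omega

lemma not_le_of_mult {n m : ℕ} {g : Perm (Fin n)}
    (hg : g.cycleType = Multiset.replicate (m + 2) 3) :
    ¬ Subgroup.centralizer {g} ≤ alternatingGroup (Fin n) := by
  intro h
  have h1 := count_le_one_of_centralizer_le_alternating h 3
  rw [hg] at h1
  simp at h1

/-- automorphisms permute the cycle types whose centralisers contain odd permutations -/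
lemma cycleType_iff {n : ℕ} (α : alternatingGroup (Fin n) ≃* alternatingGroup (Fin n))
    (x : alternatingGroup (Fin n))
    (hx : ¬ Subgroup.centralizer {(x : Perm (Fin n))} ≤ alternatingGroup (Fin n))
    (hy : ¬ Subgroup.centralizer {((α x : alternatingGroup (Fin n)) : Perm (Fin n))} ≤
      alternatingGroup (Fin n)) (z : alternatingGroup (Fin n)) :
    (z : Perm (Fin n)).cycleType = (x : Perm (Fin n)).cycleType ↔
      ((α z : alternatingGroup (Fin n)) : Perm (Fin n)).cycleType =
        ((α x : alternatingGroup (Fin n)) : Perm (Fin n)).cycleType := by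
  constructor
  · intro h
    obtain ⟨c, hc⟩ := conj_even hx h.symm
    have h1 : c * x * c⁻¹ = z := Subtype.ext hc
    rw [← h1, map_mul, map_mul, map_inv]
    exact cycleType_conj
  · intro h
    obtain ⟨c, hc⟩ := conj_even hy h.symm
    have h1 : c * α x * c⁻¹ = α z := Subtype.ext hc
    have h2 : z = α.symm c * x * (α.symm c)⁻¹ := by
      apply α.injective
      rw [← h1, map_mul, map_mul, map_inv, α.apply_symm_apply]
    rw [h2]
    exact cycleType_conj

lemma card_class {n : ℕ} (α : alternatingGroup (Fin n) ≃* alternatingGroup (Fin n))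
    (x : alternatingGroup (Fin n))
    (hx : ¬ Subgroup.centralizer {(x : Perm (Fin n))} ≤ alternatingGroup (Fin n))
    (hy : ¬ Subgroup.centralizer {((α x : alternatingGroup (Fin n)) : Perm (Fin n))} ≤
      alternatingGroup (Fin n)) :
    (Finset.univ.filter (fun g : alternatingGroup (Fin n) => g.val.cycleType =
      (x : Perm (Fin n)).cycleType)).card =
    (Finset.univ.filter (fun g : alternatingGroup (Fin n) => g.val.cycleType =
      ((α x : alternatingGroup (Fin n)) : Perm (Fin n)).cycleType)).card := by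
  apply Finset.card_bij (fun g _ => α g)
  · intro g hg
    rw [Finset.mem_filter] at hg ⊢
    exact ⟨Finset.mem_univ _, (cycleType_iff α x hx hy g).1 hg.2⟩
  · intro a _ b _ hab
    exact α.injective hab
  · intro b hb
    rw [Finset.mem_filter] at hb
    refine ⟨α.symm b, ?_, α.apply_symm_apply b⟩
    rw [Finset.mem_filter]
    refine ⟨Finset.mem_univ _, (cycleType_iff α x hx hy _).2 ?_⟩
    rw [α.apply_symm_apply]
    exact hb.2

lemma order_three {n : ℕ} (α : alternatingGroup (Fin n) ≃* alternatingGroup (Fin n))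
    (x : alternatingGroup (Fin n)) (hx : orderOf (x : Perm (Fin n)) = 3) :
    ∃ k, ((α x : alternatingGroup (Fin n)) : Perm (Fin n)).cycleType =
      Multiset.replicate (k + 1) 3 := by
  have h1 : orderOf ((α x : alternatingGroup (Fin n)) : Perm (Fin n)) = 3 := by
    rw [← hx, Subgroup.orderOf_coe, Subgroup.orderOf_coe]
    exact MulEquiv.orderOf_eq α x
  obtain ⟨k, hk⟩ := cycleType_prime_order (σ := ((α x : alternatingGroup (Fin n)) : Perm (Fin n)))
    (by rw [h1]; exact Nat.prime_three)
  rw [h1] at hk
  exact ⟨k, hk⟩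

lemma fact_lt (k : ℕ) : 3 ^ (k + 2) * (k + 3)! < (3 * (k + 1) + 3)! := by
  induction k with
  | zero => decide
  | succ k ih =>
    have h1 : (3 * (k + 1 + 1) + 3)! =
        (3 * k + 9) * ((3 * k + 8) * ((3 * k + 7) * (3 * (k + 1) + 3)!)) := by
      have : 3 * (k + 1 + 1) + 3 = (3 * (k + 1) + 3) + 1 + 1 + 1 := by ring
      rw [this, Nat.factorial_succ, Nat.factorial_succ, Nat.factorial_succ]
      ring
    have h2 : 3 ^ (k + 1 + 2) * (k + 1 + 3)! = 3 * (k + 4) * (3 ^ (k + 2) * (k + 3)!) := by
      have : k + 1 + 3 = (k + 3) + 1 := by ring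
      rw [this, Nat.factorial_succ, pow_succ]
      ring
    rw [h1, h2]
    have h3 : 3 * (k + 4) ≤ (3 * k + 9) * ((3 * k + 8) * (3 * k + 7)) := by
      have h4 : 2 ≤ (3 * k + 8) * (3 * k + 7) := by nlinarith
      have h5 := Nat.mul_le_mul (le_refl (3 * k + 9)) h4
      omega
    calc 3 * (k + 4) * (3 ^ (k + 2) * (k + 3)!)
        < 3 * (k + 4) * (3 * (k + 1) + 3)! := by
          apply Nat.mul_lt_mul_of_pos_left ih
          omega
      _ ≤ (3 * k + 9) * ((3 * k + 8) * (3 * k + 7)) * (3 * (k + 1) + 3)! :=
          Nat.mul_le_mul_right _ h3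
      _ = _ := by ring

lemma arith {n k : ℕ} (hk : 3 * (k + 2) ≤ n)
    (h : (n - 3)! * 3 = (n - 3 * (k + 2))! * 3 ^ (k + 2) * (k + 2)!) : n = 6 := by
  obtain ⟨r, rfl⟩ := Nat.exists_eq_add_of_le hk
  have e1 : 3 * (k + 2) + r - 3 = 3 * k + 3 + r := by omega
  have e2 : 3 * (k + 2) + r - 3 * (k + 2) = r := by omega
  rw [e1, e2] at h
  cases k with
  | zero =>
    have h1 : (3 * 0 + 3 + r)! = (r + 3) * ((r + 2) * ((r + 1) * r !)) := by
      have : 3 * 0 + 3 + r = r + 1 + 1 + 1 := by ring
      rw [this, Nat.factorial_succ, Nat.factorial_succ, Nat.factorial_succ]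
    rw [h1] at h
    have h2 : 0 < r ! := Nat.factorial_pos r
    have h3 : (r + 3) * (r + 2) * (r + 1) * 3 = 3 ^ 2 * 2 := by
      apply Nat.eq_of_mul_eq_mul_left h2
      have h4 : (0 + 2)! = 2 := rfl
      rw [h4] at h
      have h5 : 0 + 2 = 2 := rfl
      rw [h5] at h
      linarith
    have h4 : r = 0 := by
      by_contra hr
      have : 1 ≤ r := Nat.pos_of_ne_zero hr
      nlinarith [Nat.mul_le_mul (Nat.mul_le_mul (show 4 ≤ r + 3 by omega)
        (show 3 ≤ r + 2 by omega)) (show 2 ≤ r + 1 by omega)]
    omega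
  | succ k =>
    exfalso
    have h1 := fact_lt k
    have h2 : (3 * (k + 1) + 3)! * r ! ≤ (3 * (k + 1) + 3 + r)! :=
      Nat.le_of_dvd (Nat.factorial_pos _) (Nat.factorial_mul_factorial_dvd_factorial_add _ _)
    have h3 : 0 < r ! := Nat.factorial_pos r
    have h4 : r ! * 3 ^ (k + 1 + 2) * (k + 1 + 2)! = r ! * (3 ^ (k + 2) * (k + 3)!) * 3 := by
      have : k + 1 + 2 = k + 3 := by ring
      rw [this, pow_succ 3 (k + 2)]
      ring
    rw [h4] at h
    have h5 : (3 * (k + 1) + 3 + r)! = r ! * (3 ^ (k + 2) * (k + 3)!) :=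
      Nat.eq_of_mul_eq_mul_right (by norm_num) h
    rw [h5] at h2
    have h6 : (3 * (k + 1) + 3)! * r ! ≤ 3 ^ (k + 2) * (k + 3)! * r ! := by linarith
    exact absurd (Nat.le_of_mul_le_mul_right h6 h3) (not_le.2 h1)

theorem threeCycle_of_aut {n : ℕ} (hn : 5 ≤ n) (h6 : n ≠ 6)
    (α : alternatingGroup (Fin n) ≃* alternatingGroup (Fin n))
    (x : alternatingGroup (Fin n)) (hx : (x : Perm (Fin n)).IsThreeCycle) :
    ((α x : alternatingGroup (Fin n)) : Perm (Fin n)).IsThreeCycle := by
  obtain ⟨k, hk⟩ := order_three α x hx.orderOf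
  cases k with
  | zero => exact hk
  | succ k =>
    exfalso
    apply h6
    have h1 := card_class α x (not_le_of_three hn hx) (not_le_of_mult (m := k) hk)
    have h2 := AlternatingGroup.card_of_cycleType_mul_eq (Fin n) ((x : Perm (Fin n)).cycleType)
    have h3 := AlternatingGroup.card_of_cycleType_mul_eq (Fin n)
      (((α x : alternatingGroup (Fin n)) : Perm (Fin n)).cycleType)
    rw [h1] at h2
    have hle : 3 * (k + 2) ≤ n := by
      have h4 := sum_cycleType_le ((α x : alternatingGroup (Fin n)) : Perm (Fin n))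
      rw [hk] at h4
      simp at h4
      omega
    have hev : Even (Multiset.sum (Multiset.replicate (k + 1 + 1) 3) +
        Multiset.card (Multiset.replicate (k + 1 + 1) 3)) := by
      simp only [Multiset.sum_replicate, Multiset.card_replicate, smul_eq_mul]
      exact ⟨2 * (k + 1 + 1), by ring⟩
    rw [if_pos, hx.cycleType] at h2
    · rw [if_pos] at h3
      · rw [hk] at h3
        rw [hk] at h2
        have hfp := Nat.factorial_pos n
        set N := (Finset.univ.filter (fun g : alternatingGroup (Fin n) => g.val.cycleType =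
          Multiset.replicate (k + 1 + 1) 3)).card with hN
        rw [Fintype.card_fin] at h2 h3
        have hN0 : 0 < N := by
          rcases Nat.eq_zero_or_pos N with h | h
          · rw [h, zero_mul] at h2
            omega
          · exact h
        have h5 := Nat.eq_of_mul_eq_mul_left hN0 (h2.trans h3.symm)
        apply arith hle
        have h6 : Multiset.toFinset (Multiset.replicate (k + 1 + 1) 3) = {3} := by
          ext a
          rw [Multiset.mem_toFinset, Multiset.mem_replicate, Finset.mem_singleton]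
          exact and_iff_right (by omega)
        rw [h6] at h5
        simp only [Multiset.sum_singleton, Multiset.prod_singleton, Multiset.toFinset_singleton,
          Finset.prod_singleton, Multiset.count_singleton_self, Multiset.sum_replicate,
          Multiset.prod_replicate, Multiset.count_replicate_self, smul_eq_mul,
          Nat.factorial_one, mul_one] at h5
        have e1 : (k + 1 + 1) * 3 = 3 * (k + 2) := by ring
        have e2 : k + 1 + 1 = k + 2 := rfl
        rw [e1, e2] at h5
        exact h5
      · rw [hk]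
        refine ⟨⟨?_, ?_⟩, hev⟩
        · simp
          omega
        · intro a ha
          rw [Multiset.eq_of_mem_replicate ha]
          norm_num
    · rw [hx.cycleType]
      refine ⟨⟨?_, ?_⟩, ?_⟩
      · simp
        omega
      · intro a ha
        rw [Multiset.mem_singleton.1 ha]
        norm_num
      · decide

theorem threeCycle_six (α : alternatingGroup (Fin 6) ≃* alternatingGroup (Fin 6))
    (x : alternatingGroup (Fin 6)) (hx : (x : Perm (Fin 6)).IsThreeCycle) :
    ((α (α x) : alternatingGroup (Fin 6)) : Perm (Fin 6)).IsThreeCycle := by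
  have hx3 := hx.orderOf
  obtain ⟨k, hk⟩ := order_three α x hx3
  have hy3 : orderOf ((α x : alternatingGroup (Fin 6)) : Perm (Fin 6)) = 3 := by
    rw [← hx3, Subgroup.orderOf_coe, Subgroup.orderOf_coe]
    exact MulEquiv.orderOf_eq α x
  obtain ⟨l, hl⟩ := order_three α (α x) hy3
  have hbd : ∀ (g : Perm (Fin 6)) (j : ℕ), g.cycleType = Multiset.replicate (j + 1) 3 → j ≤ 1 := by
    intro g j hg
    have h4 := sum_cycleType_le g
    rw [hg] at h4
    simp at h4
    omega
  have hnx := not_le_of_three (by norm_num : 5 ≤ 6) hx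
  have hk1 := hbd _ k hk
  have hl1 := hbd _ l hl
  interval_cases l
  · exact hl
  · exfalso
    interval_cases k
    · -- `α x` is a 3-cycle
      have hny := not_le_of_three (by norm_num : 5 ≤ 6) (show
        ((α x : alternatingGroup (Fin 6)) : Perm (Fin 6)).IsThreeCycle from hk)
      have h1 := (cycleType_iff α x hnx hny (α x)).1 (by rw [hk, hx.cycleType]; rfl)
      rw [hl, hk] at h1
      have h2 := congrArg Multiset.card h1
      simp at h2
    · have hny := not_le_of_mult (m := 0) hk
      have h1 := (cycleType_iff α x hnx hny (α x)).2 (by rw [hk, hl])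
      rw [hk, hx.cycleType] at h1
      have h2 := congrArg Multiset.card h1
      simp at h2

end Pool.Agent.Work.MP_bc729a_al
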