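import Mathlib
import Pool.Agent.Work.MP_bc729a_al.EYBase

/-!
# A maximal subgroup containing `H` but not `A`
-/

open scoped Pointwise

namespace Pool.Agent.Work.MP_bc729a_al

universe u

open EY in
theorem exists_max {G : Type u} [Group G] [Finite G] (A H : Subgroup G) (hA : ConjComm A)
    (hHA : H ≤ A) (hnn : ∃ a ∈ A, MulAut.conj a • H ≠ H)
    (hinv : ∀ g : G, MulAut.conj g • A = A → ∃ a ∈ A, MulAut.conj g • H = MulAut.conj a • H) :
    ∃ M : Subgroup G, IsCoatom M ∧ ¬ A ≤ M ∧ H ≤ M := by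
  classical
  -- the choice function
  let φ : Subgroup G → Subgroup G := fun B =>
    if B = A then H else if h : IsC A B then cj h.choose H else ⊥
  have hφ : ∀ B, IsC A B → ∃ g : G, cj g A = B ∧ φ B = cj g H := by
    intro B hB
    by_cases hBA : B = A
    · exact ⟨1, by rw [cj_one, hBA], by simp [φ, hBA, cj]⟩
    · refine ⟨hB.choose, hB.choose_spec, ?_⟩
      simp only [φ, if_neg hBA, dif_pos hB]
  have hφA : φ A = H := by simp [φ]
  have hφle : ∀ B, IsC A B → φ B ≤ B := by
    intro B hB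
    obtain ⟨g, hg, e⟩ := hφ B hB
    rw [e, ← hg]
    exact cj_mono hHA
  -- any two choices are conjugate
  have hcon : ∀ B, IsC A B → ∀ g : G, cj g A = B → ∃ b ∈ B, cj b (φ B) = cj g H := by
    intro B hB g hg
    obtain ⟨g₀, hg₀, e⟩ := hφ B hB
    have h1 : cj (g₀⁻¹ * g) A = A := by
      rw [cj_mul, hg, ← hg₀, cj_inv_cj]
    obtain ⟨a, ha, ea⟩ := hinv _ h1
    refine ⟨g₀ * a * g₀⁻¹, ?_, ?_⟩
    · rw [← hg₀]
      exact conj_mem_cj ha
    · have ea' : cj (g₀⁻¹ * g) H = cj a H := ea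
      rw [e, ← cj_mul]
      have : g₀ * a * g₀⁻¹ * g₀ = g₀ * a := by group
      rw [this, cj_mul, ← ea', ← cj_mul]
      congr 1
      group
  -- its stabiliser
  let M₀ : Subgroup G :=
    { carrier := {g | ∀ B, IsC A B → cj g (φ B) = φ (cj g B)}
      mul_mem' := by
        intro g h hg hh B hB
        rw [cj_mul, hh B hB, hg _ (hB.cj h), ← cj_mul]
      one_mem' := by
        intro B _
        rw [cj_one, cj_one]
      inv_mem' := by
        intro g hg B hB
        have := hg (cj g⁻¹ B) (hB.cj g⁻¹)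
        rw [cj_cj_inv] at this
        rw [← this, cj_inv_cj] }
  have hM₀ : ∀ g, g ∈ M₀ ↔ ∀ B, IsC A B → cj g (φ B) = φ (cj g B) := fun g => Iff.rfl
  have hfac : ∀ g : G, ∃ l ∈ Subgroup.normalClosure (A : Set G), l⁻¹ * g ∈ M₀ := by
    intro g
    obtain ⟨l, hl, e⟩ := transport hA φ (fun B => cj g (φ (cj g⁻¹ B))) (by
      intro B hB
      refine ⟨hφle B hB, ?_⟩
      obtain ⟨k, hk, ek⟩ := hφ (cj g⁻¹ B) (hB.cj g⁻¹)
      have h1 : cj (g * k) A = B := by rw [cj_mul, hk, cj_cj_inv]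
      obtain ⟨b, hb, eb⟩ := hcon B hB (g * k) h1
      refine ⟨b, hb, ?_⟩
      rw [eb, cj_mul, ek])
    refine ⟨l, hl, ?_⟩
    rw [hM₀]
    intro B hB
    have h1 := e (cj g B) (hB.cj g)
    simp only [cj_inv_cj] at h1
    rw [cj_mul, ← h1, cj_inv_cj, cj_mul,
      inn_fix (Subgroup.inv_mem _ (closure_le_inn hA hl)) (hB.cj g)]
  have hne : M₀ ≠ ⊤ := by
    intro htop
    obtain ⟨a, ha, hna⟩ := hnn
    have : a ∈ M₀ := htop ▸ Subgroup.mem_top a
    have := (hM₀ a).1 this A (isC_self A)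
    rw [cj_of_mem ha, hφA] at this
    exact hna this
  obtain ⟨M, hM, hle⟩ := (eq_top_or_exists_le_coatom M₀).resolve_left hne
  refine ⟨M, hM, ?_, ?_⟩
  · intro hAM
    have hconj : ∀ g : G, cj g A ≤ M := by
      intro g
      obtain ⟨l, hl, hm⟩ := hfac g
      have h1 : cj (l⁻¹ * g) A ≤ M := by
        have := cj_mono (g := l⁻¹ * g) hAM
        rwa [cj_of_mem (hle hm)] at this
      rw [cj_mul, inn_fix (Subgroup.inv_mem _ (closure_le_inn hA hl)) ((isC_self A).cj g)] at h1
      exact h1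
    have hL : Subgroup.normalClosure (A : Set G) ≤ M := by
      rw [Subgroup.normalClosure, Subgroup.closure_le]
      intro x hx
      obtain ⟨a, ha, hc⟩ := Group.mem_conjugatesOfSet_iff.1 hx
      obtain ⟨g, hg⟩ := isConj_iff.1 hc
      have := conj_mem_cj (g := g) (B := A) ha
      rw [hg] at this
      exact hconj g this
    apply hM.1
    rw [Subgroup.eq_top_iff']
    intro g
    obtain ⟨l, hl, hm⟩ := hfac g
    have := M.mul_mem (hL hl) (hle hm)
    simpa using this
  · intro h hh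
    apply hle
    rw [hM₀]
    intro B hB
    have hin : h ∈ inn A := le_inn hA (hHA hh)
    rw [inn_fix hin hB]
    by_cases hBA : A = B
    · subst hBA
      rw [hφA, cj_of_mem hh]
    · apply cj_eq_of_comm
      intro x hx
      exact comm_of_ne hA (isC_self A) hB hBA h (hHA hh) x (hφle B hB hx)

end Pool.Agent.Work.MP_bc729a_al
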