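import Mathlib

set_option autoImplicit false

open scoped Pointwise
open Equiv

namespace Pool.Agent.Work.MP_bc729a_al

theorem exists_invariant_aux {X : Type} [Fintype X] [DecidableEq X] (p : ℕ) [Fact p.Prime]
    (σ : Perm X) (hσ : σ ^ p = 1) (k : ℕ) : p * k ≤ Fintype.card X →
    ∃ s : Finset X, s.card = p * k ∧ ∀ x ∈ s, σ x ∈ s := by
  have hp : p.Prime := Fact.out
  induction k with
  | zero => intro _; exact ⟨∅, by simp, by simp⟩
  | succ k ih =>
    intro hk
    have e : p * (k + 1) = p * k + p := by ring
    obtain ⟨s, hs, hinv⟩ := ih (by omega)
    -- `s` is invariant in both directions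
    have himg : s.image σ = s := by
      apply Finset.eq_of_subset_of_card_le
      · intro y hy
        obtain ⟨x, hx, rfl⟩ := Finset.mem_image.mp hy
        exact hinv x hx
      · rw [Finset.card_image_of_injective _ σ.injective]
    have hback : ∀ x, σ x ∈ s → x ∈ s := by
      intro x hx
      rw [← himg] at hx
      obtain ⟨y, hy, hyx⟩ := Finset.mem_image.mp hx
      rwa [← σ.injective hyx]
    have hcompl : p ≤ sᶜ.card := by
      rw [Finset.card_compl]; omega
    by_cases hfix : ∃ x ∈ sᶜ, σ x ≠ x
    · obtain ⟨x, hx, hxne⟩ := hfix
      have hper : Function.minimalPeriod σ x = p := by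
        have h1 : Function.IsPeriodicPt σ p x := by
          show σ^[p] x = x
          rw [← Perm.coe_pow, hσ]
          rfl
        have h2 := h1.minimalPeriod_dvd
        rcases (Nat.dvd_prime hp).mp h2 with h3 | h3
        · exfalso
          exact hxne (Function.minimalPeriod_eq_one_iff_isFixedPt.mp h3)
        · exact h3
      set O : Finset X := (Finset.range p).image (fun i => σ^[i] x) with hO
      have hOcard : O.card = p := by
        rw [hO, Finset.card_image_of_injOn, Finset.card_range]
        intro i hi j hj hij
        simp only [Finset.coe_range, Set.mem_Iio] at hi hj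
        have := Function.iterate_injOn_Iio_minimalPeriod (f := (σ : X → X)) (x := x)
        rw [hper] at this
        exact this hi hj hij
      have hxs : ∀ i, σ^[i] x ∉ s := by
        intro i
        induction i with
        | zero => simpa using hx
        | succ i ih' =>
          rw [Function.iterate_succ_apply']
          exact fun h => ih' (hback _ h)
      refine ⟨s ∪ O, ?_, ?_⟩
      · rw [Finset.card_union_of_disjoint, hs, hOcard, e]
        rw [Finset.disjoint_left]
        intro y hy hyO
        obtain ⟨i, _, rfl⟩ := Finset.mem_image.mp hyO
        exact hxs i hy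
      · intro y hy
        rcases Finset.mem_union.mp hy with hy | hy
        · exact Finset.mem_union_left _ (hinv y hy)
        · apply Finset.mem_union_right
          obtain ⟨i, hi, rfl⟩ := Finset.mem_image.mp hy
          have hi' := Finset.mem_range.mp hi
          rw [hO, Finset.mem_image]
          rcases Nat.lt_or_ge (i + 1) p with h | h
          · exact ⟨i + 1, Finset.mem_range.mpr h, Function.iterate_succ_apply' _ _ _⟩
          · refine ⟨0, Finset.mem_range.mpr hp.pos, ?_⟩
            have : i + 1 = p := by omega
            show x = σ (σ^[i] x)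
            rw [← Function.iterate_succ_apply' (⇑σ) i x]
            show x = σ^[i + 1] x
            rw [this, ← Perm.coe_pow, hσ]
            rfl
    · push Not at hfix
      obtain ⟨u, hu, hucard⟩ := Finset.exists_subset_card_eq hcompl
      refine ⟨s ∪ u, ?_, ?_⟩
      · rw [Finset.card_union_of_disjoint, hs, hucard, e]
        rw [Finset.disjoint_left]
        intro y hy hyu
        exact (Finset.mem_compl.mp (hu hyu)) hy
      · intro y hy
        rcases Finset.mem_union.mp hy with hy | hy
        · exact Finset.mem_union_left _ (hinv y hy)
        · apply Finset.mem_union_right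
          rw [hfix y (hu hy)]
          exact hy

theorem exists_invariant {X : Type} [Fintype X] [DecidableEq X] (p : ℕ) [Fact p.Prime]
    (σ : Perm X) (hσ : σ ^ p = 1) (a : ℕ) (ha : a ≤ Fintype.card X) (hpa : p ∣ a) :
    ∃ s : Finset X, s.card = a ∧ ∀ x ∈ s, σ x ∈ s := by
  obtain ⟨k, rfl⟩ := hpa
  exact exists_invariant_aux p σ hσ k ha

end Pool.Agent.Work.MP_bc729a_al
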