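import Mathlib

set_option autoImplicit false

namespace Pool.Agent.Work.MP_bc729a_al

theorem choose_mul_mod (p n j : ℕ) [Fact p.Prime] : n.choose (p * j) ≡ (n / p).choose j [MOD p] := by
  have h := Choose.choose_modEq_choose_mod_mul_choose_div_nat (n := n) (k := p * j) (p := p)
  have hp : 0 < p := (Fact.out : p.Prime).pos
  rw [Nat.mul_mod_right, Nat.mul_div_cancel_left _ hp, Nat.choose_zero_right, one_mul] at h
  exact h

theorem choose_two (m : ℕ) : (∀ r, m + 1 ≠ 2 ^ r) →
    ∃ j, 0 < j ∧ j < m ∧ 2 ∣ m.choose j ∧ (2 * j = m → m = 2) := by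
  induction m using Nat.strong_induction_on with
  | _ m ih =>
    intro hm
    have h0 : m ≠ 0 := by
      rintro rfl; exact hm 0 (by norm_num)
    have h1 : m ≠ 1 := by
      rintro rfl; exact hm 1 (by norm_num)
    rcases Nat.even_or_odd' m with ⟨k, hk | hk⟩
    · refine ⟨1, one_pos, by omega, ?_, by omega⟩
      rw [Nat.choose_one_right]
      exact ⟨k, hk⟩
    · obtain ⟨j, hj0, hjk, hj, _⟩ := ih k (by omega) (by
        intro r hr
        apply hm (r + 1)
        rw [pow_succ, ← hr]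
        omega)
      refine ⟨2 * j, by omega, by omega, ?_, by omega⟩
      haveI : Fact (Nat.Prime 2) := ⟨Nat.prime_two⟩
      have h2 := choose_mul_mod 2 m j
      have h3 : m / 2 = k := by omega
      rw [h3] at h2
      exact (Nat.modEq_zero_iff_dvd.mp (h2.trans (Nat.modEq_zero_iff_dvd.mpr hj)))

theorem choose_three (N : ℕ) : (∀ r, N + 1 ≠ 3 ^ r) → (∀ r, N + 1 ≠ 2 * 3 ^ r) →
    ∃ j, 0 < j ∧ j < N ∧ 3 ∣ N.choose j ∧ (2 * j = N → N = 4) := by
  induction N using Nat.strong_induction_on with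
  | _ N ih =>
    intro h1 h2
    have e0 : N ≠ 0 := by
      rintro rfl; exact h1 0 (by norm_num)
    have e1 : N ≠ 1 := by
      rintro rfl; exact h2 0 (by norm_num)
    have e2 : N ≠ 2 := by
      rintro rfl; exact h1 1 (by norm_num)
    have h3 : N % 3 = 0 ∨ N % 3 = 1 ∨ N % 3 = 2 := by omega
    rcases h3 with h3 | h3 | h3
    · refine ⟨1, one_pos, by omega, ?_, by omega⟩
      rw [Nat.choose_one_right]
      omega
    · refine ⟨2, by norm_num, by omega, ?_, by omega⟩
      have h4 : N.choose 2 * 2 = N * (N - 1) := by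
        rw [Nat.choose_two_right, Nat.div_mul_cancel]
        exact (Nat.even_mul_pred_self N).two_dvd
      have h5 : 3 ∣ N.choose 2 * 2 := by
        rw [h4]
        exact Dvd.dvd.mul_left (by omega) _
      exact (Nat.Coprime.dvd_mul_right (by norm_num)).mp h5
    · obtain ⟨j, hj0, hjk, hj, _⟩ := ih (N / 3) (by omega) (by
        intro r hr
        apply h1 (r + 1)
        rw [pow_succ, ← hr]
        omega) (by
        intro r hr
        apply h2 (r + 1)
        have : 2 * 3 ^ (r + 1) = 3 * (2 * 3 ^ r) := by ring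
        rw [this, ← hr]
        omega)
      refine ⟨3 * j, by omega, by omega, ?_, by omega⟩
      haveI : Fact (Nat.Prime 3) := ⟨Nat.prime_three⟩
      have h5 := choose_mul_mod 3 N j
      exact (Nat.modEq_zero_iff_dvd.mp (h5.trans (Nat.modEq_zero_iff_dvd.mpr hj)))

theorem pow_three_mod_eight (k : ℕ) : 3 ^ k % 8 = 1 ∨ 3 ^ k % 8 = 3 := by
  induction k with
  | zero => left; norm_num
  | succ k ih =>
    rw [pow_succ]
    omega

/-- `3^k + 1 = 2^u` forces `k ≤ 1` -/
theorem pow_three_add_one {k u : ℕ} (h : 3 ^ k + 1 = 2 ^ u) : k ≤ 1 := by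
  have h1 := pow_three_mod_eight k
  have hu : u ≤ 2 := by
    by_contra hu
    have h2 : 8 ∣ 2 ^ u := by
      have : (8 : ℕ) = 2 ^ 3 := by norm_num
      rw [this]
      exact pow_dvd_pow 2 (by omega)
    omega
  by_contra hk
  have h3 : 3 ^ 2 ≤ 3 ^ k := Nat.pow_le_pow_right (by norm_num) (by omega)
  have h4 : 2 ^ u ≤ 2 ^ 2 := Nat.pow_le_pow_right (by norm_num) hu
  omega

/-- `3^k = 2^u + 1` forces `k ≤ 2` -/
theorem pow_three_sub_one {k u : ℕ} (h : 3 ^ k = 2 ^ u + 1) : k ≤ 2 := by
  rcases Nat.even_or_odd' k with ⟨l, hl | hl⟩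
  · -- k = 2 l
    rw [hl, pow_mul'] at h
    have h3l : 1 ≤ 3 ^ l := Nat.one_le_pow _ _ (by norm_num)
    have h2 : (3 ^ l + 1) * (3 ^ l - 1) = 2 ^ u := by
      rw [← Nat.sq_sub_sq, h, one_pow, Nat.add_sub_cancel]
    have h4 : (3 ^ l + 1) ∣ 2 ^ u := ⟨_, h2.symm⟩
    obtain ⟨j, _, hj⟩ := (Nat.dvd_prime_pow Nat.prime_two).mp h4
    have := pow_three_add_one hj
    omega
  · -- k odd
    have h2 : 3 ^ k % 4 = 3 := by
      rw [hl]
      clear hl h
      induction l with
      | zero => norm_num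
      | succ l ih =>
        have : 3 ^ (2 * (l + 1) + 1) = 9 * 3 ^ (2 * l + 1) := by ring
        rw [this]
        omega
    have hu : u ≤ 1 := by
      by_contra hu
      have h2 : 4 ∣ 2 ^ u := by
        have : (4 : ℕ) = 2 ^ 2 := by norm_num
        rw [this]
        exact pow_dvd_pow 2 (by omega)
      omega
    by_contra hk
    have h3 : 3 ^ 2 ≤ 3 ^ k := Nat.pow_le_pow_right (by norm_num) (by omega)
    have h4 : 2 ^ u ≤ 2 ^ 1 := Nat.pow_le_pow_right (by norm_num) hu
    omega

theorem exists_choose (n : ℕ) (hn : 5 ≤ n) (h6 : n ≠ 6) (h7 : n ≠ 7) (h15 : n ≠ 15) :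
    ∃ p a : ℕ, (p = 2 ∨ p = 3) ∧ 0 < a ∧ a < n ∧ 2 * a ≠ n ∧ p ∣ a ∧ p ∣ n.choose a := by
  by_cases hA : ∀ r, n / 2 + 1 ≠ 2 ^ r
  · obtain ⟨j, hj0, hjm, hj, hj2⟩ := choose_two (n / 2) hA
    refine ⟨2, 2 * j, Or.inl rfl, by omega, by omega, ?_, ⟨j, rfl⟩, ?_⟩
    · intro h
      have := hj2 (by omega)
      omega
    · haveI : Fact (Nat.Prime 2) := ⟨Nat.prime_two⟩
      have h2 := choose_mul_mod 2 n j
      exact (Nat.modEq_zero_iff_dvd.mp (h2.trans (Nat.modEq_zero_iff_dvd.mpr hj)))
  · push Not at hA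
    obtain ⟨r, hr⟩ := hA
    have h12 : n ≠ 12 := by
      rintro rfl
      have h1 : 2 ^ r = 7 := by omega
      have hr3 : r < 3 := by
        by_contra hlt
        have : 2 ^ 3 ≤ 2 ^ r := Nat.pow_le_pow_right (by norm_num) (by omega)
        omega
      interval_cases r <;> omega
    by_cases hB : (∀ s, n / 3 + 1 ≠ 3 ^ s) ∧ (∀ s, n / 3 + 1 ≠ 2 * 3 ^ s)
    · obtain ⟨j, hj0, hjm, hj, hj2⟩ := choose_three (n / 3) hB.1 hB.2
      refine ⟨3, 3 * j, Or.inr rfl, by omega, by omega, ?_, ⟨j, rfl⟩, ?_⟩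
      · intro h
        have := hj2 (by omega)
        omega
      · haveI : Fact (Nat.Prime 3) := ⟨Nat.prime_three⟩
        have h2 := choose_mul_mod 3 n j
        exact (Nat.modEq_zero_iff_dvd.mp (h2.trans (Nat.modEq_zero_iff_dvd.mpr hj)))
    · exfalso
      have hr' : 2 ^ (r + 1) = 2 * 2 ^ r := by ring
      rw [not_and_or] at hB
      rcases hB with hB | hB
      · push Not at hB
        obtain ⟨s, hs⟩ := hB
        have hs' : 3 ^ (s + 1) = 3 * 3 ^ s := by ring
        have hodd : 3 ^ s % 2 = 1 := by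
          rw [Nat.pow_mod]; simp
        have hcase : 3 ^ (s + 1) + 1 = 2 ^ (r + 1) ∨ 3 ^ (s + 1) = 2 ^ (r + 1) + 1 := by
          omega
        rcases hcase with h | h
        · have := pow_three_add_one h
          have hs0 : s = 0 := by omega
          subst hs0
          omega
        · have := pow_three_sub_one h
          have hs1 : s = 0 ∨ s = 1 := by omega
          rcases hs1 with rfl | rfl
          · omega
          · omega
      · push Not at hB
        obtain ⟨s, hs⟩ := hB
        have hs' : 3 ^ (s + 1) = 3 * 3 ^ s := by ring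
        have hodd : 3 ^ s % 2 = 1 := by
          rw [Nat.pow_mod]; simp
        have hcase : 3 ^ (s + 1) = 2 ^ r ∨ 3 ^ (s + 1) = 2 ^ r + 1 := by
          omega
        rcases hcase with h | h
        · have hr0 : r = 0 := by
            by_contra h0
            have : 2 ∣ 2 ^ r := dvd_pow_self 2 h0
            omega
          subst hr0
          omega
        · have := pow_three_sub_one h
          have hs1 : s = 0 ∨ s = 1 := by omega
          rcases hs1 with rfl | rfl
          · omega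
          · omega

end Pool.Agent.Work.MP_bc729a_al
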