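import Mathlib
import Pool.Agent.Work.MP_bc729a_al.EYBase

/-!
# Transitivity of the complement
-/

open scoped Pointwise

namespace Pool.Agent.Work.MP_bc729a_al

universe u

namespace EY

variable {G : Type u} [Group G]

/-- a maximal subgroup not containing `A` is the stabiliser of the traces `M ⊓ B` -/
theorem mem_of_stab {A M : Subgroup G} (hM : IsCoatom M)
    (hnn : ∃ a ∈ A, cj a (M ⊓ A) ≠ M ⊓ A) {g : G}
    (hg : ∀ B, IsC A B → cj g (M ⊓ B) = M ⊓ cj g B) : g ∈ M := by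
  let N : Subgroup G :=
    { carrier := {g | ∀ B, IsC A B → cj g (M ⊓ B) = M ⊓ cj g B}
      mul_mem' := by
        intro g h hg hh B hB
        rw [cj_mul, hh B hB, hg _ (hB.cj h), ← cj_mul]
      one_mem' := by
        intro B _
        rw [cj_one, cj_one]
      inv_mem' := by
        intro g hg B hB
        have := hg (cj g⁻¹ B) (hB.cj g⁻¹)
        rw [cj_cj_inv] at this
        rw [← this, cj_inv_cj] }
  have hle : M ≤ N := by
    intro m hm B _
    rw [cj_inf, cj_of_mem hm]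
  have hne : N ≠ ⊤ := by
    intro htop
    obtain ⟨a, ha, hna⟩ := hnn
    have h1 : a ∈ N := htop ▸ Subgroup.mem_top a
    have h2 : cj a (M ⊓ A) = M ⊓ cj a A := h1 A (isC_self A)
    rw [cj_of_mem ha] at h2
    exact hna h2
  have hN : N = M := by
    by_contra hc
    exact hne (hM.2 N (lt_of_le_of_ne hle (fun h => hc h.symm)))
  have : g ∈ N := hg
  rwa [hN] at this

theorem factor {A M : Subgroup G} (hA : ConjComm A) (hM : IsCoatom M) (hAM : ¬ A ≤ M) (g : G) :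
    ∃ l ∈ inn A, ∃ m ∈ M, g = l * m := by
  have htop : inn A ⊔ M = ⊤ := by
    by_contra hc
    have : inn A ⊔ M = M := by
      by_contra hc'
      exact hc (hM.2 _ (lt_of_le_of_ne le_sup_right (fun h => hc' h.symm)))
    apply hAM
    calc A ≤ inn A := le_inn hA
      _ ≤ inn A ⊔ M := le_sup_left
      _ = M := this
  have hg : g ∈ inn A ⊔ M := htop ▸ Subgroup.mem_top g
  obtain ⟨l, hl, m, hm, e⟩ := Subgroup.mem_sup_of_normal_left.1 hg
  exact ⟨l, hl, m, hm, e.symm⟩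

/-- images of traces are conjugate to traces -/
theorem image_trace {A M : Subgroup G} (hA : ConjComm A) (hM : IsCoatom M) (hAM : ¬ A ≤ M)
    (g : G) {B : Subgroup G} (hB : IsC A B) :
    ∃ c ∈ cj g B, cj g (M ⊓ B) = cj c (M ⊓ cj g B) := by
  obtain ⟨l, hl, m, hm, rfl⟩ := factor hA hM hAM g
  have h1 : cj (l * m) B = cj m B := by rw [cj_mul, inn_fix hl (hB.cj m)]
  obtain ⟨c, hc, e⟩ := inn_cj hl (hB.cj m)
  refine ⟨c, by rwa [h1], ?_⟩
  rw [h1, cj_mul, cj_inf m, cj_of_mem hm]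
  exact e _ inf_le_right

/-- every choice function comes from the complement -/
theorem exists_compl [Finite G] {A M K : Subgroup G} (hA : ConjComm A)
    (hK : M.IsComplement' K) (φ : Subgroup G → Subgroup G)
    (hφ : ∀ B, IsC A B → ∃ b ∈ B, φ B = cj b (M ⊓ B)) :
    ∃ k ∈ K, ∀ B, IsC A B → φ B = cj k (M ⊓ cj k⁻¹ B) := by
  obtain ⟨l, hl, e⟩ := transport hA (fun B => M ⊓ B) φ (fun B hB => by
    obtain ⟨b, hb, e⟩ := hφ B hB
    exact ⟨inf_le_right, b, hb, e.symm⟩)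
  have hl' : l ∈ inn A := closure_le_inn hA hl
  -- `l = k * m`
  obtain ⟨⟨k, m⟩, hkm⟩ := hK.symm.2 l
  simp only at hkm
  refine ⟨k, k.2, fun B hB => ?_⟩
  have hkB : cj (k : G)⁻¹ B = cj (m : G) B := by
    have h1 : cj l B = B := inn_fix hl' hB
    rw [← hkm, cj_mul] at h1
    calc cj (k : G)⁻¹ B = cj (k : G)⁻¹ (cj (k : G) (cj (m : G) B)) := by rw [h1]
      _ = cj (m : G) B := cj_inv_cj _ _
  have h2 := e B hB
  rw [← h2, hkB, ← hkm, cj_mul, cj_inf (m : G), cj_of_mem m.2]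

end EY

open EY

theorem compl_transitive {G : Type u} [Group G] [Finite G] (A : Subgroup G) (hA : ConjComm A)
    (M K : Subgroup G) (hM : IsCoatom M) (hAM : ¬ A ≤ M)
    (hnn : ∃ a ∈ A, MulAut.conj a • (M ⊓ A) ≠ M ⊓ A) (hK : M.IsComplement' K)
    (a : G) (ha : a ∈ A) :
    ∃ y ∈ K, MulAut.conj y • A = A ∧ MulAut.conj y • (M ⊓ A) = MulAut.conj a • (M ⊓ A) := by
  classical
  let φ : Subgroup G → Subgroup G := fun B =>
    if h : ∃ y ∈ K, cj y A = B then cj h.choose (M ⊓ A) else M ⊓ B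
  let ψ : Subgroup G → Subgroup G := fun B => if B = A then cj a (M ⊓ A) else M ⊓ B
  have hφ1 : ∀ B, (∃ y ∈ K, cj y A = B) → ∃ y ∈ K, cj y A = B ∧ φ B = cj y (M ⊓ A) := by
    intro B h
    exact ⟨h.choose, h.choose_spec.1, h.choose_spec.2, by simp only [φ, dif_pos h]⟩
  obtain ⟨k₁, hk₁, e₁⟩ := exists_compl hA hK φ (by
    intro B hB
    by_cases h : ∃ y ∈ K, cj y A = B
    · obtain ⟨y, hy, hyB, e⟩ := hφ1 B h
      obtain ⟨c, hc, ec⟩ := image_trace hA hM hAM y (isC_self A)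
      rw [hyB] at hc ec
      exact ⟨c, hc, by rw [e, ec]⟩
    · exact ⟨1, B.one_mem, by rw [cj_one]; simp only [φ, dif_neg h]⟩)
  obtain ⟨k₂, hk₂, e₂⟩ := exists_compl hA hK ψ (by
    intro B hB
    by_cases h : B = A
    · subst h
      exact ⟨a, ha, by simp only [ψ, if_true]⟩
    · exact ⟨1, B.one_mem, by rw [cj_one]; simp only [ψ, if_neg h]⟩)
  -- `z = k₂ k₁⁻¹` maps `φ` to `ψ`
  have hz : ∀ B, IsC A B → ψ B = cj (k₂ * k₁⁻¹) (φ (cj (k₂ * k₁⁻¹)⁻¹ B)) := by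
    intro B hB
    rw [e₂ B hB, e₁ _ (hB.cj _), ← cj_mul (k₂ * k₁⁻¹) k₁, ← cj_mul k₁⁻¹]
    congr 2
    · group
    · congr 1
      group
  have hzA := hz A (isC_self A)
  set z := k₂ * k₁⁻¹ with hzdef
  have hzK : z ∈ K := K.mul_mem hk₂ (K.inv_mem hk₁)
  obtain ⟨y, hy, hyB, e⟩ := hφ1 (cj z⁻¹ A) ⟨z⁻¹, K.inv_mem hzK, rfl⟩
  refine ⟨z * y, K.mul_mem hzK hy, ?_, ?_⟩
  · change cj (z * y) A = A
    rw [cj_mul, hyB, cj_cj_inv]
  · change cj (z * y) (M ⊓ A) = cj a (M ⊓ A)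
    rw [cj_mul, ← e, ← hzA]
    simp only [ψ, if_true]

theorem normalizer_inf {G : Type u} [Group G] [Finite G] (A : Subgroup G) (hA : ConjComm A)
    (M : Subgroup G) (hM : IsCoatom M) (hAM : ¬ A ≤ M)
    (hnn : ∃ a ∈ A, MulAut.conj a • (M ⊓ A) ≠ M ⊓ A)
    (a : G) (ha : a ∈ A) (h : MulAut.conj a • (M ⊓ A) = M ⊓ A) : a ∈ M := by
  refine mem_of_stab hM hnn fun B hB => ?_
  by_cases hBA : A = B
  · subst hBA
    rw [cj_of_mem ha]
    exact h
  · rw [inn_fix (le_inn hA ha) hB]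
    exact cj_eq_of_comm fun x hx => comm_of_ne hA (isC_self A) hB hBA a ha x hx.2

end Pool.Agent.Work.MP_bc729a_al
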