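import Mathlib
import Pool.Agent.Work.MP_bc729a_al.EYBase
import Pool.Agent.Work.MP_bc729a_al.ModT

/-!
# The primes dividing the order of the complement
-/

open scoped Pointwise

namespace Pool.Agent.Work.MP_bc729a_al

universe u

namespace EY

variable {G : Type u} [Group G]

/-- an element of prime order which fixes a trace in every conjugate it normalises fixes a
choice function -/
theorem exists_fixed [Finite G] {A M : Subgroup G} (hA : ConjComm A) (hM : IsCoatom M)
    (hAM : ¬ A ≤ M) (p : ℕ) [Fact p.Prime] {x : G} (hx : orderOf x = p)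
    (hfix : ∀ x : G, x ^ p = 1 → cj x A = A →
      ∃ a ∈ A, cj (x * a) (M ⊓ A) = cj a (M ⊓ A)) :
    ∃ φ : Subgroup G → Subgroup G, (∀ B, IsC A B → ∃ b ∈ B, φ B = cj b (M ⊓ B)) ∧
      ∀ B, IsC A B → cj x (φ B) = φ (cj x B) := by
  classical
  -- the value at representatives
  have hH : ∀ R, IsC A R → ∃ H : Subgroup G, (∃ b ∈ R, H = cj b (M ⊓ R)) ∧
      (cj x R = R → cj x H = H) := by
    intro R hR
    by_cases h : cj x R = R
    · obtain ⟨g, rfl⟩ := hR
      have hx1 : (g⁻¹ * x * g) ^ p = 1 := by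
        have : (g⁻¹ * x * g⁻¹⁻¹) ^ p = g⁻¹ * x ^ p * g⁻¹⁻¹ := conj_pow
        rw [inv_inv] at this
        rw [this, ← hx, pow_orderOf_eq_one]
        group
      have hx2 : cj (g⁻¹ * x * g) A = A := by
        rw [mul_assoc, cj_mul, cj_mul, h, cj_inv_cj]
      obtain ⟨a, ha, e⟩ := hfix _ hx1 hx2
      have hga : cj (g * a) A = cj g A := by rw [cj_mul, cj_of_mem ha]
      obtain ⟨b, hb, eb⟩ := image_trace hA hM hAM (g * a) (isC_self A)
      rw [hga] at hb eb
      refine ⟨cj (g * a) (M ⊓ A), ⟨b, hb, eb⟩, fun _ => ?_⟩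
      rw [← cj_mul]
      have : x * (g * a) = g * (g⁻¹ * x * g * a) := by group
      rw [this, cj_mul, e, ← cj_mul]
    · exact ⟨M ⊓ R, ⟨1, R.one_mem, by rw [cj_one]⟩, fun h' => absurd h' h⟩
  choose! H hH1 hH2 using hH
  -- orbits of `x`
  let s : Setoid (Subgroup G) :=
    { r := fun B C => ∃ i : ℤ, cj (x ^ i) B = C
      iseqv := by
        refine ⟨fun B => ⟨0, by rw [zpow_zero, cj_one]⟩, ?_, ?_⟩
        · rintro B C ⟨i, rfl⟩
          exact ⟨-i, by rw [← cj_mul, ← zpow_add, neg_add_cancel, zpow_zero, cj_one]⟩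
        · rintro B C D ⟨i, rfl⟩ ⟨j, rfl⟩
          exact ⟨j + i, by rw [zpow_add, cj_mul]⟩ }
  let rep : Subgroup G → Subgroup G := fun B => (Quotient.mk s B).out
  have hrep : ∀ B, ∃ i : ℤ, cj (x ^ i) (rep B) = B := fun B => Quotient.mk_out (s := s) B
  have hrepx : ∀ B, rep (cj x B) = rep B := by
    intro B
    have : Quotient.mk s (cj x B) = Quotient.mk s B :=
      Quotient.sound (s := s) ⟨-1, by rw [← cj_mul]; simp [cj_one]⟩
    simp only [rep, this]
  choose i hi using hrep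
  let φ : Subgroup G → Subgroup G := fun B => cj (x ^ i B) (H (rep B))
  have hrepC : ∀ B, IsC A B → IsC A (rep B) := by
    intro B hB
    have := hB.cj (x ^ i B)⁻¹
    rwa [← hi B, ← cj_mul, hi B, inv_mul_cancel, cj_one] at this
  -- independence of the exponent
  have hind : ∀ R, IsC A R → ∀ j : ℤ, cj (x ^ j) R = R → cj (x ^ j) (H R) = H R := by
    intro R hR j hj
    by_cases hxR : cj x R = R
    · have h1 := hH2 R hR hxR
      have h2 : ∀ n : ℕ, cj (x ^ n) (H R) = H R := by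
        intro n
        induction n with
        | zero => rw [pow_zero, cj_one]
        | succ n ih => rw [pow_succ, cj_mul, h1, ih]
      obtain ⟨n, rfl | rfl⟩ := Int.eq_nat_or_neg j
      · rw [zpow_natCast, h2]
      · rw [zpow_neg, zpow_natCast]
        conv_lhs => rw [← h2 n]
        rw [cj_inv_cj]
    · -- then `p ∣ j`
      have hpj : (p : ℤ) ∣ j := by
        by_contra hnd
        have hcop : IsCoprime (p : ℤ) j :=
          ((Nat.prime_iff_prime_int.1 (Fact.out : p.Prime)).coprime_iff_not_dvd).2 hnd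
        obtain ⟨u, v, huv⟩ := hcop
        apply hxR
        have hfixj : ∀ n : ℕ, cj ((x ^ j) ^ n) R = R := by
          intro n
          induction n with
          | zero => rw [pow_zero, cj_one]
          | succ n ih => rw [pow_succ, cj_mul, hj, ih]
        have hfixjz : ∀ v : ℤ, cj ((x ^ j) ^ v) R = R := by
          intro v
          obtain ⟨n, rfl | rfl⟩ := Int.eq_nat_or_neg v
          · rw [zpow_natCast, hfixj]
          · rw [zpow_neg, zpow_natCast]
            conv_lhs => rw [← hfixj n]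
            rw [cj_inv_cj]
        have hx1 : x = (x ^ j) ^ v := by
          have hxp : x ^ (p : ℤ) = 1 := by
            rw [zpow_natCast, ← hx, pow_orderOf_eq_one]
          calc x = x ^ (1 : ℤ) := (zpow_one x).symm
            _ = x ^ (u * p + v * j) := by rw [huv]
            _ = (x ^ j) ^ v := by
              rw [zpow_add, mul_comm u, zpow_mul, hxp, one_zpow, one_mul, mul_comm v, zpow_mul]
        rw [hx1]
        exact hfixjz v
      obtain ⟨k, rfl⟩ := hpj
      have : x ^ ((p : ℤ) * k) = 1 := by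
        rw [zpow_mul, zpow_natCast, ← hx, pow_orderOf_eq_one, one_zpow]
      rw [this, cj_one]
  refine ⟨φ, ?_, ?_⟩
  · intro B hB
    obtain ⟨b, hb, e⟩ := hH1 (rep B) (hrepC B hB)
    simp only [φ]
    rw [e]
    obtain ⟨c, hc, ec⟩ := image_trace hA hM hAM (x ^ i B * b) (hrepC B hB)
    have h1 : cj (x ^ i B * b) (rep B) = B := by rw [cj_mul, cj_of_mem hb, hi]
    rw [h1] at hc ec
    exact ⟨c, hc, by rw [← cj_mul, ec]⟩
  · intro B hB
    simp only [φ]
    rw [hrepx]
    have h0 : cj (x ^ i (cj x B)) (rep B) = cj x B := by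
      have := hi (cj x B)
      rwa [hrepx] at this
    have h1 : cj (x ^ (-(i (cj x B)) + (1 + i B))) (rep B) = rep B := by
      rw [zpow_add, zpow_add, cj_mul, cj_mul, hi B, zpow_one, ← h0, ← cj_mul, ← zpow_add]
      have : -i (cj x B) + i (cj x B) = 0 := by ring
      rw [h0, this, zpow_zero, cj_one]
    have h2 := hind _ (hrepC B hB) _ h1
    rw [zpow_add, cj_mul] at h2
    calc cj x (cj (x ^ i B) (H (rep B))) = cj (x ^ (1 + i B)) (H (rep B)) := by
          rw [zpow_add, zpow_one, cj_mul]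
      _ = cj (x ^ i (cj x B)) (cj (x ^ (-(i (cj x B)))) (cj (x ^ (1 + i B)) (H (rep B)))) := by
          rw [← cj_mul (x ^ i (cj x B)), ← zpow_add, add_neg_cancel, zpow_zero, cj_one]
      _ = cj (x ^ i (cj x B)) (H (rep B)) := by rw [h2]

end EY

open EY

theorem no_prime_card {G : Type u} [Group G] [Finite G] (A : Subgroup G) (hA : ConjComm A)
    (M K : Subgroup G) (hM : IsCoatom M) (hAM : ¬ A ≤ M)
    (hnn : ∃ a ∈ A, MulAut.conj a • (M ⊓ A) ≠ M ⊓ A) (hK : M.IsComplement' K)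
    (p : ℕ) [Fact p.Prime]
    (hfix : ∀ x : G, x ^ p = 1 → MulAut.conj x • A = A →
      ∃ a ∈ A, MulAut.conj (x * a) • (M ⊓ A) = MulAut.conj a • (M ⊓ A)) :
    ¬ p ∣ Nat.card K := by
  intro hp
  obtain ⟨x, hx⟩ := exists_prime_orderOf_dvd_card' (G := K) p hp
  have hx' : orderOf (x : G) = p := by rw [Subgroup.orderOf_coe, hx]
  obtain ⟨φ, hφ, hxφ⟩ := exists_fixed hA hM hAM p hx' hfix
  obtain ⟨k, hk, e⟩ := exists_compl hA hK φ hφ
  -- `k⁻¹ x k ∈ M`
  have hmem : k⁻¹ * x * k ∈ M := by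
    refine mem_of_stab hM hnn fun B hB => ?_
    have h1 := hxφ (cj k B) (hB.cj k)
    rw [e _ (hB.cj k), e _ ((hB.cj k).cj x), cj_inv_cj] at h1
    calc cj (k⁻¹ * x * k) (M ⊓ B) = cj k⁻¹ (cj x (cj k (M ⊓ B))) := by
          rw [mul_assoc, cj_mul, cj_mul]
      _ = M ⊓ cj k⁻¹ (cj x (cj k B)) := by rw [h1, cj_inv_cj]
      _ = M ⊓ cj (k⁻¹ * x * k) B := by rw [mul_assoc, cj_mul, cj_mul]
  have hmemK : k⁻¹ * x * k ∈ K := K.mul_mem (K.mul_mem (K.inv_mem hk) x.2) hk
  have hdisj := hK.disjoint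
  have h1 : k⁻¹ * (x : G) * k = 1 := by
    have := (Subgroup.disjoint_def.1 hdisj) hmem hmemK
    exact this
  have h2 : (x : G) = 1 := by
    have : (x : G) = k * (k⁻¹ * x * k) * k⁻¹ := by group
    rw [this, h1]
    group
  rw [h2, orderOf_one] at hx'
  exact (Fact.out : p.Prime).one_lt.ne hx'

namespace EY

/-- the action of `G` on its subgroups by conjugation -/
@[reducible] def act (G : Type u) [Group G] : MulAction G (Subgroup G) where
  smul g B := cj g B
  one_smul := cj_one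
  mul_smul := cj_mul

/-- the normalizer, as a stabilizer -/
def stb {G : Type u} [Group G] (C : Subgroup G) : Subgroup G where
  carrier := {g | cj g C = C}
  mul_mem' := by
    intro g h hg hh
    have hg' : cj g C = C := hg
    have hh' : cj h C = C := hh
    change cj (g * h) C = C
    rw [cj_mul, hh', hg']
  one_mem' := cj_one C
  inv_mem' := by
    intro g hg
    have hg' : cj g C = C := hg
    change cj g⁻¹ C = C
    conv_lhs => rw [← hg']
    exact cj_inv_cj g C

theorem mem_stb {G : Type u} [Group G] {C : Subgroup G} {g : G} : g ∈ stb C ↔ cj g C = C :=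
  Iff.rfl

theorem orbit_card {G : Type u} [Group G] (N C : Subgroup G) :
    Set.ncard {D : Subgroup G | ∃ n ∈ N, cj n C = D} = (stb C).relIndex N := by
  letI := act G
  have h1 := MulAction.index_stabilizer (G := N) (x := C)
  have h2 : MulAction.stabilizer N C = (stb C).subgroupOf N := by
    ext n
    rw [MulAction.mem_stabilizer_iff, Subgroup.mem_subgroupOf, mem_stb]
    exact Iff.rfl
  have h3 : MulAction.orbit N C = {D : Subgroup G | ∃ n ∈ N, cj n C = D} := by
    ext D
    constructor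
    · rintro ⟨n, hn⟩
      exact ⟨n, n.2, hn⟩
    · rintro ⟨n, hn, e⟩
      exact ⟨⟨n, hn⟩, e⟩
  rw [h2, h3] at h1
  rw [← h1]
  rfl

theorem ncard_traces {G : Type u} [Group G] [Finite G] (A : Subgroup G) (hA : ConjComm A)
    (M : Subgroup G) (hM : IsCoatom M) (hAM : ¬ A ≤ M)
    (hnn : ∃ a ∈ A, cj a (M ⊓ A) ≠ M ⊓ A) :
    Set.ncard {D : Subgroup G | ∃ a ∈ A, cj a (M ⊓ A) = D} = M.relIndex A := by
  rw [orbit_card, Subgroup.relIndex, Subgroup.relIndex]
  congr 1
  ext a
  rw [Subgroup.mem_subgroupOf, Subgroup.mem_subgroupOf, mem_stb]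
  constructor
  · intro h
    exact normalizer_inf A hA M hM hAM hnn a a.2 h
  · intro h
    exact cj_of_mem ⟨h, a.2⟩

end EY

theorem relIndex_dvd_card {G : Type u} [Group G] [Finite G] (A : Subgroup G) (hA : ConjComm A)
    (M K : Subgroup G) (hM : IsCoatom M) (hAM : ¬ A ≤ M)
    (hnn : ∃ a ∈ A, MulAut.conj a • (M ⊓ A) ≠ M ⊓ A) (hK : M.IsComplement' K) :
    M.relIndex A ∣ Nat.card K := by
  rw [← ncard_traces A hA M hM hAM hnn]
  have hset : {D : Subgroup G | ∃ a ∈ A, cj a (M ⊓ A) = D} =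
      {D : Subgroup G | ∃ y ∈ K ⊓ stb A, cj y (M ⊓ A) = D} := by
    ext D
    constructor
    · rintro ⟨a, ha, rfl⟩
      obtain ⟨y, hy, hyA, e⟩ := compl_transitive A hA M K hM hAM hnn hK a ha
      exact ⟨y, ⟨hy, hyA⟩, e⟩
    · rintro ⟨y, hy, rfl⟩
      obtain ⟨c, hc, e⟩ := image_trace hA hM hAM y (isC_self A)
      have hyA : cj y A = A := hy.2
      rw [hyA] at hc e
      exact ⟨c, hc, e.symm⟩
  rw [hset, orbit_card]
  exact ((stb (M ⊓ A)).subgroupOf (K ⊓ stb A)).index_dvd_card.trans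
    (Subgroup.card_dvd_of_le inf_le_left)

theorem prime_dvd {G : Type u} [Group G] [Finite G] (A : Subgroup G) (hA : ConjComm A)
    (M K : Subgroup G) (hM : IsCoatom M) (hAM : ¬ A ≤ M)
    (hnn : ∃ a ∈ A, MulAut.conj a • (M ⊓ A) ≠ M ⊓ A) (hK : M.IsComplement' K)
    (p : ℕ) (hp : p.Prime) (h : p ∣ Nat.card K) : p ∣ M.relIndex A := by
  have : Fact p.Prime := ⟨hp⟩
  by_contra hnd
  refine no_prime_card A hA M K hM hAM hnn hK p ?_ h
  intro x hxp hxA
  rw [← ncard_traces A hA M hM hAM hnn, ← Nat.card_coe_set_eq] at hnd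
  -- powers of `x` normalise `A`
  have hPA : ∀ y ∈ Subgroup.zpowers x, cj y A = A := by
    have hle : Subgroup.zpowers x ≤ stb A := by
      rw [Subgroup.zpowers_le]
      exact hxA
    exact fun y hy => hle hy
  letI act' : MulAction (Subgroup.zpowers x)
      {D : Subgroup G | ∃ a ∈ A, cj a (M ⊓ A) = D} :=
    { smul := fun y D => ⟨cj (y : G) D.1, by
        obtain ⟨a, ha, e⟩ := D.2
        obtain ⟨c, hc, ec⟩ := image_trace hA hM hAM ((y : G) * a) (isC_self A)
        have h1 : cj ((y : G) * a) A = A := by rw [cj_mul, cj_of_mem ha, hPA y y.2]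
        rw [h1] at hc ec
        exact ⟨c, hc, by rw [← ec, cj_mul, e]⟩⟩
      one_smul := fun D => Subtype.ext (cj_one D.1)
      mul_smul := fun y z D => Subtype.ext (cj_mul (y : G) (z : G) D.1) }
  have hPg : IsPGroup p (Subgroup.zpowers x) := by
    rintro ⟨y, hy⟩
    refine ⟨1, Subtype.ext ?_⟩
    obtain ⟨j, rfl⟩ := Subgroup.mem_zpowers_iff.1 hy
    change (x ^ j) ^ p ^ 1 = 1
    rw [pow_one, ← zpow_natCast, ← zpow_mul, mul_comm, zpow_mul, zpow_natCast, hxp, one_zpow]
  obtain ⟨D, hD⟩ := hPg.nonempty_fixed_point_of_prime_not_dvd_card _ hnd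
  obtain ⟨a, ha, e⟩ := D.2
  refine ⟨a, ha, ?_⟩
  have h1 := congrArg Subtype.val (hD ⟨x, Subgroup.mem_zpowers x⟩)
  have h2 : cj x D.1 = D.1 := h1
  change cj (x * a) (M ⊓ A) = cj a (M ⊓ A)
  rw [cj_mul, e, h2]

end Pool.Agent.Work.MP_bc729a_al
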