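import Pool.Agent.Work.MP_bc729a_al.Lift
import Pool.Agent.Work.MP_bc729a_al.Alt
import Pool.Agent.Work.MP_bc729a_al.ModA1
import Pool.Agent.Work.MP_bc729a_al.ModA2
import Pool.Agent.Work.MP_bc729a_al.ModE
import Pool.Agent.Work.MP_bc729a_al.ModF
import Pool.Agent.Work.MP_bc729a_al.ModN
import Pool.Agent.Work.MP_bc729a_al.ModY

open scoped Pointwise
open Equiv

namespace Pool.Agent.Work.MP_bc729a_al

universe u v

section generic

variable {Q : Type u} [Group Q] [Finite Q] {n : ℕ} {A : Subgroup Q}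
  (e : A ≃* alternatingGroup (Fin n))

lemma autSigma (hn : 5 ≤ n) (h6 : n ≠ 6)
    (α : alternatingGroup (Fin n) ≃* alternatingGroup (Fin n)) :
    ∃ σ : Perm (Fin n), ∀ x : alternatingGroup (Fin n),
      ((α x : alternatingGroup (Fin n)) : Perm (Fin n)) = σ * (x : Perm (Fin n)) * σ⁻¹ :=
  conj_of_threeCycle hn α fun x hx => threeCycle_of_aut hn h6 α x hx

omit [Finite Q] in
lemma autOf_pow_apply {g : Q} (h : MulAut.conj g • A = A) (σ : Perm (Fin n))
    (hσ : ∀ x : alternatingGroup (Fin n),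
      ((autOf e g h x : alternatingGroup (Fin n)) : Perm (Fin n)) = σ * (x : Perm (Fin n)) * σ⁻¹)
    (k : ℕ) (x : A) (hk : g ^ k * x * (g ^ k)⁻¹ ∈ A) :
    ((e ⟨g ^ k * x * (g ^ k)⁻¹, hk⟩ : alternatingGroup (Fin n)) : Perm (Fin n)) =
      σ ^ k * (e x : Perm (Fin n)) * (σ ^ k)⁻¹ := by
  induction k with
  | zero => simp
  | succ k ih =>
    have hk' : g ^ k * x * (g ^ k)⁻¹ ∈ A := by
      have := mem_of_smul_eq' h hk
      have h2 : g⁻¹ * (g ^ (k + 1) * x * (g ^ (k + 1))⁻¹) * g = g ^ k * x * (g ^ k)⁻¹ := by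
        rw [pow_succ']; group
      rwa [h2] at this
    have h1 := ih hk'
    have h2 : (⟨g ^ (k + 1) * x * (g ^ (k + 1))⁻¹, hk⟩ : A) =
        conjAut g h ⟨g ^ k * x * (g ^ k)⁻¹, hk'⟩ := by
      ext
      change g ^ (k + 1) * x * (g ^ (k + 1))⁻¹ = g * (g ^ k * x * (g ^ k)⁻¹) * g⁻¹
      rw [pow_succ']; group
    rw [h2, ← autOf_apply, hσ, h1, pow_succ']
    group

omit [Finite Q] in
lemma sigma_pow_eq_one (hn : 4 ≤ n) {g : Q} (h : MulAut.conj g • A = A) (σ : Perm (Fin n))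
    (hσ : ∀ x : alternatingGroup (Fin n),
      ((autOf e g h x : alternatingGroup (Fin n)) : Perm (Fin n)) = σ * (x : Perm (Fin n)) * σ⁻¹)
    (k : ℕ) (hk : g ^ k = 1) : σ ^ k = 1 := by
  apply eq_one_of_commute hn
  intro x
  obtain ⟨y, rfl⟩ := e.surjective x
  have := autOf_pow_apply e h σ hσ k y (by simp [hk])
  rw [← this]
  simp [hk]

lemma not_normal_stab (hn : 5 ≤ n) (s : Finset (Fin n)) (hs : IsCoatom (stab s)) :
    ∃ a : alternatingGroup (Fin n), MulAut.conj a • stab s ≠ stab s := by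
  by_contra hcon
  push Not at hcon
  have hN : (stab s).Normal := by
    constructor
    intro x hx g
    have h1 := hcon g
    rw [← h1, mem_conj_smul]
    simpa [mul_assoc] using hx
  haveI : IsSimpleGroup (alternatingGroup (Fin n)) := alternatingGroup.isSimpleGroup (by simpa using hn)
  rcases hN.eq_bot_or_eq_top with h | h
  · exact stab_ne_bot hn s h
  · exact hs.1 h

lemma exists_MK (hQ : MaxCompl Q) (hA : ConjComm A) (hn : 5 ≤ n) (h6 : n ≠ 6)
    (s : Finset (Fin n)) (h0 : 0 < s.card) (h1 : s.card < n) (h2 : 2 * s.card ≠ n) :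
    ∃ M K : Subgroup Q, IsCoatom M ∧ ¬ A ≤ M ∧ M ⊓ A = lift e (stab s) ∧ M.IsComplement' K ∧
      ∃ a ∈ A, MulAut.conj a • (M ⊓ A) ≠ M ⊓ A := by
  have hco := stab_coatom s h0 h1 h2
  obtain ⟨b, hb⟩ := not_normal_stab hn s hco
  have hnn : ∃ a ∈ A, MulAut.conj a • lift e (stab s) ≠ lift e (stab s) := by
    refine ⟨e.symm b, (e.symm b).2, ?_⟩
    rw [conj_smul_lift_mem e (e.symm b).2]
    intro h
    apply hb
    have := lift_injective e h
    simpa using this
  have hinv : ∀ g : Q, MulAut.conj g • A = A → ∃ a ∈ A,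
      MulAut.conj g • lift e (stab s) = MulAut.conj a • lift e (stab s) := by
    intro g hg
    obtain ⟨σ, hσ⟩ := autSigma hn h6 (autOf e g hg)
    rw [conj_smul_lift e g hg, map_stab _ σ hσ]
    obtain ⟨a, ha⟩ := exists_alt_smul (by omega) s (s.map σ.toEmbedding) (by simp)
    refine ⟨e.symm a, (e.symm a).2, ?_⟩
    rw [conj_smul_lift_mem e (e.symm a).2]
    have h3 : (e ⟨((e.symm a : A) : Q), (e.symm a).2⟩) = a := by simp
    rw [h3, conj_smul_stab a s _ ha]
  obtain ⟨M, hM, hAM, hHM⟩ := exists_max A (lift e (stab s)) hA (lift_le e _) hnn hinv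
  obtain ⟨K, hK⟩ := hQ M hM
  have hMA : M ⊓ A = lift e (stab s) := by
    obtain ⟨B, hB⟩ := exists_lift e (M ⊓ A) inf_le_right
    have h3 : stab s ≤ B := by
      rw [← lift_mono e, ← hB]
      exact le_inf hHM (lift_le e _)
    have h4 : B ≠ ⊤ := by
      rintro rfl
      apply hAM
      rw [lift_top] at hB
      rw [← hB]
      exact inf_le_left
    have h5 : B = stab s := by
      rcases eq_or_lt_of_le h3 with h | h
      · exact h.symm
      · exact absurd (hco.2 B h) h4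
    rw [hB, h5]
  refine ⟨M, K, hM, hAM, hMA, hK, ?_⟩
  rw [hMA]
  exact hnn

include e in
theorem generic_case (hQ : MaxCompl Q) (hA : ConjComm A) (hn : 5 ≤ n) (h6 : n ≠ 6) (h7 : n ≠ 7)
    (h15 : n ≠ 15) : False := by
  obtain ⟨p, a, hp, ha0, han, ha2, hpa, hpc⟩ := exists_choose n hn h6 h7 h15
  haveI hpf : Fact p.Prime := ⟨by rcases hp with rfl | rfl <;> norm_num⟩
  obtain ⟨s, hs⟩ : ∃ s : Finset (Fin n), s.card = a := by
    obtain ⟨s, -, hs⟩ := Finset.exists_subset_card_eq (s := (Finset.univ : Finset (Fin n)))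
      (n := a) (by simpa using han.le)
    exact ⟨s, hs⟩
  obtain ⟨M, K, hM, hAM, hMA, hK, hnn⟩ := exists_MK e hQ hA hn h6 s (by omega) (by omega)
    (by omega)
  have hd : p ∣ Nat.card K := by
    refine dvd_trans ?_ (relIndex_dvd_card A hA M K hM hAM hnn hK)
    rw [← Subgroup.inf_relIndex_right, hMA, relIndex_lift, stab_index (by omega), hs]
    exact hpc
  refine no_prime_card A hA M K hM hAM hnn hK p ?_ hd
  intro x hx hxA
  obtain ⟨σ, hσ⟩ := autSigma hn h6 (autOf e x hxA)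
  have hσp := sigma_pow_eq_one e (by omega) hxA σ hσ p hx
  obtain ⟨t, ht, htσ⟩ := exists_invariant p σ hσp a (by simpa using han.le) hpa
  obtain ⟨b, hb⟩ := exists_alt_smul (by omega) s t (by omega)
  refine ⟨e.symm b, (e.symm b).2, ?_⟩
  have h3 : (e ⟨((e.symm b : A) : Q), (e.symm b).2⟩) = b := by simp
  have h4 : MulAut.conj ((e.symm b : A) : Q) • (M ⊓ A) = lift e (stab t) := by
    rw [hMA, conj_smul_lift_mem e (e.symm b).2, h3, conj_smul_stab b s t hb]
  rw [map_mul, mul_smul, h4, conj_smul_lift e x hxA, map_stab _ σ hσ]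
  congr 2
  apply Finset.eq_of_subset_of_card_le
  · intro i hi
    rw [Finset.mem_map] at hi
    obtain ⟨j, hj, rfl⟩ := hi
    exact htσ j hj
  · simp

end generic

end Pool.Agent.Work.MP_bc729a_al
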