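import Pool.Agent.Work.MP_bc729a_al.Defs

open scoped Pointwise
open Equiv

namespace Pool.Agent.Work.MP_bc729a_al

universe u v

section lifting

variable {Q : Type u} [Group Q] {S : Type v} [Group S] {A : Subgroup Q} (e : A ≃* S)

/-- the subgroup of `Q` corresponding to a subgroup of `S ≃* A ≤ Q` -/
def lift (B : Subgroup S) : Subgroup Q := (B.comap e.toMonoidHom).map A.subtype

lemma mem_lift {B : Subgroup S} {x : Q} : x ∈ lift e B ↔ ∃ h : x ∈ A, e ⟨x, h⟩ ∈ B := by
  simp only [lift, Subgroup.mem_map, Subgroup.mem_comap, Subgroup.coe_subtype, Subtype.exists,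
    exists_and_right, exists_eq_right]
  rfl

lemma lift_le (B : Subgroup S) : lift e B ≤ A := fun _ hx => ((mem_lift e).1 hx).1

lemma lift_injective {B C : Subgroup S} (h : lift e B = lift e C) : B = C := by
  ext s
  have h1 : ((e.symm s : A) : Q) ∈ lift e B ↔ ((e.symm s : A) : Q) ∈ lift e C := by rw [h]
  simp only [mem_lift, SetLike.coe_mem, exists_true_left, Subtype.coe_eta,
    MulEquiv.apply_symm_apply] at h1
  exact h1

lemma mem_conj_smul {H : Subgroup Q} {g x : Q} : x ∈ MulAut.conj g • H ↔ g⁻¹ * x * g ∈ H := by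
  rw [Subgroup.mem_pointwise_smul_iff_inv_smul_mem]
  simp [MulAut.smul_def]

lemma mem_of_smul_eq {g x : Q} (h : MulAut.conj g • A = A) (hx : x ∈ A) : g * x * g⁻¹ ∈ A := by
  rw [← h, mem_conj_smul]; simpa [mul_assoc] using hx

lemma mem_of_smul_eq' {g x : Q} (h : MulAut.conj g • A = A) (hx : x ∈ A) : g⁻¹ * x * g ∈ A := by
  rw [← h, mem_conj_smul] at hx; exact hx

/-- conjugation by `g` as an automorphism of `A` -/
def conjAut (g : Q) (h : MulAut.conj g • A = A) : A ≃* A where
  toFun x := ⟨g * x * g⁻¹, mem_of_smul_eq h x.2⟩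
  invFun x := ⟨g⁻¹ * x * g, mem_of_smul_eq' h x.2⟩
  left_inv x := by ext; simp [mul_assoc]
  right_inv x := by ext; simp [mul_assoc]
  map_mul' x y := by ext; simp [mul_assoc]

/-- conjugation by `g` transported to `S` -/
def autOf (g : Q) (h : MulAut.conj g • A = A) : S ≃* S := e.symm.trans ((conjAut g h).trans e)

lemma autOf_apply (g : Q) (h : MulAut.conj g • A = A) (x : A) :
    autOf e g h (e x) = e (conjAut g h x) := by
  simp [autOf]

lemma conj_smul_lift (g : Q) (h : MulAut.conj g • A = A) (B : Subgroup S) :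
    MulAut.conj g • lift e B = lift e (B.map (autOf e g h).toMonoidHom) := by
  ext x
  rw [mem_conj_smul, mem_lift, mem_lift]
  constructor
  · rintro ⟨h1, h2⟩
    have hx : x ∈ A := by rw [← h, mem_conj_smul]; exact h1
    refine ⟨hx, ?_⟩
    rw [Subgroup.mem_map]
    refine ⟨_, h2, ?_⟩
    change autOf e g h (e _) = _
    rw [autOf_apply]
    congr 1
    ext
    simp [conjAut, mul_assoc]
  · rintro ⟨h1, h2⟩
    rw [Subgroup.mem_map] at h2
    obtain ⟨b, hb, hb2⟩ := h2
    have h3 : g⁻¹ * x * g ∈ A := by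
      rw [← h, mem_conj_smul] at h1; exact h1
    refine ⟨h3, ?_⟩
    have h4 : autOf e g h (e ⟨_, h3⟩) = autOf e g h b := by
      rw [autOf_apply]
      change _ = (autOf e g h).toMonoidHom b
      rw [hb2]
      congr 1
      ext
      simp [conjAut, mul_assoc]
    rw [(autOf e g h).injective h4]
    exact hb

lemma conj_mem_smul {a : Q} (ha : a ∈ A) : MulAut.conj a • A = A := by
  ext x
  rw [mem_conj_smul]
  constructor
  · intro h
    have := A.mul_mem (A.mul_mem ha h) (A.inv_mem ha)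
    simpa [mul_assoc] using this
  · intro h
    exact A.mul_mem (A.mul_mem (A.inv_mem ha) h) ha

lemma autOf_mem {a : Q} (ha : a ∈ A) (x : S) :
    autOf e a (conj_mem_smul ha) x = e ⟨a, ha⟩ * x * (e ⟨a, ha⟩)⁻¹ := by
  obtain ⟨y, rfl⟩ := e.surjective x
  rw [autOf_apply, ← map_mul, ← map_inv, ← map_mul]
  rfl

lemma conj_smul_lift_mem {a : Q} (ha : a ∈ A) (B : Subgroup S) :
    MulAut.conj a • lift e B = lift e (MulAut.conj (e ⟨a, ha⟩) • B) := by
  rw [conj_smul_lift e a (conj_mem_smul ha)]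
  congr 1
  ext x
  rw [mem_conj_smul, Subgroup.mem_map]
  constructor
  · rintro ⟨y, hy, rfl⟩
    change _ * (autOf e a _ y) * _ ∈ B
    rw [autOf_mem e ha]
    simpa [mul_assoc] using hy
  · intro hx
    refine ⟨_, hx, ?_⟩
    change autOf e a _ _ = _
    rw [autOf_mem e ha]
    simp [mul_assoc]

/-- every subgroup of `A` is a lift -/
lemma exists_lift (H : Subgroup Q) (hH : H ≤ A) : ∃ B : Subgroup S, H = lift e B := by
  refine ⟨(H.subgroupOf A).map e.toMonoidHom, ?_⟩
  ext x
  rw [mem_lift]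
  constructor
  · intro hx
    refine ⟨hH hx, ?_⟩
    rw [Subgroup.mem_map]
    exact ⟨⟨x, hH hx⟩, by rwa [Subgroup.mem_subgroupOf], rfl⟩
  · rintro ⟨h1, h2⟩
    rw [Subgroup.mem_map] at h2
    obtain ⟨y, hy, hy2⟩ := h2
    have : y = ⟨x, h1⟩ := e.injective hy2
    subst this
    rwa [Subgroup.mem_subgroupOf] at hy

lemma lift_mono {B C : Subgroup S} : lift e B ≤ lift e C ↔ B ≤ C := by
  constructor
  · intro h s hs
    have h1 : ((e.symm s : A) : Q) ∈ lift e B := by
      rw [mem_lift]; exact ⟨(e.symm s).2, by simpa using hs⟩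
    have h2 := h h1
    rw [mem_lift] at h2
    obtain ⟨_, h3⟩ := h2
    simpa using h3
  · intro h x hx
    rw [mem_lift] at hx ⊢
    exact ⟨hx.1, h hx.2⟩

lemma lift_top : lift e (⊤ : Subgroup S) = A := by
  ext x; rw [mem_lift]; simp

lemma relIndex_lift (B : Subgroup S) : (lift e B).relIndex A = B.index := by
  have h1 : (lift e B).subgroupOf A = B.comap e.toMonoidHom := by
    ext x
    rw [Subgroup.mem_subgroupOf, mem_lift, Subgroup.mem_comap]
    simp only [SetLike.coe_mem, Subtype.coe_eta, exists_true_left]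
    rfl
  rw [Subgroup.relIndex, h1, Subgroup.index_comap_of_surjective]
  exact e.surjective

end lifting

end Pool.Agent.Work.MP_bc729a_al
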