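import Mathlib

set_option autoImplicit false

open scoped Pointwise
open Equiv

namespace Pool.Agent.Work.MP_bc729a_al

theorem no_odd_transitive {X : Type} [Fintype X] [DecidableEq X] (p : ℕ) [Fact p.Prime]
    (hp2 : p ≠ 2) (hcard : Fintype.card X = p + 2) (T : Subgroup (Perm X))
    (hodd : Odd (Nat.card T)) (htr : ∀ x y : X, ∃ t ∈ T, t x = y) (hpT : p ∣ Nat.card T) :
    False := by
  have hp : p.Prime := Fact.out
  have hp3 : 3 ≤ p := by
    have := hp.two_le
    omega
  obtain ⟨c', hc'⟩ := exists_prime_orderOf_dvd_card' p hpT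
  set c : Perm X := (c' : Perm X) with hc
  have hcT : c ∈ T := c'.2
  have hord : orderOf c = p := by
    rw [hc, Subgroup.orderOf_coe, hc']
  have hcyc : c.IsCycle := by
    apply Perm.isCycle_of_prime_order'
    · rw [hord]; exact hp
    · rw [hord, hcard]; omega
  have hsup : c.support.card = p := by rw [← hcyc.orderOf, hord]
  have hsupc : (c.supportᶜ).card = 2 := by
    rw [Finset.card_compl, hcard, hsup]; omega
  obtain ⟨u, v, huv, huv'⟩ := Finset.card_eq_two.mp hsupc
  have hfix : ∀ x, c x = x ↔ x = u ∨ x = v := by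
    intro x
    have h1 : x ∈ c.supportᶜ ↔ c x = x := by
      rw [Finset.mem_compl, Perm.notMem_support]
    rw [← h1, huv']
    simp
  have hcu : c u = u := (hfix u).mpr (Or.inl rfl)
  have hcv : c v = v := (hfix v).mpr (Or.inr rfl)
  -- the stabiliser of `u` fixes `v`
  have hstab : ∀ s ∈ T, s u = u → s v = v := by
    intro s hs hsu
    by_contra hsv
    set H : Subgroup (Perm X) := T ⊓ MulAction.stabilizer (Perm X) u with hH
    have hsH : s ∈ H := ⟨hs, hsu⟩
    have hcH : c ∈ H := ⟨hcT, hcu⟩
    have horb : MulAction.orbit H v = {u}ᶜ := by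
      ext x
      rw [Set.mem_compl_iff, Set.mem_singleton_iff]
      constructor
      · rintro ⟨h, rfl⟩ hx
        have h1 : (h : Perm X) u = u := h.2.2
        have h2 : (h : Perm X) v = u := hx
        exact huv ((h : Perm X).injective (h1.trans h2.symm))
      · intro hxu
        by_cases hxv : x = v
        · rw [hxv]
          exact MulAction.mem_orbit_self v
        · have hcx : c x ≠ x := by
            rw [Ne, hfix]
            push Not
            exact ⟨hxu, hxv⟩
          have hsvu : s v ≠ u := by
            intro h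
            exact huv (s.injective (hsu.trans h.symm))
          have hcs : c (s v) ≠ s v := by
            rw [Ne, hfix]
            push Not
            exact ⟨hsvu, hsv⟩
          obtain ⟨i, hi⟩ := hcyc.exists_zpow_eq hcs hcx
          refine ⟨⟨c ^ i * s, H.mul_mem (H.zpow_mem hcH i) hsH⟩, ?_⟩
          show (c ^ i * s) v = x
          rw [Perm.mul_apply, hi]
    have h1 := MulAction.index_stabilizer H v
    have h2 : ({u}ᶜ : Set X).ncard = p + 1 := by
      rw [Set.ncard_compl, Set.ncard_singleton, Nat.card_eq_fintype_card, hcard]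
      omega
    rw [horb, h2] at h1
    have h3 : p + 1 ∣ Nat.card T := by
      rw [← h1]
      exact (Subgroup.index_dvd_card _).trans (Subgroup.card_dvd_of_le inf_le_left)
    have h4 : Odd (p + 1) := hodd.of_dvd_nat h3
    have h5 : Odd p := hp.odd_of_ne_two hp2
    rw [Nat.odd_add_one] at h4
    exact h4 h5
  obtain ⟨t, ht, htu⟩ := htr u v
  have htv : t v = u := by
    have h1 : (t⁻¹ * c * t) ∈ T := T.mul_mem (T.mul_mem (T.inv_mem ht) hcT) ht
    have h2 : (t⁻¹ * c * t) u = u := by
      rw [Perm.mul_apply, Perm.mul_apply, htu, hcv, Perm.inv_eq_iff_eq, htu]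
    have h3 := hstab _ h1 h2
    rw [Perm.mul_apply, Perm.mul_apply, Perm.inv_eq_iff_eq] at h3
    rcases (hfix (t v)).mp h3 with h4 | h4
    · exact h4
    · exfalso
      exact huv (t.injective (htu.trans h4.symm))
  -- `t` has even order
  have hpow : ∀ k : ℕ, (t ^ (2 * k)) u = u := by
    intro k
    induction k with
    | zero => simp
    | succ k ih =>
      have : 2 * (k + 1) = 2 * k + 1 + 1 := by ring
      rw [this, pow_succ, pow_succ, Perm.mul_apply, Perm.mul_apply, htu, htv, ih]
  obtain ⟨m, hm⟩ := hodd
  have h1 : t ^ (Nat.card T) = 1 := by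
    have : (⟨t, ht⟩ : T) ^ (Nat.card T) = 1 := pow_card_eq_one'
    exact congrArg Subtype.val this
  have h2 : (t ^ (Nat.card T)) u = u := by rw [h1]; rfl
  rw [hm, pow_succ', Perm.mul_apply, hpow, htu] at h2
  exact huv h2.symm

end Pool.Agent.Work.MP_bc729a_al
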