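import Pool.Agent.Work.MP_bc729a_al.L2.Gen
import Pool.Agent.Work.MP_bc729a_al.ModS

/-! A necessary condition for a simple group `S` to be a composition factor of a finite group with
complemented maximal subgroups, in terms of `Aut S`. -/

open scoped Pointwise

namespace Pool.Agent.Work.MP_bc729a_al.Reduct

universe u v

section

variable {Q : Type u} [Group Q] {S : Type v} [Group S] {A : Subgroup Q} (e : A ≃* S)

/-- `y` normalises `A` and induces `α` on `S ≃* A` -/
def RelA (y : Q) (α : MulAut S) : Prop :=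
  MulAut.conj y • A = A ∧ ∀ x x' : A, (x' : Q) = y * x * y⁻¹ → e x' = α (e x)

lemma relA_autOf (y : Q) (h : MulAut.conj y • A = A) : RelA e y (autOf e y h) := by
  refine ⟨h, fun x x' hx => ?_⟩
  rw [autOf_apply]
  congr 1
  exact Subtype.ext hx

lemma relA_one : RelA e (1 : Q) 1 := by
  refine ⟨by simp, fun x x' hx => ?_⟩
  have : x' = x := Subtype.ext (by simpa using hx)
  simp [this]

lemma relA_mul {y z : Q} {σ τ : MulAut S} (h1 : RelA e y σ) (h2 : RelA e z τ) :
    RelA e (y * z) (σ * τ) := by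
  refine ⟨by rw [map_mul, mul_smul, h2.1, h1.1], fun x x' hx => ?_⟩
  have hz : z * (x : Q) * z⁻¹ ∈ A := mem_of_smul_eq h2.1 x.2
  have h3 := h2.2 x ⟨_, hz⟩ rfl
  have h4 := h1.2 ⟨_, hz⟩ x' (by rw [hx]; simp [mul_assoc])
  rw [h4, h3]
  rfl

lemma relA_inv {y : Q} {σ : MulAut S} (h1 : RelA e y σ) : RelA e y⁻¹ σ⁻¹ := by
  refine ⟨by rw [map_inv, inv_smul_eq_iff, h1.1], fun x x' hx => ?_⟩
  have h3 := h1.2 x' x (by rw [hx]; simp [mul_assoc])
  rw [h3]
  simp

lemma relA_unique {y : Q} {σ τ : MulAut S} (h1 : RelA e y σ) (h2 : RelA e y τ) : σ = τ := by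
  ext x
  obtain ⟨z, rfl⟩ := e.surjective x
  have h3 : y * (z : Q) * y⁻¹ ∈ A := mem_of_smul_eq h1.1 z.2
  rw [← h1.2 z ⟨_, h3⟩ rfl, ← h2.2 z ⟨_, h3⟩ rfl]

lemma relA_pow {y : Q} {σ : MulAut S} (h1 : RelA e y σ) (k : ℕ) : RelA e (y ^ k) (σ ^ k) := by
  induction k with
  | zero => simpa using relA_one e
  | succ k ih => rw [pow_succ, pow_succ]; exact relA_mul e ih h1

/-- the automorphisms induced by `K` -/
def indA (K : Subgroup Q) : Subgroup (MulAut S) where
  carrier := {σ | ∃ y ∈ K, RelA e y σ}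
  one_mem' := ⟨1, K.one_mem, relA_one e⟩
  mul_mem' := by
    rintro σ τ ⟨y, hy, h1⟩ ⟨z, hz, h2⟩
    exact ⟨y * z, K.mul_mem hy hz, relA_mul e h1 h2⟩
  inv_mem' := by
    rintro σ ⟨y, hy, h1⟩
    exact ⟨y⁻¹, K.inv_mem hy, relA_inv e h1⟩

lemma orderOf_dvd_of_relA {y : Q} {σ : MulAut S} (h : RelA e y σ) : orderOf σ ∣ orderOf y := by
  apply orderOf_dvd_of_pow_eq_one
  have := relA_pow e h (orderOf y)
  rw [pow_orderOf_eq_one] at this
  exact relA_unique e this (relA_one e)

lemma prime_dvd_indA [Finite S] [Finite Q] (K : Subgroup Q) (q : ℕ) (hq : q.Prime)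
    (h : q ∣ Nat.card (indA e K)) : q ∣ Nat.card K := by
  have : Fact q.Prime := ⟨hq⟩
  have hf : Finite (MulAut S) := Finite.of_injective (fun α : MulAut S => (α : S → S))
    DFunLike.coe_injective
  obtain ⟨σ, hσ⟩ := exists_prime_orderOf_dvd_card' (G := indA e K) q h
  obtain ⟨y, hy, hr⟩ := σ.2
  have h1 := orderOf_dvd_of_relA e hr
  have h2 : orderOf (σ : MulAut S) = q := by rw [← hσ, Subgroup.orderOf_coe]
  rw [h2] at h1
  refine h1.trans ?_
  have h3 : orderOf (⟨y, hy⟩ : K) = orderOf y := by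
    rw [← Subgroup.orderOf_coe]
  rw [← h3]
  exact orderOf_dvd_natCard _

lemma conj_smul_lift_relA {y : Q} {σ : MulAut S} (h : RelA e y σ) (B : Subgroup S) :
    MulAut.conj y • lift e B = lift e (B.map σ.toMonoidHom) := by
  have h1 : σ = autOf e y h.1 := relA_unique e h (relA_autOf e y h.1)
  rw [conj_smul_lift e y h.1]
  exact congrArg (fun α : MulAut S => lift e (B.map α.toMonoidHom)) h1.symm

end

/-- the necessary condition -/
theorem main {S : Type v} [Group S] [Finite S] [IsSimpleGroup S]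
    (hS : ∃ x y : S, x * y ≠ y * x) (G : Type u) [Group G] [Finite G] (hG : MaxCompl G)
    (hSG : IsCompFactor S G) (H : Subgroup S) (hH : H ≠ ⊤) (hH0 : H ≠ ⊥)
    (hinv : ∀ α : MulAut S, ∃ a : S, H.map α.toMonoidHom = MulAut.conj a • H) :
    ∃ (R : Subgroup S) (T : Subgroup (MulAut S)), H ≤ R ∧ R ≠ ⊤ ∧
      Subgroup.normalizer (R : Set S) = R ∧
      (∀ t ∈ T, ∃ a : S, R.map t.toMonoidHom = MulAut.conj a • R) ∧
      (∀ a : S, ∃ t ∈ T, R.map t.toMonoidHom = MulAut.conj a • R) ∧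
      (∀ p : ℕ, p.Prime → p ∣ Nat.card T → p ∣ R.index) ∧
      (∀ p : ℕ, p.Prime → p ∣ R.index → ∃ α : MulAut S, α ^ p = 1 ∧
        (∃ a : S, R.map α.toMonoidHom = MulAut.conj a • R) ∧
        ∀ a : S, (MulAut.conj a • R).map α.toMonoidHom ≠ MulAut.conj a • R) := by
  obtain ⟨K₀, hK₀, f, hf⟩ := compFactor_subnormal hSG
  obtain ⟨Q, _, _, hQ, A, ⟨e⟩, hA⟩ := reduction S hS G hG K₀ hK₀ f hf
  have hnn : ∃ a : S, MulAut.conj a • H ≠ H := by
    by_contra hcon
    push Not at hcon
    have hN : H.Normal := by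
      constructor
      intro x hx g
      have h1 := hcon g
      rw [← h1, mem_conj_smul]
      simpa [mul_assoc] using hx
    rcases hN.eq_bot_or_eq_top with h | h
    · exact hH0 h
    · exact hH h
  obtain ⟨M, R, hM, hAM, hHR, hR, hMR⟩ := L2.exists_MR e hA (B := H) hinv hnn
  obtain ⟨K, hK⟩ := hQ M hM
  have hR0 : R ≠ ⊥ := by
    rintro rfl
    exact hH0 (le_bot_iff.1 hHR)
  have hnnR : ∃ a : S, MulAut.conj a • R ≠ R := by
    by_contra hcon
    push Not at hcon
    have hN : R.Normal := by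
      constructor
      intro x hx g
      have h1 := hcon g
      rw [← h1, mem_conj_smul]
      simpa [mul_assoc] using hx
    rcases hN.eq_bot_or_eq_top with h | h
    · exact hR0 h
    · exact hR h
  have hnnM : ∃ a ∈ A, MulAut.conj a • (M ⊓ A) ≠ M ⊓ A := by
    rw [hMR]
    exact L2.lift_conj_ne e hnnR
  have key : ∀ c : S, (e ⟨((e.symm c : A) : Q), (e.symm c).2⟩) = c := by
    intro c; simp
  -- elements of `Q` normalising `A` preserve the class of `R`
  have hclass : ∀ (y : Q) (σ : MulAut S), RelA e y σ →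
      ∃ a : S, R.map σ.toMonoidHom = MulAut.conj a • R := by
    intro y σ hy
    obtain ⟨c, hc, h1⟩ := EY.image_trace hA hM hAM y (EY.isC_self A)
    have hyA : EY.cj y A = A := hy.1
    rw [hyA] at hc h1
    refine ⟨e ⟨c, hc⟩, ?_⟩
    have h2 : MulAut.conj y • (M ⊓ A) = MulAut.conj c • (M ⊓ A) := h1
    rw [hMR, conj_smul_lift_relA e hy, conj_smul_lift_mem e hc] at h2
    exact lift_injective e h2
  refine ⟨R, indA e K, hHR, hR, ?_, ?_, ?_, ?_, ?_⟩
  · -- self-normalising
    apply le_antisymm _ Subgroup.le_normalizer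
    intro a ha
    have h1 : MulAut.conj a • R = R := by
      ext x
      rw [mem_conj_smul]
      have h2 := (Subgroup.mem_normalizer_iff.1 (inv_mem ha)) x
      rw [inv_inv] at h2
      exact h2.symm
    have h9 := normalizer_inf A hA M hM hAM hnnM (e.symm a) (e.symm a).2 (by
      rw [hMR, conj_smul_lift_mem e (e.symm a).2, key, h1])
    have h10 : ((e.symm a : A) : Q) ∈ M ⊓ A := ⟨h9, (e.symm a).2⟩
    rw [hMR, mem_lift] at h10
    obtain ⟨_, h11⟩ := h10
    rwa [key] at h11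
  · rintro t ⟨y, hy, hr⟩
    exact hclass y t hr
  · intro a
    obtain ⟨y, hy, hyA, hyM⟩ := compl_transitive A hA M K hM hAM hnnM hK
      (e.symm a) (e.symm a).2
    refine ⟨autOf e y hyA, ⟨y, hy, relA_autOf e y hyA⟩, ?_⟩
    rw [hMR, conj_smul_lift e y hyA, conj_smul_lift_mem e (e.symm a).2, key] at hyM
    exact lift_injective e hyM
  · intro p hp h
    have h4 := prime_dvd_indA e K p hp h
    have h5 := prime_dvd A hA M K hM hAM hnnM hK p hp h4
    rwa [L2.relIndex_MR e hMR] at h5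
  · intro p hp h
    have hpf : Fact p.Prime := ⟨hp⟩
    by_contra hcon
    push Not at hcon
    have hd : p ∣ Nat.card K := by
      refine dvd_trans ?_ (relIndex_dvd_card A hA M K hM hAM hnnM hK)
      rw [L2.relIndex_MR e hMR]
      exact h
    refine no_prime_card A hA M K hM hAM hnnM hK p ?_ hd
    intro x hx hxA
    have hrel := relA_autOf e x hxA
    have hpow : (autOf e x hxA : MulAut S) ^ p = 1 := by
      have h1 := relA_pow e hrel p
      rw [hx] at h1
      exact relA_unique e h1 (relA_one e)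
    obtain ⟨a, ha⟩ := hcon (autOf e x hxA) hpow (hclass x _ hrel)
    refine ⟨e.symm a, (e.symm a).2, ?_⟩
    rw [map_mul, mul_smul, hMR, conj_smul_lift_mem e (e.symm a).2, key,
      conj_smul_lift_relA e hrel, ha]

end Pool.Agent.Work.MP_bc729a_al.Reduct
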