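import Pool.Agent.Work.MP_bc729a_al.Lift
import Pool.Agent.Work.MP_bc729a_al.Alt

open scoped Pointwise
open Equiv

namespace Pool.Agent.Work.MP_bc729a_al

universe u v

section rel

variable {Q : Type u} [Group Q] {n : ℕ} {A : Subgroup Q}
  (e : A ≃* alternatingGroup (Fin n))

/-- `y` normalises `A` and acts on it as conjugation by `σ` -/
def Rel (y : Q) (σ : Perm (Fin n)) : Prop :=
  MulAut.conj y • A = A ∧ ∀ x x' : A, (x' : Q) = y * x * y⁻¹ →
    ((e x' : alternatingGroup (Fin n)) : Perm (Fin n)) = σ * (e x : Perm (Fin n)) * σ⁻¹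

lemma rel_iff {y : Q} (h : MulAut.conj y • A = A) (σ : Perm (Fin n)) :
    Rel e y σ ↔ ∀ x : alternatingGroup (Fin n),
      ((autOf e y h x : alternatingGroup (Fin n)) : Perm (Fin n)) = σ * (x : Perm (Fin n)) * σ⁻¹ := by
  constructor
  · intro hr x
    obtain ⟨z, rfl⟩ := e.surjective x
    rw [autOf_apply]
    exact hr.2 z _ rfl
  · intro hr
    refine ⟨h, fun x x' hx => ?_⟩
    have h1 := hr (e x)
    rw [autOf_apply] at h1
    have h2 : x' = conjAut y h x := Subtype.ext hx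
    rw [h2, h1]

lemma rel_one : Rel e (1 : Q) 1 := by
  refine ⟨by simp, fun x x' hx => ?_⟩
  have : x' = x := Subtype.ext (by simpa using hx)
  simp [this]

lemma rel_mul {y z : Q} {σ τ : Perm (Fin n)} (h1 : Rel e y σ) (h2 : Rel e z τ) :
    Rel e (y * z) (σ * τ) := by
  refine ⟨by rw [map_mul, mul_smul, h2.1, h1.1], fun x x' hx => ?_⟩
  have hz : z * (x : Q) * z⁻¹ ∈ A := mem_of_smul_eq h2.1 x.2
  have h3 := h2.2 x ⟨_, hz⟩ rfl
  have h4 := h1.2 ⟨_, hz⟩ x' (by rw [hx]; simp [mul_assoc])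
  rw [h4, h3]
  simp [mul_assoc]

lemma rel_inv {y : Q} {σ : Perm (Fin n)} (h1 : Rel e y σ) : Rel e y⁻¹ σ⁻¹ := by
  refine ⟨by rw [map_inv, inv_smul_eq_iff, h1.1], fun x x' hx => ?_⟩
  have h3 := h1.2 x' x (by rw [hx]; simp [mul_assoc])
  rw [h3]
  simp [mul_assoc]

lemma rel_pow {y : Q} {σ : Perm (Fin n)} (h1 : Rel e y σ) (k : ℕ) : Rel e (y ^ k) (σ ^ k) := by
  induction k with
  | zero => simpa using rel_one e
  | succ k ih => rw [pow_succ, pow_succ]; exact rel_mul e ih h1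

lemma rel_one_eq (hn : 4 ≤ n) {σ : Perm (Fin n)} (h1 : Rel e (1 : Q) σ) : σ = 1 := by
  apply eq_one_of_commute hn
  intro x
  obtain ⟨y, rfl⟩ := e.surjective x
  exact (h1.2 y y (by simp)).symm

/-- the permutations induced by `K` -/
def indT (K : Subgroup Q) : Subgroup (Perm (Fin n)) where
  carrier := {σ | ∃ y ∈ K, Rel e y σ}
  one_mem' := ⟨1, K.one_mem, rel_one e⟩
  mul_mem' := by
    rintro σ τ ⟨y, hy, h1⟩ ⟨z, hz, h2⟩
    exact ⟨y * z, K.mul_mem hy hz, rel_mul e h1 h2⟩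
  inv_mem' := by
    rintro σ ⟨y, hy, h1⟩
    exact ⟨y⁻¹, K.inv_mem hy, rel_inv e h1⟩

lemma mem_indT {K : Subgroup Q} {σ : Perm (Fin n)} : σ ∈ indT e K ↔ ∃ y ∈ K, Rel e y σ := Iff.rfl

lemma orderOf_dvd_of_rel (hn : 4 ≤ n) {y : Q} {σ : Perm (Fin n)} (h : Rel e y σ) :
    orderOf σ ∣ orderOf y := by
  apply orderOf_dvd_of_pow_eq_one
  apply rel_one_eq e hn
  have := rel_pow e h (orderOf y)
  rwa [pow_orderOf_eq_one] at this

lemma prime_dvd_indT [Finite Q] (hn : 4 ≤ n) (K : Subgroup Q) (q : ℕ) (hq : q.Prime)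
    (h : q ∣ Nat.card (indT e K)) : q ∣ Nat.card K := by
  haveI : Fact q.Prime := ⟨hq⟩
  obtain ⟨σ, hσ⟩ := exists_prime_orderOf_dvd_card' (G := indT e K) q h
  obtain ⟨y, hy, hr⟩ := (mem_indT e).1 σ.2
  have h1 := orderOf_dvd_of_rel e hn hr
  have h2 : orderOf (σ : Perm (Fin n)) = q := by rw [← hσ, Subgroup.orderOf_coe]
  rw [h2] at h1
  refine h1.trans ?_
  have h3 : orderOf (⟨y, hy⟩ : K) = orderOf y := by
    rw [← Subgroup.orderOf_coe]
  rw [← h3]
  exact orderOf_dvd_natCard _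

lemma rel_smul_stab {y : Q} {σ : Perm (Fin n)} (h : Rel e y σ) (s : Finset (Fin n)) :
    MulAut.conj y • lift e (stab s) = lift e (stab (s.map σ.toEmbedding)) := by
  rw [conj_smul_lift e y h.1, map_stab _ σ ((rel_iff e h.1 σ).1 h)]

end rel

/-- set stabilisers determine the set -/
lemma stab_inj {n : ℕ} (s t : Finset (Fin n)) (hst : s.card = t.card) (h2 : 2 * s.card < n)
    (h3 : s.card + 3 ≤ n) (h : stab s = stab t) : s = t := by
  by_contra hne
  have h1 : ¬ t ⊆ s := fun hts => hne (Finset.eq_of_subset_of_card_le hts hst.le).symm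
  obtain ⟨j, hjt, hjs⟩ := Finset.not_subset.1 h1
  have hk : ∃ k, k ∉ s ∪ t := by
    by_contra hcon
    push Not at hcon
    have h4 : (Finset.univ : Finset (Fin n)).card ≤ (s ∪ t).card :=
      Finset.card_le_card fun x _ => hcon x
    have h5 := Finset.card_union_le s t
    simp at h4
    omega
  obtain ⟨k, hk⟩ := hk
  rw [Finset.mem_union, not_or] at hk
  have hl : ∃ l, l ∉ insert j (insert k s) := by
    by_contra hcon
    push Not at hcon
    have h4 : (Finset.univ : Finset (Fin n)).card ≤ (insert j (insert k s)).card :=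
      Finset.card_le_card fun x _ => hcon x
    have h5 := Finset.card_insert_le j (insert k s)
    have h6 := Finset.card_insert_le k s
    simp at h4
    omega
  obtain ⟨l, hl⟩ := hl
  simp only [Finset.mem_insert, not_or] at hl
  have hjk : j ≠ k := fun hh => hk.2 (hh ▸ hjt)
  let c : Perm (Fin n) := swap j l * swap j k
  have hc : c.IsThreeCycle :=
    Equiv.Perm.isThreeCycle_swap_mul_swap_same (Ne.symm hl.1) hjk hl.2.1
  have hcs : (⟨c, hc.mem_alternatingGroup⟩ : alternatingGroup (Fin n)) ∈ stab s := by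
    rw [mem_stab]
    intro i hi
    change swap j l (swap j k i) ∈ s
    have e1 : i ≠ j := fun hh => hjs (hh ▸ hi)
    have e2 : i ≠ k := fun hh => hk.1 (hh ▸ hi)
    have e3 : i ≠ l := fun hh => hl.2.2 (hh ▸ hi)
    rwa [swap_apply_of_ne_of_ne e1 e2, swap_apply_of_ne_of_ne e1 e3]
  rw [h, mem_stab] at hcs
  have h7 := hcs j hjt
  change swap j l (swap j k j) ∈ t at h7
  rw [swap_apply_left, swap_apply_of_ne_of_ne hjk.symm (Ne.symm hl.2.1)] at h7
  exact hk.2 h7

/-- transitivity on subsets gives transitivity on points -/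
lemma points_of_subsets {n : ℕ} (T : Subgroup (Perm (Fin n))) (a : ℕ) (h0 : 0 < a) (h1 : a < n)
    (h : ∀ s t : Finset (Fin n), s.card = a → t.card = a → ∃ τ ∈ T, s.map τ.toEmbedding = t)
    (x y : Fin n) : ∃ τ ∈ T, τ x = y := by
  classical
  by_contra hcon
  push Not at hcon
  let O : Finset (Fin n) := Finset.univ.filter fun z => ∃ τ ∈ T, τ x = z
  have hxO : x ∈ O := by
    simp only [O, Finset.mem_filter, Finset.mem_univ, true_and]
    exact ⟨1, T.one_mem, rfl⟩
  have hyO : y ∉ O := by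
    simp only [O, Finset.mem_filter, Finset.mem_univ, true_and]
    rintro ⟨τ, hτ, h2⟩
    exact hcon τ hτ h2
  have hxy : x ≠ y := fun hh => hyO (hh ▸ hxO)
  have hinv : ∀ τ ∈ T, ∀ z, τ z ∈ O ↔ z ∈ O := by
    intro τ hτ z
    simp only [O, Finset.mem_filter, Finset.mem_univ, true_and]
    constructor
    · rintro ⟨ρ, hρ, h2⟩
      refine ⟨τ⁻¹ * ρ, T.mul_mem (T.inv_mem hτ) hρ, ?_⟩
      rw [Perm.mul_apply, h2]
      simp
    · rintro ⟨ρ, hρ, h2⟩
      exact ⟨τ * ρ, T.mul_mem hτ hρ, by rw [Perm.mul_apply, h2]⟩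
  -- a set of size a - 1 avoiding x and y
  obtain ⟨r, hr, hrc⟩ : ∃ r ⊆ (Finset.univ.erase x).erase y, r.card = a - 1 := by
    obtain ⟨r, hr, hrc⟩ := Finset.exists_subset_card_eq
      (s := ((Finset.univ : Finset (Fin n)).erase x).erase y) (n := a - 1) (by
        rw [Finset.card_erase_of_mem (by simp [hxy.symm]), Finset.card_erase_of_mem (by simp)]
        simp
        omega)
    exact ⟨r, hr, hrc⟩
  have hxr : x ∉ r := fun hh => by simpa using hr hh
  have hyr : y ∉ r := fun hh => by simpa using hr hh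
  obtain ⟨τ, hτ, h2⟩ := h (insert x r) (insert y r)
    (by rw [Finset.card_insert_of_notMem hxr]; omega)
    (by rw [Finset.card_insert_of_notMem hyr]; omega)
  have h3 : ((insert x r).filter (· ∈ O)).card = ((insert y r).filter (· ∈ O)).card := by
    rw [← h2, Finset.filter_map, Finset.card_map]
    congr 1
    ext z
    simp only [Finset.mem_filter, Function.comp_apply]
    constructor
    · rintro ⟨h4, h5⟩
      exact ⟨h4, (hinv τ hτ z).2 h5⟩
    · rintro ⟨h4, h5⟩
      exact ⟨h4, (hinv τ hτ z).1 h5⟩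
  rw [Finset.filter_insert, Finset.filter_insert, if_pos hxO, if_neg hyO,
    Finset.card_insert_of_notMem (by simp [hxr])] at h3
  omega

end Pool.Agent.Work.MP_bc729a_al
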