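import Pool.Agent.Work.MP_bc729a_al.Generic
import Pool.Agent.Work.MP_bc729a_al.Rel
import Pool.Agent.Work.MP_bc729a_al.ModT
import Pool.Agent.Work.MP_bc729a_al.ModZ

open scoped Pointwise
open Equiv

namespace Pool.Agent.Work.MP_bc729a_al

universe u v

/-- a subgroup of `S_6` of order divisible by five has an orbit with at least five points -/
lemma orbit_five (T : Subgroup (Perm (Fin 6))) (h5 : 5 ∣ Nat.card T) :
    ∃ x : Fin 6, 5 ≤ Nat.card (MulAction.orbit T x) := by
  haveI : Fact (Nat.Prime 5) := ⟨by norm_num⟩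
  obtain ⟨c, hc⟩ := exists_prime_orderOf_dvd_card' (G := T) 5 h5
  have hc' : orderOf (c : Perm (Fin 6)) = 5 := by rw [Subgroup.orderOf_coe, hc]
  obtain ⟨x, hx⟩ : ∃ x, (c : Perm (Fin 6)) x ≠ x := by
    by_contra hcon
    push Not at hcon
    have : (c : Perm (Fin 6)) = 1 := Equiv.ext hcon
    rw [this, orderOf_one] at hc'
    omega
  refine ⟨x, ?_⟩
  have hfive : (5 : ℕ) ∣ Nat.card (MulAction.orbit (Subgroup.zpowers (c : Perm (Fin 6))) x) := by
    have h1 := MulAction.index_stabilizer (Subgroup.zpowers (c : Perm (Fin 6))) x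
    have h2 := Subgroup.index_dvd_card
      (MulAction.stabilizer (Subgroup.zpowers (c : Perm (Fin 6))) x)
    rw [h1, ← Nat.card_coe_set_eq, Nat.card_zpowers, hc'] at h2
    rcases (Nat.dvd_prime (by norm_num)).1 h2 with h4 | h4
    · exfalso
      have h6 : (⟨c, Subgroup.mem_zpowers _⟩ : Subgroup.zpowers (c : Perm (Fin 6))) • x = x := by
        have hs : Subsingleton (MulAction.orbit (Subgroup.zpowers (c : Perm (Fin 6))) x) :=
          (Nat.card_eq_one_iff_unique.1 h4).1
        have := hs.elim ⟨_, MulAction.mem_orbit x (⟨c, Subgroup.mem_zpowers _⟩ :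
          Subgroup.zpowers (c : Perm (Fin 6)))⟩ ⟨x, MulAction.mem_orbit_self x⟩
        exact congrArg Subtype.val this
      exact hx h6
    · rw [h4]
  have hsub : MulAction.orbit (Subgroup.zpowers (c : Perm (Fin 6))) x ⊆ MulAction.orbit T x := by
    rintro _ ⟨⟨g, hg⟩, rfl⟩
    have : g ∈ T := by
      have h1 : Subgroup.zpowers (c : Perm (Fin 6)) ≤ T := by
        rw [Subgroup.zpowers_le]; exact c.2
      exact h1 hg
    exact ⟨⟨g, this⟩, rfl⟩
  have h1 : Nat.card (MulAction.orbit (Subgroup.zpowers (c : Perm (Fin 6))) x) ≤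
      Nat.card (MulAction.orbit T x) := by
    rw [Nat.card_coe_set_eq, Nat.card_coe_set_eq]
    exact Set.ncard_le_ncard hsub (Set.toFinite _)
  haveI : Nonempty (MulAction.orbit (Subgroup.zpowers (c : Perm (Fin 6))) x) :=
    ⟨⟨x, MulAction.mem_orbit_self x⟩⟩
  have h2 := Nat.le_of_dvd Nat.card_pos hfive
  omega

lemma orbit_le_six (T : Subgroup (Perm (Fin 6))) (x : Fin 6) :
    Nat.card (MulAction.orbit T x) ≤ 6 := by
  have := Nat.card_le_card_of_injective (Subtype.val : MulAction.orbit T x → Fin 6)
    Subtype.val_injective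
  simpa using this

/-- if an orbit has five points, points outside are fixed -/
lemma fixed_outside (T : Subgroup (Perm (Fin 6))) (x : Fin 6)
    (hcard5 : Nat.card (MulAction.orbit T x) = 5) (z : Fin 6) (hz1 : z ∉ MulAction.orbit T x)
    (t : Perm (Fin 6)) (ht : t ∈ T) : t z = z := by
  by_contra hz
  have hz2 : t z ∉ MulAction.orbit T x := by
    rintro ⟨s, hs⟩
    apply hz1
    refine ⟨⟨t, ht⟩⁻¹ * s, ?_⟩
    change ((⟨t, ht⟩⁻¹ : T) * s) • x = z
    have hs' : s • x = t z := hs
    rw [mul_smul, hs', inv_smul_eq_iff]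
    rfl
  have h3 : (insert (t z) (insert z (MulAction.orbit T x))).ncard = 7 := by
    rw [Set.ncard_insert_of_notMem (by
        rw [Set.mem_insert_iff, not_or]; exact ⟨hz, hz2⟩) (Set.toFinite _),
      Set.ncard_insert_of_notMem hz1 (Set.toFinite _), ← Nat.card_coe_set_eq, hcard5]
  have h4 := Set.ncard_le_ncard (Set.subset_univ
    (insert (t z) (insert z (MulAction.orbit T x)))) (Set.toFinite _)
  rw [h3, Set.ncard_univ] at h4
  simp at h4

/-- an odd order transitive-on-five argument in degree six -/
lemma no_odd_six (T : Subgroup (Perm (Fin 6))) (hodd : Odd (Nat.card T)) (h3 : 3 ∣ Nat.card T)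
    (h5 : 5 ∣ Nat.card T) : False := by
  classical
  obtain ⟨x, hge5⟩ := orbit_five T h5
  have horb : Odd (Nat.card (MulAction.orbit T x)) := by
    have h1 := MulAction.index_stabilizer T x
    have h2 := Subgroup.index_dvd_card (MulAction.stabilizer T x)
    rw [h1, ← Nat.card_coe_set_eq] at h2
    exact Odd.of_dvd_nat hodd h2
  have hle6 := orbit_le_six T x
  have hcard5 : Nat.card (MulAction.orbit T x) = 5 := by
    rcases horb with ⟨k, hk⟩
    omega
  let X := MulAction.orbit T x
  let φ : T →* Perm X := MulAction.toPermHom T X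
  have hφinj : Function.Injective φ := by
    rw [injective_iff_map_eq_one]
    intro t ht
    apply Subtype.ext
    change (t : Perm (Fin 6)) = 1
    apply Equiv.ext
    intro z
    by_cases hz : z ∈ MulAction.orbit T x
    · have := congrArg (fun f : Perm X => ((f ⟨z, hz⟩ : X) : Fin 6)) ht
      exact this
    · exact fixed_outside T x hcard5 z hz t t.2
  have hcT : Nat.card φ.range = Nat.card T :=
    (Nat.card_congr (MonoidHom.ofInjective hφinj).toEquiv).symm
  haveI : Fact (Nat.Prime 3) := ⟨by norm_num⟩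
  refine no_odd_transitive (X := X) 3 (by norm_num)
    (by rw [← Nat.card_eq_fintype_card]; exact hcard5) φ.range (by rw [hcT]; exact hodd) ?_
    (by rw [hcT]; exact h3)
  intro a b
  obtain ⟨t, ht⟩ := MulAction.exists_smul_eq T a b
  exact ⟨φ t, ⟨t, rfl⟩, ht⟩

lemma card_alt_six : Nat.card (alternatingGroup (Fin 6)) = 360 := by
  rw [nat_card_alternatingGroup]
  simp [Nat.factorial]

lemma alt_six_simple : IsSimpleGroup (alternatingGroup (Fin 6)) :=
  alternatingGroup.isSimpleGroup (by simp)

lemma index_big (B : Subgroup (alternatingGroup (Fin 6))) (hB : B ≠ ⊤) : ¬ B.index ≤ 5 := by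
  intro hle
  haveI := alt_six_simple
  have h1 : B.normalCore = ⊥ := by
    rcases (B.normalCore_normal).eq_bot_or_eq_top with h | h
    · exact h
    · exfalso
      apply hB
      rw [eq_top_iff, ← h]
      exact B.normalCore_le
  have h : B.normalCore.index ∣ Nat.factorial B.index := by
    rw [Subgroup.normalCore_eq_ker, Subgroup.index_ker, Subgroup.index_eq_card, ← Nat.card_perm]
    exact Subgroup.card_subgroup_dvd_card _
  rw [h1, Subgroup.index_bot, card_alt_six] at h
  have h2 := Nat.le_of_dvd (Nat.factorial_pos _) h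
  have h3 : Nat.factorial B.index ≤ Nat.factorial 5 := Nat.factorial_le hle
  have h4 : Nat.factorial 5 = 120 := by decide
  omega

lemma index_ne_nine (B : Subgroup (alternatingGroup (Fin 6))) : B.index ≠ 9 := by
  intro h9
  have hc : Nat.card B * B.index = 360 := by rw [B.card_mul_index, card_alt_six]
  rw [h9] at hc
  have hc40 : Nat.card B = 40 := by omega
  let T : Subgroup (Perm (Fin 6)) := B.map (alternatingGroup (Fin 6)).subtype
  have hT : Nat.card T = 40 := by
    rw [← hc40]
    exact (Nat.card_congr (B.equivMapOfInjective _ (Subgroup.subtype_injective _)).toEquiv).symm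
  obtain ⟨x, hge5⟩ := orbit_five T (by rw [hT]; norm_num)
  have horb : Nat.card (MulAction.orbit T x) ∣ 40 := by
    have h1 := MulAction.index_stabilizer T x
    have h2 := Subgroup.index_dvd_card (MulAction.stabilizer T x)
    rw [h1, ← Nat.card_coe_set_eq, hT] at h2
    exact h2
  have hle6 := orbit_le_six T x
  have hcard5 : Nat.card (MulAction.orbit T x) = 5 := by
    have : Nat.card (MulAction.orbit T x) = 5 ∨ Nat.card (MulAction.orbit T x) = 6 := by omega
    rcases this with h | h
    · exact h
    · rw [h] at horb; norm_num at horb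
  obtain ⟨z, hz⟩ : ∃ z, z ∉ MulAction.orbit T x := by
    by_contra hcon
    push Not at hcon
    have h1 : MulAction.orbit T x = Set.univ := Set.eq_univ_of_forall hcon
    rw [h1, Nat.card_coe_set_eq, Set.ncard_univ] at hcard5
    simp at hcard5
  have hle : B ≤ stab {z} := by
    intro b hb
    rw [mem_stab]
    intro i hi
    rw [Finset.mem_singleton] at hi ⊢
    subst hi
    exact fixed_outside T x hcard5 i hz b ⟨b, hb, rfl⟩
  have h6 := Subgroup.index_dvd_of_le hle
  rw [stab_index (by norm_num), h9] at h6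
  norm_num at h6

lemma index_six (B : Subgroup (alternatingGroup (Fin 6))) (h8 : 8 ∣ Nat.card B) (hB : B ≠ ⊤) :
    15 ∣ B.index ∧ ¬ 2 ∣ B.index := by
  have hc : Nat.card B * B.index = 360 := by rw [B.card_mul_index, card_alt_six]
  obtain ⟨k, hk⟩ := h8
  have h1 : k * B.index = 45 := by
    rw [hk, mul_assoc] at hc
    omega
  have h2 : B.index ∈ Nat.divisors 45 := by
    rw [Nat.mem_divisors]; exact ⟨⟨k, by rw [← h1, mul_comm]⟩, by norm_num⟩
  have h5 : Nat.divisors 45 = {1, 3, 5, 9, 15, 45} := by decide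
  rw [h5] at h2
  simp only [Finset.mem_insert, Finset.mem_singleton] at h2
  have h3 := index_big B hB
  have h4 := index_ne_nine B
  omega

end Pool.Agent.Work.MP_bc729a_al
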