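import Pool.Agent.Work.MP_bc729a_al.Generic
import Pool.Agent.Work.MP_bc729a_al.Rel
import Pool.Agent.Work.MP_bc729a_al.ModT
import Pool.Agent.Work.MP_bc729a_al.ModZ

open scoped Pointwise
open Equiv

namespace Pool.Agent.Work.MP_bc729a_al

universe u v

lemma card_dvd_of_transitive {n : ℕ} (T : Subgroup (Perm (Fin n))) (a : ℕ)
    (h : ∀ s t : Finset (Fin n), s.card = a → t.card = a → ∃ τ ∈ T, s.map τ.toEmbedding = t)
    (s : Finset (Fin n)) (hs : s.card = a) :
    n.choose a ∣ Nat.card T := by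
  have hT : MulAction.IsPretransitive T (Set.powersetCard (Fin n) a) := by
    constructor
    rintro ⟨x, hx⟩ ⟨y, hy⟩
    obtain ⟨τ, hτ, h1⟩ := h x y hx hy
    refine ⟨⟨τ, hτ⟩, ?_⟩
    apply Subtype.ext
    change τ • x = y
    rw [← h1]
    ext z
    simp only [Finset.mem_smul_finset, Perm.smul_def, Finset.mem_map_equiv]
    constructor
    · rintro ⟨w, hw, rfl⟩
      simpa using hw
    · intro hz
      exact ⟨_, hz, by simp⟩
  have h1 := MulAction.index_stabilizer_of_transitive T (⟨s, hs⟩ : Set.powersetCard (Fin n) a)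
  have h4 := Set.powersetCard.card (α := Fin n) (n := a)
  rw [Nat.card_eq_fintype_card (α := Fin n), Fintype.card_fin] at h4
  rw [← h4]
  have h5 := Subgroup.index_dvd_card (MulAction.stabilizer T
    (⟨s, hs⟩ : Set.powersetCard (Fin n) a))
  rw [h1] at h5
  exact h5

section

variable {Q : Type u} [Group Q] [Finite Q] {n : ℕ} {A : Subgroup Q}
  (e : A ≃* alternatingGroup (Fin n))

include e in
theorem special_case (hQ : MaxCompl Q) (hA : ConjComm A) (hn : 5 ≤ n) (h6 : n ≠ 6) (a : ℕ)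
    (h0 : 0 < a) (h2 : 2 * a < n) (h3 : a + 3 ≤ n) (hodd : ¬ 2 ∣ n.choose a)
    (p : ℕ) [Fact p.Prime] (hp2 : p ≠ 2) (hpn : n = p + 2) (hpc : p ∣ n.choose a) : False := by
  obtain ⟨s, hs⟩ : ∃ s : Finset (Fin n), s.card = a := by
    obtain ⟨s, -, hs⟩ := Finset.exists_subset_card_eq (s := (Finset.univ : Finset (Fin n)))
      (n := a) (by simp; omega)
    exact ⟨s, hs⟩
  obtain ⟨M, K, hM, hAM, hMA, hK, hnn⟩ := exists_MK e hQ hA hn h6 s (by omega) (by omega)
    (by omega)
  have hrel : M.relIndex A = n.choose a := by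
    rw [← Subgroup.inf_relIndex_right, hMA, relIndex_lift, stab_index (by omega), hs]
  have hT1 : ∀ t : Finset (Fin n), t.card = a → ∃ τ ∈ indT e K, s.map τ.toEmbedding = t := by
    intro t ht
    obtain ⟨b, hb⟩ := exists_alt_smul (by omega) s t (by omega)
    obtain ⟨y, hy, hyA, hyM⟩ := compl_transitive A hA M K hM hAM hnn hK
      (e.symm b) (e.symm b).2
    obtain ⟨σ, hσ⟩ := autSigma hn h6 (autOf e y hyA)
    have hR : Rel e y σ := (rel_iff e hyA σ).2 hσ
    refine ⟨σ, ⟨y, hy, hR⟩, ?_⟩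
    have h5 : (e ⟨((e.symm b : A) : Q), (e.symm b).2⟩) = b := by simp
    rw [hMA, rel_smul_stab e hR, conj_smul_lift_mem e (e.symm b).2, h5,
      conj_smul_stab b s t hb] at hyM
    exact stab_inj _ _ (by simp; omega) (by simp; omega) (by simp; omega) (lift_injective e hyM)
  have hT2 : ∀ s t : Finset (Fin n), s.card = a → t.card = a →
      ∃ τ ∈ indT e K, s.map τ.toEmbedding = t := by
    intro u t hu ht
    obtain ⟨τ1, h1, h4⟩ := hT1 u hu
    obtain ⟨τ2, h5, h6⟩ := hT1 t ht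
    refine ⟨τ2 * τ1⁻¹, Subgroup.mul_mem _ h5 (Subgroup.inv_mem _ h1), ?_⟩
    rw [← h6, ← h4]
    ext z
    simp only [Finset.mem_map, toEmbedding_apply, exists_exists_and_eq_and]
    constructor
    · rintro ⟨w, hw, rfl⟩
      exact ⟨w, hw, by simp⟩
    · rintro ⟨w, hw, rfl⟩
      exact ⟨w, hw, by simp⟩
  refine no_odd_transitive p hp2 (by simpa using hpn) (indT e K) ?_ ?_ ?_
  · rw [Nat.odd_iff, ← Nat.not_even_iff, even_iff_two_dvd] at *
    intro h
    have h1 := prime_dvd_indT e (by omega) K 2 Nat.prime_two h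
    have h4 := prime_dvd A hA M K hM hAM hnn hK 2 Nat.prime_two h1
    rw [hrel] at h4
    exact hodd h4
  · exact points_of_subsets (indT e K) a h0 (by omega) hT2
  · exact hpc.trans (card_dvd_of_transitive (indT e K) a hT2 s hs)

end

end Pool.Agent.Work.MP_bc729a_al
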